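import Pool.Agent.Lib.MP_e29efe_nt.Sy.St

/-! Products of truncated discrete Gaussians are almost balanced. -/

namespace Pool.Agent.Lib.MP_e29efe_nt.Sy

open Finset

namespace Approxx

lemma orth (n : ℤ) :
    ∫ θ in (-(1 / 2) : ℝ)..(1 / 2), Complex.exp (2 * Real.pi * Complex.I * (n : ℂ) * (θ : ℂ)) =
      if n = 0 then 1 else 0 := by
  split_ifs with h
  · subst h; simp; norm_num
  · have hc : (2 * Real.pi * Complex.I * (n : ℂ)) ≠ 0 := by
      have : (Real.pi : ℂ) ≠ 0 := by exact_mod_cast Real.pi_ne_zero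
      have h2 : (n : ℂ) ≠ 0 := by exact_mod_cast h
      simp [this, h2, Complex.I_ne_zero]
    rw [integral_exp_mul_complex hc]
    have e : 2 * Real.pi * Complex.I * (n : ℂ) * (((1 / 2 : ℝ)) : ℂ) =
        2 * Real.pi * Complex.I * (n : ℂ) * (((-(1 / 2) : ℝ)) : ℂ) + n * (2 * Real.pi * Complex.I) := by
      push_cast; ring
    rw [e, Complex.exp_add, Complex.exp_int_mul_two_pi_mul_I, mul_one, sub_self, zero_div]

lemma prod_diff {ι : Type} (s : Finset ι) (x y : ι → ℂ) (η : ℝ) (hη : 0 ≤ η)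
    (hx : ∀ v, ‖x v‖ ≤ 9) (hy : ∀ v, ‖y v‖ ≤ 9) (h : ∀ v, ‖x v - y v‖ ≤ η) :
    ‖∏ v ∈ s, x v - ∏ v ∈ s, y v‖ ≤ s.card * 9 ^ s.card * η := by
  classical
  induction s using Finset.induction_on with
  | empty => simp
  | insert a s ha ih =>
    rw [prod_insert ha, prod_insert ha, card_insert_of_notMem ha]
    have e : x a * ∏ v ∈ s, x v - y a * ∏ v ∈ s, y v =
        x a * (∏ v ∈ s, x v - ∏ v ∈ s, y v) + (x a - y a) * ∏ v ∈ s, y v := by ring
    have hp : ‖∏ v ∈ s, y v‖ ≤ 9 ^ s.card := by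
      rw [norm_prod]
      exact (prod_le_prod (fun _ _ => norm_nonneg _) fun v _ => hy v).trans (by simp)
    rw [e]
    calc _ ≤ ‖x a‖ * ‖∏ v ∈ s, x v - ∏ v ∈ s, y v‖ + ‖x a - y a‖ * ‖∏ v ∈ s, y v‖ := by
          rw [← norm_mul, ← norm_mul]; exact norm_add_le _ _
      _ ≤ 9 * (s.card * 9 ^ s.card * η) + η * 9 ^ s.card := by
          gcongr
          · exact hx a
          · exact h a
      _ ≤ _ := by
          have : (0 : ℝ) ≤ η * 9 ^ s.card := by positivity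
          push_cast
          rw [pow_succ]
          nlinarith

lemma norm_e (n : ℤ) (θ : ℝ) :
    ‖Complex.exp (2 * Real.pi * Complex.I * (n : ℂ) * (θ : ℂ))‖ = 1 := by
  have : 2 * Real.pi * Complex.I * (n : ℂ) * (θ : ℂ) = ((2 * Real.pi * n * θ : ℝ) : ℂ) * Complex.I := by
    push_cast; ring
  rw [this, Complex.norm_exp_ofReal_mul_I]

lemma th_le (h : ThetaSt) (σ : ℝ) (R : ℕ) (h1 : 1 ≤ σ) (h2 : σ ≤ R) (θ : ℝ) :
    ‖th σ R θ‖ ≤ 9 * Real.sqrt σ := by
  have a1 : ‖th σ R θ‖ ≤ ∑ n ∈ Icc (-(R : ℤ)) R, Real.exp (-Real.pi * (n : ℝ) ^ 2 / σ) := by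
    refine (norm_sum_le _ _).trans (sum_le_sum fun n _ => ?_)
    rw [norm_mul, norm_e, mul_one, Complex.norm_real, Real.norm_eq_abs, abs_of_pos (Real.exp_pos _)]
  have a2 : th σ R 0 =
      ((∑ n ∈ Icc (-(R : ℤ)) R, Real.exp (-Real.pi * (n : ℝ) ^ 2 / σ) : ℝ) : ℂ) := by
    simp [th]
  have a3 := h σ R 0 h1 h2 (by simp)
  rw [a2, ← Complex.ofReal_sub, Complex.norm_real, Real.norm_eq_abs] at a3
  have a4 := (abs_le.mp a3).2
  have a5 : Real.exp (-Real.pi * σ / 4) ≤ 1 := by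
    rw [Real.exp_le_one_iff]
    have := Real.pi_pos
    nlinarith
  have a6 : 0 ≤ Real.sqrt σ := Real.sqrt_nonneg _
  simp only [ne_eq, OfNat.ofNat_ne_zero, not_false_eq_true, zero_pow, mul_zero, Real.exp_zero,
    mul_one] at a4
  nlinarith

/-- the normalised generating function is close to the Gaussian -/
lemma sup_bound (h : ThetaSt) {m : ℕ} (a : Fin m → ℤ) (s : Fin m → ℝ) (c0 K X : ℝ) (R : ℕ)
    (hc0 : 0 < c0) (hc1 : c0 ≤ 1) (hs : ∀ v, c0 ≤ s v) (hK : 1 ≤ K) (haK : ∀ v, |(a v : ℝ)| ≤ K)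
    (hX : 1 ≤ c0 * X) (hR : ∀ v, s v * X ≤ R) (hq : ∑ v, s v * (a v : ℝ) ^ 2 = 1)
    (v0 : Fin m) (hv0 : a v0 = 1) (θ : ℝ) (hθ : |θ| ≤ 1 / 2) :
    ‖∏ v, th (s v * X) R (a v * θ) / (Real.sqrt (s v * X) : ℂ) -
        (Real.exp (-Real.pi * X * θ ^ 2) : ℂ)‖ ≤
      ((m + 2) * 9 ^ (m + 1)) * Real.exp (-(Real.pi * c0 / (4 * K ^ 2)) * X) := by
  have hpi := Real.pi_pos
  have hX0 : 0 < X := by
    by_contra hh
    push Not at hh
    nlinarith
  set E := Real.exp (-(Real.pi * c0 / (4 * K ^ 2)) * X) with hE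
  have hE0 : 0 < E := Real.exp_pos _
  have hσ : ∀ v, 1 ≤ s v * X := fun v => hX.trans (mul_le_mul_of_nonneg_right (hs v) hX0.le)
  have hsq : ∀ v, 0 < Real.sqrt (s v * X) := fun v => Real.sqrt_pos.mpr (by linarith [hσ v])
  have hK2 : 1 ≤ K ^ 2 := one_le_pow₀ hK
  have hEle : ∀ y : ℝ, c0 * X / (4 * K ^ 2) ≤ y → Real.exp (-Real.pi * y) ≤ E := by
    intro y hy
    rw [hE, Real.exp_le_exp]
    have : -(Real.pi * c0 / (4 * K ^ 2)) * X = -Real.pi * (c0 * X / (4 * K ^ 2)) := by ring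
    rw [this]
    nlinarith
  have h9 : ∀ v (t : ℝ), ‖th (s v * X) R t / (Real.sqrt (s v * X) : ℂ)‖ ≤ 9 := by
    intro v t
    rw [norm_div, Complex.norm_real, Real.norm_eq_abs, abs_of_pos (hsq v), div_le_iff₀ (hsq v)]
    exact th_le h _ _ (hσ v) (hR v) t
  have hcl : ∀ v (t : ℝ), |t| ≤ 1 / 2 → ‖th (s v * X) R t / (Real.sqrt (s v * X) : ℂ) -
      (Real.exp (-Real.pi * (s v * X) * t ^ 2) : ℂ)‖ ≤ 8 * E := by
    intro v t ht
    have a1 := h (s v * X) R t (hσ v) (hR v) ht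
    have hne : (Real.sqrt (s v * X) : ℂ) ≠ 0 := by exact_mod_cast (hsq v).ne'
    have e : th (s v * X) R t / (Real.sqrt (s v * X) : ℂ) -
        (Real.exp (-Real.pi * (s v * X) * t ^ 2) : ℂ) =
        (th (s v * X) R t - ((Real.sqrt (s v * X) *
          Real.exp (-Real.pi * (s v * X) * t ^ 2) : ℝ) : ℂ)) / (Real.sqrt (s v * X) : ℂ) := by
      rw [Complex.ofReal_mul]; field_simp
    rw [e, norm_div, Complex.norm_real, Real.norm_eq_abs, abs_of_pos (hsq v), div_le_iff₀ (hsq v)]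
    refine a1.trans ?_
    have a2 : Real.exp (-Real.pi * (s v * X) / 4) ≤ E := by
      rw [mul_div_assoc]
      refine hEle _ ?_
      rw [div_le_div_iff₀ (by positivity) (by norm_num)]
      have b1 : c0 * X ≤ s v * X := mul_le_mul_of_nonneg_right (hs v) hX0.le
      have b2 : 0 ≤ s v * X := by linarith [hσ v]
      nlinarith
    nlinarith [hsq v]
  have h9m : (0 : ℝ) < 9 ^ m := by positivity
  have hm0 : (0 : ℝ) ≤ m := Nat.cast_nonneg m
  rcases le_total |θ| (1 / (2 * K)) with hc | hc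
  · have e : (Real.exp (-Real.pi * X * θ ^ 2) : ℂ) =
        ∏ v, (Real.exp (-Real.pi * (s v * X) * ((a v : ℝ) * θ) ^ 2) : ℂ) := by
      rw [← Complex.ofReal_prod, ← Real.exp_sum]
      congr 2
      calc -Real.pi * X * θ ^ 2 = -Real.pi * X * θ ^ 2 * ∑ v, s v * (a v : ℝ) ^ 2 := by
            rw [hq, mul_one]
        _ = _ := by rw [mul_sum]; exact sum_congr rfl fun v _ => by ring
    rw [e]
    refine (prod_diff univ _ _ (8 * E) (by positivity) (fun v => h9 v _) (fun v => ?_)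
      (fun v => hcl v _ ?_)).trans ?_
    · rw [Complex.norm_real, Real.norm_eq_abs, abs_of_pos (Real.exp_pos _)]
      refine le_trans ?_ (by norm_num : (1 : ℝ) ≤ 9)
      rw [Real.exp_le_one_iff]
      have : 0 ≤ Real.pi * (s v * X) * ((a v : ℝ) * θ) ^ 2 := by
        have := hσ v
        positivity
      linarith
    · rw [abs_mul]
      calc |(a v : ℝ)| * |θ| ≤ K * (1 / (2 * K)) :=
            mul_le_mul (haK v) hc (abs_nonneg _) (by linarith)
        _ = 1 / 2 := by field_simp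
    · rw [card_univ, Fintype.card_fin, pow_succ]
      have : 0 ≤ (9 : ℝ) ^ m * E := by positivity
      nlinarith [mul_nonneg hm0 this]
  · have hθ2 : 1 / (4 * K ^ 2) ≤ θ ^ 2 := by
      have : (1 / (2 * K)) ^ 2 ≤ |θ| ^ 2 := pow_le_pow_left₀ (by positivity) hc 2
      rw [sq_abs] at this
      refine le_trans (le_of_eq ?_) this
      field_simp; norm_num
    have hlow : ∀ y : ℝ, c0 ≤ y → Real.exp (-Real.pi * (y * X) * θ ^ 2) ≤ E := by
      intro y hy
      rw [mul_assoc]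
      refine hEle _ ?_
      calc c0 * X / (4 * K ^ 2) = c0 * X * (1 / (4 * K ^ 2)) := by ring
        _ ≤ y * X * θ ^ 2 :=
            mul_le_mul (mul_le_mul_of_nonneg_right hy hX0.le) hθ2 (by positivity)
              (mul_nonneg (by linarith) hX0.le)
    have b0 : ‖th (s v0 * X) R (a v0 * θ) / (Real.sqrt (s v0 * X) : ℂ)‖ ≤ 9 * E := by
      rw [hv0, Int.cast_one, one_mul]
      have c1 := hcl v0 θ hθ
      have c2 := hlow (s v0) (hs v0)
      have c3 := norm_le_norm_sub_add (th (s v0 * X) R θ / (Real.sqrt (s v0 * X) : ℂ))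
        (Real.exp (-Real.pi * (s v0 * X) * θ ^ 2) : ℂ)
      rw [Complex.norm_real, Real.norm_eq_abs, abs_of_pos (Real.exp_pos _)] at c3
      linarith
    have b1 : ‖∏ v, th (s v * X) R (a v * θ) / (Real.sqrt (s v * X) : ℂ)‖ ≤ 9 * E * 9 ^ m := by
      rw [← mul_prod_erase _ _ (mem_univ v0), norm_mul]
      refine mul_le_mul b0 ?_ (norm_nonneg _) (by positivity)
      rw [norm_prod]
      refine (prod_le_prod (fun _ _ => norm_nonneg _) fun v _ => h9 v _).trans ?_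
      rw [prod_const]
      refine pow_le_pow_right₀ (by norm_num) ?_
      simpa using card_le_univ (univ.erase v0)
    have b2 : ‖(Real.exp (-Real.pi * X * θ ^ 2) : ℂ)‖ ≤ E := by
      rw [Complex.norm_real, Real.norm_eq_abs, abs_of_pos (Real.exp_pos _)]
      have := hlow 1 hc1
      rwa [one_mul] at this
    refine (norm_sub_le _ _).trans ?_
    have b3 : (1 : ℝ) ≤ 9 ^ m := one_le_pow₀ (by norm_num)
    rw [pow_succ (9 : ℝ) m]
    have : 0 ≤ (9 : ℝ) ^ m * E := by positivity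
    have b4 : E ≤ 9 ^ m * E := le_mul_of_one_le_left hE0.le b3
    nlinarith [mul_nonneg hm0 this]

/-- the bx -/
noncomputable def bx (m R : ℕ) : Finset (Fin m → ℤ) := Fintype.piFinset fun _ => Icc (-(R : ℤ)) R

noncomputable def WW {m : ℕ} (σ : Fin m → ℝ) (x : Fin m → ℤ) : ℝ :=
  ∏ v, Real.exp (-Real.pi * (x v : ℝ) ^ 2 / σ v)

noncomputable def mu {m : ℕ} (σ : Fin m → ℝ) (R : ℕ) (a : Fin m → ℤ) (t : ℤ) : ℝ :=
  ∑ x ∈ bx m R, if ∑ v, a v * x v = t then WW σ x else 0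

lemma gen_eq {m : ℕ} (σ : Fin m → ℝ) (R : ℕ) (a : Fin m → ℤ) (θ : ℝ) :
    ∏ v, th (σ v) R (a v * θ) = ∑ x ∈ bx m R, (WW σ x : ℂ) *
      Complex.exp (2 * Real.pi * Complex.I * ((∑ v, a v * x v : ℤ) : ℂ) * (θ : ℂ)) := by
  simp only [th]
  rw [prod_univ_sum]
  refine sum_congr rfl fun x _ => ?_
  rw [prod_mul_distrib, WW, Complex.ofReal_prod, ← Complex.exp_sum]
  congr 2
  push_cast
  rw [mul_sum, sum_mul]
  exact sum_congr rfl fun v _ => by ring

lemma mu_eq {m : ℕ} (σ : Fin m → ℝ) (R : ℕ) (a : Fin m → ℤ) (t : ℤ) :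
    (mu σ R a t : ℂ) = ∫ θ in (-(1 / 2) : ℝ)..(1 / 2), (∏ v, th (σ v) R (a v * θ)) *
      Complex.exp (2 * Real.pi * Complex.I * ((-t : ℤ) : ℂ) * (θ : ℂ)) := by
  have e : ∀ θ : ℝ, (∏ v, th (σ v) R (a v * θ)) *
      Complex.exp (2 * Real.pi * Complex.I * ((-t : ℤ) : ℂ) * (θ : ℂ)) =
      ∑ x ∈ bx m R, (WW σ x : ℂ) *
        Complex.exp (2 * Real.pi * Complex.I * ((∑ v, a v * x v - t : ℤ) : ℂ) * (θ : ℂ)) := by
    intro θ
    rw [gen_eq, sum_mul]
    refine sum_congr rfl fun x _ => ?_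
    rw [mul_assoc, ← Complex.exp_add]
    congr 2
    rw [Int.cast_sub, Int.cast_neg]; ring
  simp only [e]
  rw [intervalIntegral.integral_finsetSum]
  · rw [mu, Complex.ofReal_sum]
    refine sum_congr rfl fun x _ => ?_
    rw [intervalIntegral.integral_const_mul, orth]
    by_cases h : ∑ v, a v * x v = t
    · simp [h]
    · simp [h, sub_eq_zero]
  · intro x _
    refine Continuous.intervalIntegrable ?_ _ _
    fun_prop

lemma mu_close {m : ℕ} (σ : Fin m → ℝ) (R : ℕ) (a b : Fin m → ℤ) (δ : ℝ)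
    (h : ∀ θ : ℝ, |θ| ≤ 1 / 2 → ‖∏ v, th (σ v) R (a v * θ) - ∏ v, th (σ v) R (b v * θ)‖ ≤ δ)
    (t : ℤ) : |mu σ R a t - mu σ R b t| ≤ δ := by
  have hc : ∀ c : Fin m → ℤ, Continuous fun θ : ℝ => (∏ v, th (σ v) R (c v * θ)) *
      Complex.exp (2 * Real.pi * Complex.I * ((-t : ℤ) : ℂ) * (θ : ℂ)) := by
    intro c
    simp only [th]
    fun_prop
  rw [← Real.norm_eq_abs, ← Complex.norm_real, Complex.ofReal_sub, mu_eq, mu_eq,
    ← intervalIntegral.integral_sub ((hc a).intervalIntegrable _ _) ((hc b).intervalIntegrable _ _)]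
  refine (intervalIntegral.norm_integral_le_of_norm_le_const (C := δ) fun θ hθ => ?_).trans ?_
  · rw [← sub_mul, norm_mul, norm_e, mul_one]
    refine h θ ?_
    rw [Set.uIoc_of_le (by norm_num)] at hθ
    exact abs_le.mpr ⟨hθ.1.le, hθ.2⟩
  · norm_num

noncomputable def ww {m : ℕ} (σ : Fin m → ℝ) (R : ℕ) : (Fin m → ℤ) →₀ ℝ :=
  Finsupp.onFinset (bx m R) (fun x => if x ∈ bx m R then WW σ x else 0)
    (fun x hx => by by_contra h; simp [h] at hx)

lemma ww_apply {m : ℕ} (σ : Fin m → ℝ) (R : ℕ) (x : Fin m → ℤ) :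
    ww σ R x = if x ∈ bx m R then WW σ x else 0 := rfl

lemma ww_support {m : ℕ} (σ : Fin m → ℝ) (R : ℕ) : (ww σ R).support ⊆ bx m R :=
  Finsupp.support_onFinset_subset

lemma marg_eq {d m : ℕ} (σ : Fin m → ℝ) (R : ℕ) (a : Fin d → Fin m → ℤ) (i : Fin d) (t : ℕ) :
    marg (lev a) (ww σ R) i t =
      mu σ R (a i) t + if t = 0 then 0 else mu σ R (a i) (-t) := by
  have e : marg (lev a) (ww σ R) i t =
      ∑ x ∈ bx m R, if lev a i x = t then WW σ x else 0 := by
    rw [marg, sum_subset (ww_support σ R)]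
    · exact sum_congr rfl fun x hx => by rw [ww_apply, if_pos hx]
    · intro x _ hx
      rw [Finsupp.notMem_support_iff.mp hx]; simp
  rw [e]
  by_cases ht : t = 0
  · subst ht
    simp [mu, lev]
  · rw [if_neg ht, mu, mu, ← sum_add_distrib]
    refine sum_congr rfl fun x _ => ?_
    obtain ⟨n, hn⟩ : ∃ n : ℤ, ∑ v, a i v * x v = n := ⟨_, rfl⟩
    have hl : lev a i x = n.natAbs := by rw [lev, hn]
    rw [hl, hn]
    by_cases h1 : n = t
    · rw [if_pos (by omega), if_pos h1, if_neg (by omega), add_zero]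
    · by_cases h2 : n = -t
      · rw [if_pos (by omega), if_neg h1, if_pos h2, zero_add]
      · rw [if_neg (by omega), if_neg h1, if_neg h2, add_zero]

end Approxx

open Approxx in
theorem approx_st (h : ThetaSt) : ApproxSt := by
  classical
  intro d m a s hD A ε hε F
  obtain ⟨hs0, hq, hone⟩ := hD
  have hpi := Real.pi_pos
  -- constants
  obtain ⟨c0, hc0, hc1, hs⟩ : ∃ c0 : ℝ, 0 < c0 ∧ c0 ≤ 1 ∧ ∀ v, c0 ≤ s v := by
    have hT : 0 ≤ ∑ v, 1 / s v := sum_nonneg fun v _ => (one_div_pos.mpr (hs0 v)).le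
    refine ⟨1 / (1 + ∑ v, 1 / s v), by positivity, ?_, fun v => ?_⟩
    · rw [div_le_one (by positivity)]; linarith
    · have : 1 / s v ≤ ∑ v, 1 / s v :=
        single_le_sum (f := fun v => 1 / s v) (fun v _ => (one_div_pos.mpr (hs0 v)).le) (mem_univ v)
      rw [div_le_iff₀ (by positivity)]
      have h2 : s v * (1 / s v) = 1 := by have := (hs0 v).ne'; field_simp
      nlinarith [hs0 v]
  obtain ⟨K, hK, haK⟩ : ∃ K : ℕ, 1 ≤ K ∧ ∀ i v, (a i v).natAbs ≤ K := by
    refine ⟨1 + ∑ i, ∑ v, (a i v).natAbs, by omega, fun i v => ?_⟩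
    have a1 : (a i v).natAbs ≤ ∑ v, (a i v).natAbs :=
      single_le_sum (f := fun v => (a i v).natAbs) (fun _ _ => Nat.zero_le _) (mem_univ v)
    have a2 : ∑ v, (a i v).natAbs ≤ ∑ i, ∑ v, (a i v).natAbs :=
      single_le_sum (f := fun i => ∑ v, (a i v).natAbs) (fun _ _ => Nat.zero_le _) (mem_univ i)
    omega
  obtain ⟨S, hS1, hS⟩ : ∃ S : ℕ, 1 ≤ S ∧ ∀ v, s v ≤ S := by
    refine ⟨⌈∑ v, s v⌉₊ + 1, by omega, fun v => ?_⟩
    have a1 : s v ≤ ∑ v, s v := single_le_sum (fun v _ => (hs0 v).le) (mem_univ v)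
    have a2 := Nat.le_ceil (∑ v, s v)
    push_cast; linarith
  obtain ⟨Q, hQ⟩ : ∃ Q : ℝ, ∀ x ∈ F, ∑ v, (x v : ℝ) ^ 2 ≤ Q :=
    ⟨∑ x ∈ F, ∑ v, (x v : ℝ) ^ 2, fun x hx =>
      single_le_sum (f := fun x : Fin m → ℤ => ∑ v, (x v : ℝ) ^ 2) (fun _ _ => by positivity) hx⟩
  have hKR : (1 : ℝ) ≤ K := by exact_mod_cast hK
  have hSR : (1 : ℝ) ≤ S := by exact_mod_cast hS1
  set c : ℝ := Real.pi * c0 / (4 * (K : ℝ) ^ 2) with hc
  have hcp : 0 < c := by positivity
  set C : ℝ := ((m : ℝ) + 2) * 9 ^ (m + 1) with hC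
  have hCp : 0 < C := by positivity
  set G : ℝ := 4 * C * (S : ℝ) ^ m * ((m : ℝ) * K * S + 1) ^ (A + 1) with hG
  have hGp : 0 < G := by positivity
  have hlim : Filter.Tendsto (fun X : ℕ => (X : ℝ) ^ (m + A + 1) * Real.exp (-c * X))
      Filter.atTop (nhds 0) := by
    have := (tendsto_rpow_mul_exp_neg_mul_atTop_nhds_zero ((m + A + 1 : ℕ) : ℝ) c hcp).comp
      tendsto_natCast_atTop_atTop
    refine this.congr fun X => ?_
    simp only [Function.comp, Real.rpow_natCast]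
  have ev1 := hlim.eventually (gt_mem_nhds (show (0 : ℝ) < ε / G by positivity))
  have ev2 : ∀ᶠ X : ℕ in Filter.atTop, 1 / c0 + |Q| + 2 * Real.pi * |Q| / c0 ≤ (X : ℝ) :=
    tendsto_natCast_atTop_atTop.eventually (Filter.eventually_ge_atTop _)
  obtain ⟨X, hX1, hX2⟩ := (ev1.and ev2).exists
  have hQ0 : 0 ≤ |Q| := abs_nonneg Q
  have hQ1 : 0 ≤ 2 * Real.pi * |Q| / c0 := by positivity
  have hci : 0 < 1 / c0 := by positivity
  have hXc : 1 ≤ c0 * X := by
    have : 1 / c0 ≤ (X : ℝ) := by linarith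
    rw [div_le_iff₀ hc0] at this; linarith
  have hX0 : (0 : ℝ) ≤ X := Nat.cast_nonneg X
  have hXone : (1 : ℝ) ≤ X := by nlinarith
  let σ : Fin m → ℝ := fun v => s v * X
  let R : ℕ := S * X
  have hσ1 : ∀ v, 1 ≤ σ v := fun v => hXc.trans (mul_le_mul_of_nonneg_right (hs v) hX0)
  have hσR : ∀ v, σ v ≤ R := fun v => by
    simp only [σ, R]; push_cast; exact mul_le_mul_of_nonneg_right (hS v) hX0
  refine ⟨ww σ R, m * K * R + 1, fun x => ?_, fun x hx => ?_, fun x hx i => ?_, fun i j => ?_⟩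
  · rw [ww_apply]; split_ifs
    · exact prod_nonneg fun v _ => (Real.exp_pos _).le
    · exact le_rfl
  · have hxQ : ∑ v, (x v : ℝ) ^ 2 ≤ |Q| := (hQ x hx).trans (le_abs_self Q)
    have hxb : x ∈ bx m R := by
      rw [bx, Fintype.mem_piFinset]
      intro v
      have a1 : (x v : ℝ) ^ 2 ≤ ∑ v, (x v : ℝ) ^ 2 :=
        single_le_sum (f := fun v => (x v : ℝ) ^ 2) (fun _ _ => by positivity) (mem_univ v)
      have a2 : (X : ℝ) ≤ R := by simp only [R]; push_cast; nlinarith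
      have a3 : ((x v ^ 2 : ℤ) : ℝ) ≤ ((R : ℤ) : ℝ) := by push_cast; linarith
      have a4 : x v ^ 2 ≤ (R : ℤ) := by exact_mod_cast a3
      rw [mem_Icc]
      have a5 := Int.le_self_sq (x v)
      have a6 := Int.le_self_sq (-x v)
      rw [neg_sq] at a6
      constructor <;> linarith
    rw [ww_apply, if_pos hxb, WW, ← Real.exp_sum]
    refine le_trans ?_ (Real.add_one_le_exp _)
    have a1 : ∑ v, Real.pi * (x v : ℝ) ^ 2 / σ v ≤ ∑ v, Real.pi * (x v : ℝ) ^ 2 / (c0 * X) := by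
      refine sum_le_sum fun v _ => ?_
      exact div_le_div_of_nonneg_left (by positivity) (by linarith)
        (mul_le_mul_of_nonneg_right (hs v) hX0)
    have a2 : ∑ v, Real.pi * (x v : ℝ) ^ 2 / (c0 * X) ≤ 1 / 2 := by
      rw [← sum_div, ← mul_sum, div_le_iff₀ (by linarith)]
      have b1 : 2 * Real.pi * |Q| / c0 ≤ (X : ℝ) := by linarith
      rw [div_le_iff₀ hc0] at b1
      nlinarith
    have a3 : ∑ v, -Real.pi * (x v : ℝ) ^ 2 / σ v = -∑ v, Real.pi * (x v : ℝ) ^ 2 / σ v := by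
      rw [← sum_neg_distrib]; exact sum_congr rfl fun v _ => by ring
    rw [a3]; linarith
  · have hxb := ww_support σ R hx
    rw [bx, Fintype.mem_piFinset] at hxb
    have : (∑ v, a i v * x v).natAbs ≤ ∑ _v : Fin m, K * R := by
      refine (Int.natAbs_sum_le _ _).trans (sum_le_sum fun v _ => ?_)
      rw [Int.natAbs_mul]
      refine Nat.mul_le_mul (haK i v) ?_
      have := mem_Icc.mp (hxb v)
      omega
    rw [sum_const, card_univ, Fintype.card_fin, smul_eq_mul, ← mul_assoc] at this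
    exact Nat.lt_succ_of_le this
  · set E := Real.exp (-c * X) with hE
    have hE0 : 0 < E := Real.exp_pos _
    let Z : ℝ := ∏ v, Real.sqrt (σ v)
    have hsq : ∀ v, 0 < Real.sqrt (σ v) := fun v => Real.sqrt_pos.mpr (by linarith [hσ1 v])
    have hZ0 : 0 < Z := prod_pos fun v _ => hsq v
    have hZ : Z ≤ ((S : ℝ) * X) ^ m := by
      refine (prod_le_prod (g := fun _ => (S : ℝ) * X) (fun v _ => (hsq v).le) fun v _ => ?_).trans
        (by simp)
      have a1 : Real.sqrt (σ v) ≤ σ v := by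
        rw [Real.sqrt_le_left (by linarith [hσ1 v])]; nlinarith [hσ1 v]
      have a2 := hσR v
      simp only [R] at a2
      push_cast at a2
      linarith
    have hb : ∀ (i : Fin d) (θ : ℝ), |θ| ≤ 1 / 2 → ‖∏ v, th (σ v) R (a i v * θ) -
        (Z : ℂ) * (Real.exp (-Real.pi * X * θ ^ 2) : ℂ)‖ ≤ Z * (C * E) := by
      intro i θ hθ
      obtain ⟨v0, hv0⟩ := hone i
      have a1 := sup_bound h (a i) s c0 K X R hc0 hc1 hs hKR (fun v => ?_) hXc hσR (hq i) v0 hv0 θ hθ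
      · have e : ∏ v, th (σ v) R (a i v * θ) =
            (Z : ℂ) * ∏ v, th (s v * X) R (a i v * θ) / (Real.sqrt (s v * X) : ℂ) := by
          simp only [Z]
          rw [Complex.ofReal_prod, ← prod_mul_distrib]
          refine prod_congr rfl fun v _ => ?_
          have hne : (Real.sqrt (s v * X) : ℂ) ≠ 0 := by exact_mod_cast (hsq v).ne'
          simp only [σ]
          field_simp
        rw [e, ← mul_sub, norm_mul, Complex.norm_real, Real.norm_eq_abs, abs_of_pos hZ0]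
        exact mul_le_mul_of_nonneg_left a1 hZ0.le
      · have := haK i v
        rw [← Int.cast_abs, ← Int.natCast_natAbs]
        exact_mod_cast this
    have hmu : ∀ t : ℤ, |mu σ R (a i) t - mu σ R (a j) t| ≤ 2 * (Z * (C * E)) := by
      refine mu_close σ R (a i) (a j) _ fun θ hθ => ?_
      have := norm_sub_le_norm_sub_add_norm_sub (∏ v, th (σ v) R (a i v * θ))
        ((Z : ℂ) * (Real.exp (-Real.pi * X * θ ^ 2) : ℂ)) (∏ v, th (σ v) R (a j v * θ))
      have a1 := hb i θ hθ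
      have a2 := hb j θ hθ
      rw [norm_sub_rev] at a2
      linarith
    have hδ : 0 ≤ Z * (C * E) := by positivity
    have hmarg : ∀ t : ℕ, |marg (lev a) (ww σ R) i t - marg (lev a) (ww σ R) j t| ≤
        4 * (Z * (C * E)) := by
      intro t
      rw [marg_eq, marg_eq]
      have a1 := abs_le.mp (hmu t)
      have a2 := abs_le.mp (hmu (-t))
      split_ifs
      · rw [abs_le]; constructor <;> linarith [a1.1, a1.2]
      · rw [abs_le]; constructor <;> linarith [a1.1, a1.2, a2.1, a2.2]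
    set B : ℕ := m * K * R + 1 with hB
    have hBle : (B : ℝ) ≤ ((m : ℝ) * K * S + 1) * X := by
      simp only [hB, R]; push_cast; nlinarith
    calc ∑ t ∈ range B, |marg (lev a) (ww σ R) i t - marg (lev a) (ww σ R) j t| * (1 + (t : ℝ)) ^ A
        ≤ ∑ _t ∈ range B, 4 * (Z * (C * E)) * (B : ℝ) ^ A := by
          refine sum_le_sum fun t ht => ?_
          refine mul_le_mul (hmarg t) (pow_le_pow_left₀ (by positivity) ?_ _) (by positivity)
            (by positivity)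
          have : t + 1 ≤ B := mem_range.mp ht
          have : ((t + 1 : ℕ) : ℝ) ≤ B := by exact_mod_cast this
          push_cast at this; linarith
      _ = 4 * (Z * (C * E)) * (B : ℝ) ^ (A + 1) := by
          rw [sum_const, card_range, nsmul_eq_mul, pow_succ]; ring
      _ ≤ 4 * (((S : ℝ) * X) ^ m * (C * E)) * (((m : ℝ) * K * S + 1) * X) ^ (A + 1) := by
          gcongr
      _ = G * ((X : ℝ) ^ (m + A + 1) * E) := by
          rw [hG, mul_pow, mul_pow]; ring
      _ ≤ ε := by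
          rw [lt_div_iff₀ hGp] at hX1
          linarith

end Pool.Agent.Lib.MP_e29efe_nt.Sy
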