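import Pool.Agent.Lib.MP_e29efe_nt.Sy.St

/-! From balanced real weights to permutations. -/

namespace Pool.Agent.Lib.MP_e29efe_nt.Sy

open Finset

namespace Corex

theorem real_w (hA : ApproxSt) (hP : PointSt) (hL : PeelSt) (d m : ℕ) (a : Fin d → Fin m → ℤ)
    (s : Fin m → ℝ) (h : Data a s) (F : Finset (Fin m → ℤ)) :
    ∃ w : (Fin m → ℤ) →₀ ℝ, (∀ x, 0 ≤ w x) ∧ (∀ x ∈ F, 0 < w x) ∧
      ∀ i j t, marg (lev a) w i t = marg (lev a) w j t := by
  classical
  let r : Setoid (Fin d) :=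
    ⟨fun i j => a i = a j ∨ a i = -a j,
      ⟨fun _ => Or.inl rfl,
       fun {i j} hij => by
        rcases hij with hij | hij
        · exact Or.inl hij.symm
        · exact Or.inr (by rw [hij, neg_neg]),
       fun {i j k} hij hjk => by
        rcases hij with hij | hij <;> rcases hjk with hjk | hjk
        · exact Or.inl (hij.trans hjk)
        · exact Or.inr (hij.trans hjk)
        · exact Or.inr (by rw [hij, hjk])
        · exact Or.inl (by rw [hij, hjk, neg_neg])⟩⟩
  let e := Fintype.equivFin (Quotient r)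
  let a' : Fin (Fintype.card (Quotient r)) → Fin m → ℤ := fun t => a (e.symm t).out
  have hD : Data a' s := ⟨h.1, fun t => h.2.1 _, fun t => h.2.2 _⟩
  have hne : ∀ i j, i ≠ j → a' i ≠ a' j ∧ a' i ≠ -a' j := by
    intro i j hij
    have key : ¬ (a' i = a' j ∨ a' i = -a' j) := by
      intro hh
      apply hij
      apply e.symm.injective
      rw [← Quotient.out_eq (e.symm i), ← Quotient.out_eq (e.symm j)]
      exact Quotient.sound hh
    exact ⟨fun hh => key (Or.inl hh), fun hh => key (Or.inr hh)⟩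
  obtain ⟨w, h0, h1, h2⟩ := hL _ _ (lev a') (hP _ _ a' s hD hne) (hA _ _ a' s hD) F
  refine ⟨w, h0, h1, fun i j t => ?_⟩
  have hl : ∀ i x, lev a i x = lev a' (e (Quotient.mk r i)) x := by
    intro i x
    have hq : a (Quotient.mk r i).out = a i ∨ a (Quotient.mk r i).out = -a i :=
      Quotient.exact (Quotient.out_eq (Quotient.mk r i))
    simp only [lev, a', Equiv.symm_apply_apply]
    rcases hq with hq | hq
    · rw [hq]
    · rw [hq]
      simp only [Pi.neg_apply, neg_mul, sum_neg_distrib, Int.natAbs_neg]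
  have := h2 (e (Quotient.mk r i)) (e (Quotient.mk r j)) t
  simp only [marg] at this ⊢
  simp only [hl i, hl j]
  exact this

theorem nat_w (hF : PhiSt) {X : Type} {d : ℕ} (lv : Fin d → X → ℕ) (w : X →₀ ℝ)
    (h0 : ∀ x, 0 ≤ w x) (h2 : ∀ i j t, marg lv w i t = marg lv w j t) :
    ∃ n : X → ℕ, (∀ x ∈ w.support, 0 < n x) ∧ ∀ i j t,
      (∑ x ∈ w.support, if lv i x = t then n x else 0) =
        ∑ x ∈ w.support, if lv j x = t then n x else 0 := by
  classical
  have hpos : ∀ x ∈ w.support, 0 < w x := fun x hx =>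
    lt_of_le_of_ne (h0 x) (Finsupp.mem_support_iff.mp hx).symm
  obtain ⟨ε, hε, hε'⟩ : ∃ ε : ℝ, 0 < ε ∧ ∀ x ∈ w.support, ε ≤ w x := by
    rcases w.support.eq_empty_or_nonempty with he | he
    · exact ⟨1, one_pos, by simp [he]⟩
    · obtain ⟨x, hx, hm⟩ := w.support.exists_min_image w he
      exact ⟨w x, hpos x hx, hm⟩
  obtain ⟨φ, hφ⟩ := hF (w.support.image w) ε hε
  have hq : ∀ x ∈ w.support, 0 < φ (w x) := by
    intro x hx
    have h1 := abs_lt.mp (hφ (w x) (mem_image_of_mem _ hx))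
    have h3 := hε' x hx
    have : (0 : ℝ) < (φ (w x) : ℝ) := by linarith [h1.1]
    exact_mod_cast this
  let N : ℕ := ∏ x ∈ w.support, (φ (w x)).den
  have hN : 0 < N := prod_pos (fun x _ => (φ (w x)).den_pos)
  have hn : ∀ x, ∃ n : ℕ, x ∈ w.support → (n : ℚ) = N * φ (w x) := by
    intro x
    by_cases hx : x ∈ w.support
    · obtain ⟨c, hc⟩ : (φ (w x)).den ∣ N := dvd_prod_of_mem _ hx
      have hnum : 0 ≤ (φ (w x)).num := Rat.num_nonneg.mpr (hq x hx).le
      obtain ⟨k, hk⟩ := Int.eq_ofNat_of_zero_le hnum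
      refine ⟨c * k, fun _ => ?_⟩
      have h4 : ((φ (w x)).den : ℚ) * φ (w x) = (φ (w x)).num := Rat.den_mul_eq_num _
      rw [hc]
      push_cast
      rw [mul_comm ((φ (w x)).den : ℚ), mul_assoc, h4, hk]
      simp
    · exact ⟨0, fun h => absurd h hx⟩
  choose n hn using hn
  refine ⟨n, fun x hx => ?_, fun i j t => ?_⟩
  · have : (0 : ℚ) < n x := by
      rw [hn x hx]
      exact mul_pos (by exact_mod_cast hN) (hq x hx)
    exact_mod_cast this
  · have key : ∀ i, ((∑ x ∈ w.support, if lv i x = t then n x else 0 : ℕ) : ℚ) =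
        N * φ (marg lv w i t) := by
      intro i
      simp only [marg, map_sum, mul_sum]
      push_cast
      refine sum_congr rfl (fun x hx => ?_)
      split_ifs
      · exact hn x hx
      · simp
    have : ((∑ x ∈ w.support, if lv i x = t then n x else 0 : ℕ) : ℚ) =
        ((∑ x ∈ w.support, if lv j x = t then n x else 0 : ℕ) : ℚ) := by
      rw [key i, key j, h2 i j t]
    exact_mod_cast this

theorem perm_w {X : Type} (S : Finset X) (n : X → ℕ) (f g : X → ℕ)
    (h : ∀ t, (∑ x ∈ S, if f x = t then n x else 0) = ∑ x ∈ S, if g x = t then n x else 0) :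
    ∃ τ : Equiv.Perm (Σ x : S, Fin (n x)), ∀ k, f k.1 = g (τ k).1 := by
  classical
  have hc : ∀ (f : X → ℕ) (t : ℕ), Fintype.card {k : (Σ x : S, Fin (n x)) // f k.1 = t} =
      ∑ x ∈ S, if f x = t then n x else 0 := by
    intro f t
    rw [Fintype.card_subtype, card_filter, Fintype.sum_sigma, ← sum_coe_sort S]
    refine sum_congr rfl (fun x _ => ?_)
    split_ifs <;> simp
  let e : ∀ t, {k : (Σ x : S, Fin (n x)) // f k.1 = t} ≃ {k : (Σ x : S, Fin (n x)) // g k.1 = t} :=
    fun t => Fintype.equivOfCardEq (by rw [hc, hc, h t])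
  exact ⟨Equiv.ofFiberEquiv e, fun k => (Equiv.ofFiberEquiv_map e k).symm⟩

end Corex

theorem core_st (hA : ApproxSt) (hP : PointSt) (hL : PeelSt) (hF : PhiSt) : CoreSt := by
  classical
  intro d m a s h
  obtain ⟨w, h0, h1, h2⟩ := Corex.real_w hA hP hL d m a s h
    (univ.image fun v : Fin m => Pi.single v (1 : ℤ))
  obtain ⟨n, hn, hn2⟩ := Corex.nat_w hF (lev a) w h0 h2
  let J := (Σ x : w.support, Fin (n x)) × ℤˣ
  let e := Fintype.equivFin J
  let pt : J → Fin m → ℤ := fun k v => (k.2 : ℤ) * (k.1.1 : Fin m → ℤ) v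
  refine ⟨Fintype.card J, fun k => pt (e.symm k), fun v => ?_, fun i j => ?_⟩
  · have hv : (Pi.single v (1 : ℤ) : Fin m → ℤ) ∈ w.support :=
      Finsupp.mem_support_iff.mpr (h1 _ (mem_image_of_mem _ (mem_univ v))).ne'
    refine ⟨e (⟨⟨_, hv⟩, ⟨0, hn _ hv⟩⟩, 1), ?_⟩
    funext u
    simp [pt]
  · obtain ⟨τ, hτ⟩ := Corex.perm_w w.support n (lev a i) (lev a j) (hn2 i j)
    have hs : ∀ k : (Σ x : w.support, Fin (n x)), ∃ u : ℤˣ,
        ∑ v, a i v * (k.1 : Fin m → ℤ) v = u * ∑ v, a j v * ((τ k).1 : Fin m → ℤ) v := by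
      intro k
      rcases Int.natAbs_eq_natAbs_iff.mp (hτ k) with hk | hk
      · exact ⟨1, by simpa using hk⟩
      · exact ⟨-1, by simpa using hk⟩
    choose u hu using hs
    let σ : Equiv.Perm J := Equiv.prodShear τ (fun k => Equiv.mulRight (u k))
    refine ⟨e.permCongr σ, fun k => ?_⟩
    simp only [Equiv.permCongr_apply, Equiv.symm_apply_apply]
    generalize e.symm k = z
    obtain ⟨z, y⟩ := z
    have e1 : ∀ (b : Fin m → ℤ) (c : ℤ) (x : Fin m → ℤ),
        ∑ v, b v * (c * x v) = c * ∑ v, b v * x v := by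
      intro b c x
      rw [mul_sum]
      exact sum_congr rfl (fun v _ => by ring)
    change ∑ v, a i v * ((y : ℤ) * (z.1 : Fin m → ℤ) v) =
      ∑ v, a j v * (((y * u z : ℤˣ) : ℤ) * ((τ z).1 : Fin m → ℤ) v)
    rw [e1, e1, hu z, Units.val_mul, mul_assoc]

end Pool.Agent.Lib.MP_e29efe_nt.Sy
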