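import Pool.Agent.Lib.MP_e29efe_nt.Sy.St

namespace Pool.Agent.Lib.MP_e29efe_nt.Sy

open Finset

namespace Decompx

/-- free quotient with a section -/
theorem free {d : ℕ} (L : Submodule ℤ (Fin d → ℤ)) (hS : Sat L) :
    ∃ (r : ℕ) (A : Fin d → Fin r → ℤ) (T : Fin r → Fin d → ℤ),
      (∀ b, b ∈ L ↔ ∀ k, ∑ i, b i * A i k = 0) ∧
      ∀ k l, ∑ i, T k i * A i l = if k = l then 1 else 0 := by
  have htf : Module.IsTorsionFree ℤ ((Fin d → ℤ) ⧸ L) := by
    refine Module.IsTorsionFree.of_smul_eq_zero fun k x hx => ?_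
    obtain ⟨b, rfl⟩ := L.mkQ_surjective x
    by_cases hk : k = 0
    · exact Or.inl hk
    · right
      rw [← map_smul, Submodule.mkQ_apply, Submodule.Quotient.mk_eq_zero] at hx
      rw [Submodule.mkQ_apply, Submodule.Quotient.mk_eq_zero]
      exact hS k b hk hx
  have hfr : Module.Free ℤ ((Fin d → ℤ) ⧸ L) := Module.free_of_finite_type_torsion_free'
  let B := Module.finBasis ℤ ((Fin d → ℤ) ⧸ L)
  choose T hT using fun k => L.mkQ_surjective (B k)
  have key : ∀ (b : Fin d → ℤ) k, ∑ i, b i * B.repr (L.mkQ (Pi.single i 1)) k =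
      B.repr (L.mkQ b) k := by
    intro b k
    have e : b = ∑ j, b j • (Pi.single j 1 : Fin d → ℤ) := by
      funext k
      simp [Finset.sum_apply, Pi.single_apply]
    conv_rhs => rw [e]
    simp only [map_sum, map_smul, Finsupp.finsetSum_apply, Finsupp.smul_apply, smul_eq_mul]
  refine ⟨_, fun i k => B.repr (L.mkQ (Pi.single i 1)) k, T, fun b => ?_, fun k l => ?_⟩
  · simp only [key]
    rw [← Submodule.Quotient.mk_eq_zero, ← Submodule.mkQ_apply, ← B.repr.map_eq_zero_iff]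
    exact Finsupp.ext_iff
  · rw [key, hT, B.repr_self, Finsupp.single_apply]

/-- diagonal dominance -/
theorem dom {r : ℕ} (E : Fin r → Fin r → ℝ) (hE : ∀ k l, E k l = E l k) (ε : ℝ) (x : Fin r → ℝ) :
    ε * ∑ k, x k ^ 2 + ∑ k, ∑ l, E k l * x k * x l =
      ∑ k, (ε - ∑ l, |E k l|) * x k ^ 2 +
      ∑ k, ∑ l, |E k l| / 2 * (x k + (if 0 ≤ E k l then 1 else -1) * x l) ^ 2 := by
  have h1 : ∀ k l, |E k l| / 2 * (x k + (if 0 ≤ E k l then 1 else -1) * x l) ^ 2 =
      E k l * x k * x l + |E k l| * x k ^ 2 / 2 + |E l k| * x l ^ 2 / 2 := by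
    intro k l
    rw [← hE k l]
    split_ifs with h
    · rw [abs_of_nonneg h]; ring
    · rw [abs_of_neg (not_le.1 h)]; ring
  simp only [h1, sum_add_distrib, sub_mul, sum_sub_distrib, Finset.sum_mul, Finset.mul_sum]
  rw [Finset.sum_comm (f := fun k l => |E l k| * x l ^ 2 / 2)]
  simp only [← Finset.sum_div]
  ring

open scoped MatrixOrder in
theorem fac {r : ℕ} (S : Fin r → Fin r → ℝ) (hS : ∀ k l, S k l = S l k)
    (h : ∀ x : Fin r → ℝ, 0 ≤ ∑ k, ∑ l, S k l * x k * x l) :
    ∃ Y : Fin r → Fin r → ℝ, ∀ k l, S k l = ∑ j, Y j k * Y j l := by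
  have hP : (Matrix.of S).PosSemidef := by
    refine .of_dotProduct_mulVec_nonneg (Matrix.IsHermitian.ext fun k l => by simpa using hS l k)
      fun x => (h x).trans_eq ?_
    simp only [dotProduct, Matrix.mulVec, Matrix.of_apply, star_trivial, Finset.mul_sum]
    exact sum_congr rfl fun k _ => sum_congr rfl fun l _ => by ring
  obtain ⟨B, hB⟩ := CStarAlgebra.nonneg_iff_eq_star_mul_self.mp hP.nonneg
  refine ⟨fun j k => B j k, fun k l => ?_⟩
  have := congrFun (congrFun hB k) l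
  simpa [Matrix.mul_apply] using this

theorem approx {r : ℕ} (Y : Fin r → Fin r → ℝ) (η : ℝ) (hη : 0 < η) :
    ∃ (N : ℝ) (Z : Fin r → Fin r → ℤ), 0 < N ∧ ∀ k l,
      |∑ j, Y j k * Y j l - ∑ j, (Z j k / N) * (Z j l / N)| ≤ η := by
  have hc : Continuous fun W : Fin r → Fin r → ℝ => fun k l => ∑ j, W j k * W j l := by
    fun_prop
  obtain ⟨δ, hδ, H⟩ := Metric.continuous_iff.1 hc Y η hη
  refine ⟨1 / δ, fun j k => round (1 / δ * Y j k), by positivity, fun k l => ?_⟩
  have h1 := H (fun j k => (round (1 / δ * Y j k) : ℝ) / (1 / δ)) (by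
    refine (dist_pi_lt_iff hδ).2 fun j => (dist_pi_lt_iff hδ).2 fun k => ?_
    rw [Real.dist_eq]
    have h2 := abs_sub_round (1 / δ * Y j k)
    have e : (round (1 / δ * Y j k) : ℝ) / (1 / δ) - Y j k =
        -(δ * (1 / δ * Y j k - round (1 / δ * Y j k))) := by field_simp; ring
    rw [e, abs_neg, abs_mul, abs_of_pos hδ]
    nlinarith)
  have h3 := (dist_le_pi_dist _ _ l).trans ((dist_le_pi_dist _ _ k).trans h1.le)
  rw [Real.dist_eq, abs_sub_comm] at h3
  exact h3

/-- a positive definite form is a positive combination of squares of integral forms -/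
theorem cone {r : ℕ} {J : Type} [Fintype J] (S : Fin r → Fin r → ℝ) (hS : ∀ k l, S k l = S l k)
    (c : ℝ) (hc : 0 < c) (h : ∀ x : Fin r → ℝ, c * ∑ k, x k ^ 2 ≤ ∑ k, ∑ l, S k l * x k * x l)
    (P : J → Fin r → ℤ) :
    ∃ (m : ℕ) (z : Fin m → Fin r → ℤ) (s : Fin m → ℝ), (∀ v, 0 < s v) ∧ (∀ j, ∃ v, z v = P j) ∧
      ∀ x : Fin r → ℝ, ∑ k, ∑ l, S k l * x k * x l = ∑ v, s v * (∑ k, x k * z v k) ^ 2 := by
  classical
  set C : ℝ := 1 + ∑ j, ∑ k, (P j k : ℝ) ^ 2 with hC
  have hC0 : 0 < C := by positivity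
  set ε : ℝ := c / C with hε
  have hε0 : 0 < ε := by positivity
  have sq : ∀ (y x : Fin r → ℝ), (∑ k, x k * y k) ^ 2 = ∑ k, ∑ l, y k * y l * x k * x l := by
    intro y x
    rw [sq, Finset.sum_mul_sum]
    exact sum_congr rfl fun k _ => sum_congr rfl fun l _ => by ring
  have sq2 : ∀ {κ : Type} [Fintype κ] (y : κ → Fin r → ℝ) (x : Fin r → ℝ),
      ∑ k, ∑ l, (∑ j, y j k * y j l) * x k * x l = ∑ j, (∑ k, x k * y j k) ^ 2 := by
    intro κ _ y x
    simp only [sq, Finset.sum_mul]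
    exact (sum_congr rfl fun k _ => Finset.sum_comm).trans Finset.sum_comm
  have dg : ∀ x : Fin r → ℝ, ∑ k, ∑ l, (if k = l then (1 : ℝ) else 0) * x k * x l =
      ∑ k, x k ^ 2 := fun x => sum_congr rfl fun k _ => by simp [pow_two]
  have ex : ∀ x : Fin r → ℝ, ∑ k, ∑ l, (S k l - ε * (∑ j, (P j k : ℝ) * P j l) -
      ε * (if k = l then 1 else 0)) * x k * x l = ∑ k, ∑ l, S k l * x k * x l -
      ε * ∑ j, (∑ k, x k * P j k) ^ 2 - ε * ∑ k, x k ^ 2 := by
    intro x
    rw [← sq2 (fun j k => (P j k : ℝ)) x, ← dg x]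
    simp only [Finset.mul_sum, ← sum_sub_distrib]
    refine sum_congr rfl fun k _ => sum_congr rfl fun l _ => ?_
    rw [← Finset.mul_sum]
    ring
  obtain ⟨Y, hY⟩ := fac (fun k l => S k l - ε * (∑ j, (P j k : ℝ) * P j l) -
      ε * (if k = l then 1 else 0)) (fun k l => by
        rw [hS k l, if_congr eq_comm rfl rfl]
        simp only [mul_comm (P _ k : ℝ)]) (fun x => by
    rw [ex]
    have h1 : ∑ j, (∑ k, x k * P j k) ^ 2 ≤ (∑ k, x k ^ 2) * ∑ j, ∑ k, (P j k : ℝ) ^ 2 := by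
      rw [Finset.mul_sum]
      exact sum_le_sum fun j _ => Finset.sum_mul_sq_le_sq_mul_sq _ _ _
    have h2 := h x
    have h3 : c = ε * C := by rw [hε]; field_simp
    have h4 := mul_le_mul_of_nonneg_left h1 hε0.le
    rw [h3, hC] at h2
    nlinarith)
  obtain ⟨N, Z, hN, hZ⟩ := approx Y (ε / (r + 1)) (by positivity)
  set E : Fin r → Fin r → ℝ := fun k l =>
    ∑ j, Y j k * Y j l - ∑ j, (Z j k / N) * (Z j l / N) with hE
  let z : J ⊕ Fin r ⊕ Fin r ⊕ Fin r × Fin r → Fin r → ℤ := fun v => match v with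
    | .inl j => P j
    | .inr (.inl j) => Z j
    | .inr (.inr (.inl k)) => Pi.single k 1
    | .inr (.inr (.inr p)) => Pi.single p.1 1 + Pi.single p.2 (if 0 ≤ E p.1 p.2 then 1 else -1)
  let s : J ⊕ Fin r ⊕ Fin r ⊕ Fin r × Fin r → ℝ := fun v => match v with
    | .inl _ => ε
    | .inr (.inl _) => 1 / N ^ 2
    | .inr (.inr (.inl k)) => ε - ∑ l, |E k l|
    | .inr (.inr (.inr p)) => |E p.1 p.2| / 2
  have hs : ∀ v, 0 ≤ s v := by
    rintro (j | j | k | p)
    · exact hε0.le
    · exact (by positivity : 0 ≤ 1 / N ^ 2)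
    · have h1 : ∑ l, |E k l| ≤ ∑ _l : Fin r, ε / (r + 1) := sum_le_sum fun l _ => hZ k l
      simp only [sum_const, card_univ, Fintype.card_fin, nsmul_eq_mul] at h1
      have h2 : (r : ℝ) * (ε / (r + 1)) ≤ ε := by
        rw [← mul_div_assoc, div_le_iff₀ (by positivity)]
        nlinarith
      change 0 ≤ ε - ∑ l, |E k l|
      linarith
    · exact (by positivity : 0 ≤ |E p.1 p.2| / 2)
  have hid : ∀ x : Fin r → ℝ, ∑ k, ∑ l, S k l * x k * x l =
      ∑ v, s v * (∑ k, x k * z v k) ^ 2 := by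
    intro x
    have a1 := ex x
    have a2 := dom E (fun k l => by simp only [hE, mul_comm]) ε x
    have a3 : ∑ k, ∑ l, E k l * x k * x l = ∑ k, ∑ l, (∑ j, Y j k * Y j l) * x k * x l -
        ∑ j, (∑ k, x k * (Z j k / N)) ^ 2 := by
      rw [← sq2 (fun j k => (Z j k : ℝ) / N) x]
      simp only [← sum_sub_distrib, hE]
      exact sum_congr rfl fun k _ => sum_congr rfl fun l _ => by rw [sum_sub_distrib]; ring
    simp only [hY] at a1
    have a4 : ∑ j, (∑ k, x k * (Z j k / N)) ^ 2 = ∑ j, 1 / N ^ 2 * (∑ k, x k * Z j k) ^ 2 :=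
      sum_congr rfl fun j _ => by
        simp only [← mul_div_assoc, ← Finset.sum_div]
        ring
    have a5 : ∀ (k : Fin r) (e : ℤ), ∑ l, x l * ((Pi.single k e : Fin r → ℤ) l : ℝ) = e * x k := by
      intro k e
      simp [Pi.single_apply, apply_ite, mul_comm]
    simp only [Fintype.sum_sum_type, Fintype.sum_prod_type, z, s, Pi.add_apply, Int.cast_add,
      mul_add, sum_add_distrib, a5, Int.cast_one, one_mul, apply_ite (Int.cast (R := ℝ)),
      Int.cast_neg, ← Finset.mul_sum]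
    rw [← Finset.mul_sum] at a4
    linarith
  let e := (Fintype.equivFin {v // 0 < s v}).symm
  refine ⟨_, fun v => z (e v).1, fun v => s (e v).1, fun v => (e v).2,
    fun j => ⟨e.symm ⟨.inl j, hε0⟩, by simp only [e.apply_symm_apply]; rfl⟩, fun x => ?_⟩
  rw [hid, e.sum_comp (fun v => s v.1 * (∑ k, x k * z v.1 k) ^ 2),
    ← Finset.sum_subtype (univ.filter fun v => 0 < s v) (by simp)
      (fun v => s v * (∑ k, x k * z v k) ^ 2), Finset.sum_filter]
  refine sum_congr rfl fun v _ => ?_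
  split_ifs with hv
  · rfl
  · rw [le_antisymm (not_lt.1 hv) (hs v), zero_mul]

end Decompx

theorem decomp_st (hP : PrimSt) (_hF : FlatSt) : DecompSt := by
  intro d L hS hB hE
  classical
  obtain ⟨m0, u, hu, hEl⟩ := hE
  obtain ⟨r, A, T, hA, hT⟩ := Decompx.free L hS
  have kill : ∀ c ∈ spanR L, ∀ k, ∑ i, c i * (A i k : ℝ) = 0 := by
    intro c hc k
    induction hc using Submodule.span_induction with
    | mem x hx =>
      obtain ⟨b, hb, rfl⟩ := hx
      have := (hA b).1 hb k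
      simp only [toR]
      exact_mod_cast this
    | zero => simp
    | add x y _ _ hx hy =>
      simp only [Pi.add_apply, add_mul, sum_add_distrib, hx, hy, add_zero]
    | smul a x _ hx =>
      simp only [Pi.smul_apply, smul_eq_mul, mul_assoc, ← Finset.mul_sum, hx, mul_zero]
  set f : Fin r → EuclideanSpace ℝ (Fin m0) := fun k => ∑ j, (T k j : ℝ) • u j with hf
  have hfy : ∀ y : Fin r → ℝ, ∑ k, y k • f k = ∑ j, (∑ k, y k * T k j) • u j := by
    intro y
    simp only [hf, Finset.smul_sum, smul_smul, Finset.sum_smul]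
    exact Finset.sum_comm
  have hmem : ∀ i, (Pi.single i 1 - fun j => ∑ k, A i k * T k j : Fin d → ℤ) ∈ L := by
    intro i
    rw [hA]
    intro l
    simp only [Pi.sub_apply, sub_mul, sum_sub_distrib, Finset.sum_mul]
    rw [Finset.sum_comm (f := fun j k => A i k * T k j * A j l)]
    simp only [mul_assoc, ← Finset.mul_sum, hT]
    simp [Pi.single_apply]
  have hui : ∀ i, u i = ∑ k, (A i k : ℝ) • f k := by
    intro i
    have h1 := (hEl _).2 (Submodule.subset_span ⟨_, hmem i, rfl⟩)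
    rw [hfy]
    simp only [toR, Pi.sub_apply, Int.cast_sub, sub_smul, sum_sub_distrib, Int.cast_sum,
      Int.cast_mul] at h1
    rw [sub_eq_zero] at h1
    rw [← h1]
    simp [Pi.single_apply]
  have hind : ∀ y : Fin r → ℝ, ∑ k, y k • f k = 0 → y = 0 := by
    intro y hy
    rw [hfy] at hy
    funext l
    have h1 := kill _ ((hEl _).1 hy) l
    simp only [Finset.sum_mul] at h1
    rw [Finset.sum_comm] at h1
    have h2 : ∀ k, ∑ j, y k * (T k j : ℝ) * (A j l : ℝ) = if k = l then y k else 0 := by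
      intro k
      have h3 : ∑ j, (T k j : ℝ) * (A j l : ℝ) = if k = l then 1 else 0 := by
        have := congrArg (Int.cast (R := ℝ)) (hT k l)
        simpa [apply_ite] using this
      simp only [mul_assoc, ← Finset.mul_sum, h3]
      split_ifs <;> simp
    simpa [h2] using h1
  have hq : ∀ x : Fin r → ℝ, ∑ k, ∑ l, inner ℝ (f k) (f l) * x k * x l =
      ‖∑ k, x k • f k‖ ^ 2 := by
    intro x
    rw [← real_inner_self_eq_norm_sq, sum_inner]
    refine sum_congr rfl fun k _ => ?_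
    rw [inner_sum]
    refine sum_congr rfl fun l _ => ?_
    rw [real_inner_smul_left, real_inner_smul_right]
    ring
  obtain ⟨K, -, hK⟩ := (Fintype.linearCombination ℝ f).exists_antilipschitzWith
    (LinearMap.ker_eq_bot'.2 fun y hy => hind y (by rwa [Fintype.linearCombination_apply] at hy))
  choose y hy1 hy0 using hP d L hS hB
  obtain ⟨m, z, s, hs, hz, hid⟩ := Decompx.cone (J := Fin d ⊕ Fin r)
    (fun k l => inner ℝ (f k) (f l)) (fun k l => real_inner_comm _ _) (1 / (r * K ^ 2 + 1))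
    (by positivity) (fun x => by
      rw [hq]
      have h1 : ‖x‖ ≤ K * ‖∑ k, x k • f k‖ := by
        have := ZeroHomClass.bound_of_antilipschitz _ hK x
        rwa [Fintype.linearCombination_apply] at this
      have h2 : ∑ k, x k ^ 2 ≤ ∑ _k : Fin r, (K * ‖∑ k, x k • f k‖) ^ 2 :=
        sum_le_sum fun k _ => by
          rw [← sq_abs]
          exact pow_le_pow_left₀ (abs_nonneg _) ((norm_le_pi_norm x k).trans h1) 2
      simp only [sum_const, card_univ, Fintype.card_fin, nsmul_eq_mul] at h2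
      rw [one_div, inv_mul_le_iff₀ (by positivity)]
      nlinarith [sq_nonneg ‖∑ k, x k • f k‖])
    (Sum.elim (fun i k => ∑ j, T k j * y i j) fun k => Pi.single k 1)
  refine ⟨m, fun i v => ∑ k, A i k * z v k, s, ⟨hs, fun i => ?_, fun i => ?_⟩, fun b => ?_⟩
  · have h1 := hid fun k => (A i k : ℝ)
    rw [hq, ← hui, hu] at h1
    push_cast
    rw [← h1, one_pow]
  · obtain ⟨v, hv⟩ := hz (.inl i)
    refine ⟨v, ?_⟩
    have h1 := hy0 i _ (hmem i)
    simp only [Pi.sub_apply, sub_mul, sum_sub_distrib, Finset.sum_mul] at h1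
    rw [Finset.sum_comm (f := fun j k => A i k * T k j * y i j), sub_eq_zero] at h1
    simp only [hv, Sum.elim_inl, Finset.mul_sum, ← mul_assoc, ← h1]
    simp [Pi.single_apply, hy1]
  · have sw : ∀ v, ∑ i, b i * ∑ k, A i k * z v k = ∑ k, (∑ i, b i * A i k) * z v k := by
      intro v
      simp only [Finset.mul_sum, Finset.sum_mul, mul_assoc]
      exact Finset.sum_comm
    simp only [sw, hA]
    refine ⟨fun h v => by simp [h], fun h k => ?_⟩
    obtain ⟨v, hv⟩ := hz (.inr k)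
    have h1 := h v
    simpa [hv, Pi.single_apply] using h1

end Pool.Agent.Lib.MP_e29efe_nt.Sy
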