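import Pool.Agent.Lib.MP_e29efe_nt.Sy.St

/-! Real spans of lattices: descent to the integers. -/

namespace Pool.Agent.Lib.MP_e29efe_nt.Sy

open Finset

namespace Flatx

theorem phi_int (φ : ℝ →ₗ[ℚ] ℚ) (a : ℤ) (x : ℝ) : φ ((a : ℝ) * x) = (a : ℚ) * φ x := by
  have : (a : ℝ) * x = (a : ℚ) • x := by simp [Rat.smul_def]
  rw [this, map_smul, smul_eq_mul]

theorem key {κ : Type} (Γ : Submodule ℤ (κ → ℤ)) (z : κ → ℝ) (hz : z ∈ spanR Γ) :
    ∀ φ : ℝ →ₗ[ℚ] ℚ, ∃ n : ℤ, n ≠ 0 ∧ ∃ g ∈ Γ, ∀ k, (n : ℚ) * φ (z k) = (g k : ℚ) := by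
  unfold spanR at hz
  induction hz using Submodule.span_induction with
  | mem x hx =>
    obtain ⟨g, hg, rfl⟩ := hx
    intro φ
    refine ⟨((φ 1).den : ℤ), by exact_mod_cast (φ 1).den_ne_zero, (φ 1).num • g,
      Γ.smul_mem _ hg, fun k => ?_⟩
    have h1 : φ (toR g k) = (g k : ℚ) * φ 1 := by
      rw [← phi_int]; simp [toR]
    have h2 : ((φ 1).den : ℚ) * φ 1 = ((φ 1).num : ℚ) := Rat.den_mul_eq_num _
    rw [h1]
    simp only [Pi.smul_apply, smul_eq_mul]
    push_cast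
    rw [← h2]; ring
  | zero => exact fun φ => ⟨1, one_ne_zero, 0, Γ.zero_mem, fun k => by simp⟩
  | add x y _ _ hx hy =>
    intro φ
    obtain ⟨n, hn, g, hg, e⟩ := hx φ
    obtain ⟨m, hm, h, hh, f⟩ := hy φ
    refine ⟨n * m, mul_ne_zero hn hm, m • g + n • h,
      Γ.add_mem (Γ.smul_mem _ hg) (Γ.smul_mem _ hh), fun k => ?_⟩
    simp only [Pi.add_apply, Pi.smul_apply, smul_eq_mul, map_add]
    push_cast
    rw [← e k, ← f k]; ring
  | smul r x _ hx =>
    intro φ
    obtain ⟨n, hn, g, hg, e⟩ := hx (φ ∘ₗ LinearMap.mulLeft ℚ r)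
    exact ⟨n, hn, g, hg, fun k => by simpa using e k⟩

theorem coord_mem {ι κ : Type} [Fintype ι] (Γ : Submodule ℤ (κ → ℤ)) (L : Submodule ℤ (ι → ℤ))
    (T : κ → ι → ℤ) (h : ∀ b : ι → ℤ, (fun k => ∑ i, T k i * b i) ∈ Γ → b ∈ L) (c : ι → ℝ)
    (hc : (fun k => ∑ i, (T k i : ℝ) * c i) ∈ spanR Γ) (φ : ℝ →ₗ[ℚ] ℚ) :
    (fun i => (φ (c i) : ℝ)) ∈ spanR L := by
  obtain ⟨n, hn, g, hg, e⟩ := key Γ _ hc φ
  obtain ⟨m, hm⟩ := IsLocalization.exist_integer_multiples_of_finite (nonZeroDivisors ℤ)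
    (fun i => φ (c i))
  have hm0 : (m : ℤ) ≠ 0 := nonZeroDivisors.coe_ne_zero m
  choose b hb using hm
  have hb' : ∀ i, (b i : ℚ) = ((m : ℤ) : ℚ) * φ (c i) := fun i => by simpa using hb i
  have h1 : (fun i => n * b i) ∈ L := by
    refine h _ ?_
    have : (fun k => ∑ i, T k i * (n * b i)) = (m : ℤ) • g := by
      funext k
      have e1 := e k
      simp only [map_sum, phi_int] at e1
      have : ((∑ i, T k i * (n * b i) : ℤ) : ℚ) = (((m : ℤ) * g k : ℤ) : ℚ) := by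
        push_cast
        rw [← e1, mul_sum, mul_sum]
        refine sum_congr rfl fun i _ => ?_
        rw [hb' i]; ring
      exact_mod_cast this
    rw [this]
    exact Γ.smul_mem _ hg
  have h2 : toR (fun i => n * b i) ∈ spanR L := Submodule.subset_span ⟨_, h1, rfl⟩
  have h3 := (spanR L).smul_mem (((n : ℝ) * ((m : ℤ) : ℝ))⁻¹) h2
  convert h3 using 1
  funext i
  have hn' : (n : ℝ) ≠ 0 := by exact_mod_cast hn
  have hm' : ((m : ℤ) : ℝ) ≠ 0 := by exact_mod_cast hm0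
  have e2 : (b i : ℝ) = ((m : ℤ) : ℝ) * (φ (c i) : ℝ) := by exact_mod_cast hb' i
  simp only [Pi.smul_apply, smul_eq_mul, toR]
  push_cast
  rw [e2]
  field_simp

end Flatx

open Flatx in
theorem flat_st : FlatSt := by
  classical
  refine ⟨fun κ _ Γ b hb => ?_, fun ι κ _ _ Γ L T h c hc => ?_⟩
  · obtain ⟨φ, hφ⟩ := Module.Projective.exists_dual_eq_one ℚ (one_ne_zero (α := ℝ))
    obtain ⟨n, hn, g, hg, e⟩ := key Γ _ hb φ
    refine ⟨n, hn, ?_⟩
    have : n • b = g := by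
      funext k
      have h1 : φ (toR b k) = (b k : ℚ) := by
        have := phi_int φ (b k) 1
        rw [mul_one, hφ, mul_one] at this
        exact this
      have e1 := e k
      rw [h1] at e1
      simp only [Pi.smul_apply, smul_eq_mul]
      exact_mod_cast e1
    rw [this]; exact hg
  · let β := Module.Basis.ofVectorSpace ℚ ℝ
    let J := univ.biUnion fun i => (β.repr (c i)).support
    have : c = ∑ j ∈ J, (β j : ℝ) • (fun i => ((β.coord j (c i) : ℚ) : ℝ)) := by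
      funext i
      have h1 := β.linearCombination_repr (c i)
      rw [Finsupp.linearCombination_apply, Finsupp.sum_of_support_subset _
        (subset_biUnion_of_mem (fun i => (β.repr (c i)).support) (mem_univ i)) _
        (fun j _ => by simp)] at h1
      rw [Finset.sum_apply, ← h1]
      refine sum_congr rfl fun j _ => ?_
      simp only [Pi.smul_apply, smul_eq_mul, Module.Basis.coord_apply, Rat.smul_def]
      ring
    rw [this]
    exact Submodule.sum_mem _ fun j _ => Submodule.smul_mem _ _ (coord_mem Γ L T h c hc _)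

end Pool.Agent.Lib.MP_e29efe_nt.Sy
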