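import Pool.Agent.Lib.MP_e29efe_nt.Sy.St

/-! A polynomial with full symmetric group that splits over the `q`-adic numbers. -/

namespace Pool.Agent.Lib.MP_e29efe_nt.Sy

open Finset Polynomial

namespace Kpx

/-- the quadratic factor -/
noncomputable def Q2 (q K : ℕ) : ℤ[X] :=
  (X - C (2 * (K : ℤ))) * (X - C (2 * (K : ℤ) + 2)) + C (4 * (q : ℤ))

/-- the integer polynomial -/
noncomputable def FZ (q K : ℕ) : ℤ[X] :=
  Q2 q K * ∏ j ∈ range K, (X - C (2 * (j : ℤ))) - C (2 * (q : ℤ))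

/-- the rational polynomial -/
noncomputable def FQ (q K : ℕ) : ℚ[X] := (FZ q K).map (algebraMap ℤ ℚ)

variable (q : ℕ)

theorem Q2_deg (K : ℕ) : (Q2 q K).natDegree = 2 := by
  rw [Q2, natDegree_add_C, (monic_X_sub_C _).natDegree_mul (monic_X_sub_C _), natDegree_X_sub_C,
    natDegree_X_sub_C]

theorem Q2_monic (K : ℕ) : (Q2 q K).Monic := by
  refine ((monic_X_sub_C _).mul (monic_X_sub_C _)).add_of_left ?_
  refine lt_of_le_of_lt degree_C_le ?_
  rw [degree_mul, degree_X_sub_C, degree_X_sub_C]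
  norm_num

theorem g_monic (K : ℕ) : (Q2 q K * ∏ j ∈ range K, (X - C (2 * (j : ℤ))) : ℤ[X]).Monic :=
  (Q2_monic q K).mul (monic_prod_of_monic _ _ fun _ _ => monic_X_sub_C _)

theorem g_deg (K : ℕ) :
    (Q2 q K * ∏ j ∈ range K, (X - C (2 * (j : ℤ))) : ℤ[X]).natDegree = K + 2 := by
  rw [(Q2_monic q K).natDegree_mul (monic_prod_of_monic _ _ fun _ _ => monic_X_sub_C _), Q2_deg,
    natDegree_prod_of_monic _ _ (fun _ _ => monic_X_sub_C _)]
  simp only [natDegree_X_sub_C, sum_const, card_range, smul_eq_mul, mul_one]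
  ring

theorem FZ_deg (K : ℕ) : (FZ q K).natDegree = K + 2 := by
  rw [FZ, natDegree_sub_C, g_deg]

theorem FZ_monic (K : ℕ) : (FZ q K).Monic := by
  apply (g_monic q K).sub_of_left
  refine lt_of_le_of_lt degree_C_le ?_
  rw [degree_eq_natDegree (g_monic q K).ne_zero, g_deg]
  exact_mod_cast Nat.succ_pos _

theorem FZ_aeval {A : Type} [CommRing A] (K : ℕ) (z : A) :
    aeval z (FZ q K) = ((z - 2 * K) * (z - (2 * K + 2)) + 4 * q) *
      ∏ j ∈ range K, (z - 2 * (j : A)) - 2 * q := by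
  simp [FZ, Q2, map_prod, map_ofNat]

theorem FZ_irr (hq : Odd q) (K : ℕ) (hK : 0 < K) : Irreducible (FZ q K) := by
  have hp : (Ideal.span {(2 : ℤ)}).IsPrime :=
    (Ideal.span_singleton_prime (by norm_num)).mpr Int.prime_two
  have hm : (FZ q K).map (Int.castRingHom (ZMod 2)) = X ^ (K + 2) := by
    have h2 : (2 : ZMod 2) = 0 := rfl
    have h4 : (4 : ZMod 2) = 0 := rfl
    have e : ∀ j : ℕ, (Int.castRingHom (ZMod 2)) (2 * (j : ℤ)) = 0 := by
      intro j; simp [h2]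
    have e2 : (Int.castRingHom (ZMod 2)) (2 * (K : ℤ) + 2) = 0 := by simp [h2]
    have e4 : (Int.castRingHom (ZMod 2)) (4 * (q : ℤ)) = 0 := by simp [h4]
    simp only [FZ, Q2, Polynomial.map_sub, Polynomial.map_mul, Polynomial.map_add,
      Polynomial.map_prod, map_X, map_C, e, e2, e4, C_0, sub_zero, add_zero, prod_const,
      card_range]
    ring
  refine irreducible_of_eisenstein_criterion hp ?_ ?_ ?_ ?_ (FZ_monic q K).isPrimitive
  · rw [(FZ_monic q K).leadingCoeff, Ideal.mem_span_singleton]; norm_num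
  · intro n hn
    rw [degree_eq_natDegree (FZ_monic q K).ne_zero, FZ_deg] at hn
    have hn' : n < K + 2 := by exact_mod_cast hn
    have := congrArg (fun p => coeff p n) hm
    simp only [coeff_map, coeff_X_pow, if_neg hn'.ne, eq_intCast] at this
    rw [Ideal.mem_span_singleton]
    exact_mod_cast (ZMod.intCast_zmod_eq_zero_iff_dvd _ 2).mp this
  · rw [degree_eq_natDegree (FZ_monic q K).ne_zero, FZ_deg]
    exact_mod_cast Nat.succ_pos _
  · have h0 : (FZ q K).coeff 0 = -(2 * q) := by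
      rw [coeff_zero_eq_eval_zero, ← coe_aeval_eq_eval, FZ_aeval,
        prod_eq_zero (mem_range.mpr hK) (by simp)]
      simp
    rw [h0, Ideal.span_singleton_pow, Ideal.mem_span_singleton]
    obtain ⟨r, hr⟩ := hq
    omega

theorem FQ_irr (hq : Odd q) (K : ℕ) (hK : 0 < K) : Irreducible (FQ q K) :=
  ((FZ_monic q K).irreducible_iff_irreducible_map_fraction_map).mp (FZ_irr q hq K hK)

theorem FQ_monic (K : ℕ) : (FQ q K).Monic := (FZ_monic q K).map _

theorem FQ_deg (K : ℕ) : (FQ q K).natDegree = K + 2 := by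
  rw [FQ, (FZ_monic q K).natDegree_map, FZ_deg]

theorem FQ_aeval {A : Type} [Field A] [Algebra ℚ A] (K : ℕ) (z : A) :
    aeval z (FQ q K) = ((z - 2 * K) * (z - (2 * K + 2)) + 4 * q) *
      ∏ j ∈ range K, (z - 2 * (j : A)) - 2 * q := by
  rw [FQ, aeval_map_algebraMap, FZ_aeval]

theorem real_root (hq : Odd q) (K t : ℕ) (ht : t < K) :
    ∃ r : ℝ, 2 * (t : ℝ) - 1 < r ∧ r < 2 * t + 1 ∧ aeval r (FQ q K) = 0 := by
  let h : ℝ → ℝ := fun z => ∏ j ∈ range K, (z - 2 * (j : ℝ))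
  have hodd : ∀ a : ℤ, 1 ≤ |h (2 * (a : ℝ) + 1)| := by
    intro a
    simp only [h]
    rw [abs_prod]
    calc (1 : ℝ) = ∏ _j ∈ range K, (1 : ℝ) := by simp
      _ ≤ _ := by
        refine prod_le_prod (fun _ _ => zero_le_one) (fun j _ => ?_)
        have : (1 : ℤ) ≤ |2 * a + 1 - 2 * (j : ℤ)| := Int.one_le_abs (by omega)
        exact_mod_cast this
  have hneg : h (2 * t - 1) * h (2 * t + 1) < 0 := by
    simp only [h]
    rw [← prod_mul_distrib, ← mul_prod_erase _ _ (mem_range.mpr ht)]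
    apply mul_neg_of_neg_of_pos
    · nlinarith
    · refine prod_pos (fun j hj => ?_)
      have hj' : j ≠ t := (mem_erase.mp hj).1
      have : (0 : ℤ) < (2 * t - 1 - 2 * j) * (2 * t + 1 - 2 * j) := by
        rcases lt_or_gt_of_ne hj' with h1 | h1
        · exact mul_pos (by omega) (by omega)
        · exact mul_pos_of_neg_of_neg (by omega) (by omega)
      exact_mod_cast this
  have h1 := hodd ((t : ℤ) - 1)
  have h2 := hodd (t : ℤ)
  have e1 : (2 * (((t : ℤ) - 1 : ℤ) : ℝ) + 1) = 2 * t - 1 := by push_cast; ring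
  have e2 : (2 * (((t : ℤ) : ℤ) : ℝ) + 1) = 2 * t + 1 := by push_cast; ring
  rw [e1] at h1
  rw [e2] at h2
  have hq1 : (1 : ℝ) ≤ q := by exact_mod_cast hq.pos
  have hQ : ∀ z : ℝ, 3 * (q : ℝ) ≤ (z - 2 * K) * (z - (2 * K + 2)) + 4 * q := by
    intro z; nlinarith [sq_nonneg (z - 2 * K - 1)]
  let f : ℝ → ℝ := fun z => ((z - 2 * K) * (z - (2 * K + 2)) + 4 * q) * h z - 2 * q
  have hf : Continuous f := by
    simp only [f, h]
    fun_prop
  have hpos : ∀ z, 1 ≤ h z → 0 < f z := by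
    intro z hz; simp only [f]; nlinarith [hQ z]
  have hng : ∀ z, h z ≤ -1 → f z < 0 := by
    intro z hz; simp only [f]; nlinarith [hQ z]
  have hle : (2 * (t : ℝ) - 1) ≤ 2 * t + 1 := by linarith
  have : ∃ r ∈ Set.Ioo (2 * (t : ℝ) - 1) (2 * t + 1), f r = 0 := by
    rcases le_abs.mp h1 with h1 | h1 <;> rcases le_abs.mp h2 with h2 | h2
    · nlinarith
    · exact intermediate_value_Ioo' hle hf.continuousOn
        ⟨hng _ (by linarith), hpos _ h1⟩
    · exact intermediate_value_Ioo hle hf.continuousOn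
        ⟨hng _ (by linarith), hpos _ h2⟩
    · nlinarith
  obtain ⟨r, hr, hr0⟩ := this
  exact ⟨r, hr.1, hr.2, by rw [FQ_aeval]; exact hr0⟩

theorem root_coe (K : ℕ) (r : ℝ) (h : aeval r (FQ q K) = 0) : aeval (r : ℂ) (FQ q K) = 0 := by
  rw [FQ_aeval] at h ⊢
  exact_mod_cast h

theorem prod_roots (hq : Odd q) (K : ℕ) (hK : 0 < K) (z : ℂ) :
    aeval z (FQ q K) = ∏ r : (FQ q K).rootSet ℂ, (z - (r : ℂ)) := by
  classical
  rw [(IsAlgClosed.splits _).aeval_eq_prod_aroots_of_monic (FQ_monic q K)]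
  have hnd : ((FQ q K).aroots ℂ).Nodup := nodup_roots (FQ_irr q hq K hK).separable.map
  have e : ∏ r : (FQ q K).rootSet ℂ, (z - (r : ℂ)) = ∏ r ∈ ((FQ q K).aroots ℂ).toFinset, (z - r) := by
    refine (prod_subtype _ (fun x => ?_) (fun r => z - r)).symm
    rw [rootSet_def, mem_coe]
  rw [e, prod_eq_multiset_prod, Multiset.toFinset_val, hnd.dedup]

theorem card_C (hq : Odd q) (K : ℕ) (hK : 0 < K) : Fintype.card ((FQ q K).rootSet ℂ) = K + 2 := by
  rw [card_rootSet_eq_natDegree (FQ_irr q hq K hK).separable (IsAlgClosed.splits _), FQ_deg]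

theorem card_R_ge (hq : Odd q) (K : ℕ) : K ≤ Fintype.card ((FQ q K).rootSet ℝ) := by
  choose r h1 h2 h3 using fun t : Fin K => real_root q hq K t t.2
  have := Fintype.card_le_of_injective
    (fun t : Fin K => (⟨r t, mem_rootSet.mpr ⟨(FQ_monic q K).ne_zero, h3 t⟩⟩ : (FQ q K).rootSet ℝ))
    (fun s t hst => by
      have e : r s = r t := congrArg Subtype.val hst
      have a1 : ((s : ℕ) : ℝ) < (t : ℕ) + 1 := by linarith [h1 s, h2 t]
      have a2 : ((t : ℕ) : ℝ) < (s : ℕ) + 1 := by linarith [h1 t, h2 s]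
      have b1 : (s : ℕ) < t + 1 := by exact_mod_cast a1
      have b2 : (t : ℕ) < s + 1 := by exact_mod_cast a2
      exact Fin.ext (by omega))
  simpa using this

theorem card_R_lt (hq : Odd q) (K : ℕ) (hK : 0 < K) :
    Fintype.card ((FQ q K).rootSet ℝ) + 1 ≤ Fintype.card ((FQ q K).rootSet ℂ) := by
  let ι : (FQ q K).rootSet ℝ → (FQ q K).rootSet ℂ := fun r =>
    ⟨((r : ℝ) : ℂ), mem_rootSet.mpr ⟨(FQ_monic q K).ne_zero, root_coe q K r (mem_rootSet.mp r.2).2⟩⟩
  have hi : Function.Injective ι := fun a b hab => by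
    have : ((a : ℝ) : ℂ) = ((b : ℝ) : ℂ) := congrArg Subtype.val hab
    exact Subtype.ext (by exact_mod_cast this)
  apply Fintype.card_lt_of_injective_not_surjective ι hi
  intro hs
  have hq1 : (1 : ℝ) ≤ q := by exact_mod_cast hq.pos
  obtain ⟨y, hy⟩ : ∃ y : ℝ, y = Real.sqrt (4 * q - 1) := ⟨_, rfl⟩
  have y2 : y ^ 2 = 4 * q - 1 := by rw [hy]; exact Real.sq_sqrt (by linarith)
  have y0 : 0 ≤ y := by rw [hy]; exact Real.sqrt_nonneg _
  have y1 : 1 ≤ y := by nlinarith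
  have y3 : (y : ℂ) ^ 2 = 4 * q - 1 := by exact_mod_cast y2
  have h1 := prod_roots q hq K hK (2 * K + 1 + y * Complex.I)
  rw [FQ_aeval] at h1
  have e : ((2 * K + 1 + y * Complex.I : ℂ) - 2 * K) * (2 * K + 1 + y * Complex.I - (2 * K + 2)) +
      4 * q = 0 := by
    linear_combination (y : ℂ) ^ 2 * Complex.I_sq - y3
  rw [e, zero_mul, zero_sub] at h1
  have h2 := congrArg norm h1
  rw [norm_prod] at h2
  have h3 : ∏ _r : (FQ q K).rootSet ℂ, y ≤
      ∏ r : (FQ q K).rootSet ℂ, ‖2 * K + 1 + y * Complex.I - (r : ℂ)‖ := by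
    refine prod_le_prod (fun _ _ => y0) (fun r _ => ?_)
    obtain ⟨a, rfl⟩ := hs r
    have := Complex.abs_im_le_norm (2 * K + 1 + y * Complex.I - ((a : ℝ) : ℂ))
    simpa [ι, abs_of_nonneg y0] using this
  rw [← h2, prod_const, card_univ, card_C q hq K hK] at h3
  have h4 : (1 : ℝ) ≤ y ^ K := one_le_pow₀ y1
  simp only [norm_neg, norm_mul, Complex.norm_ofNat, Complex.norm_natCast, pow_add, y2] at h3
  nlinarith

end Kpx

end Pool.Agent.Lib.MP_e29efe_nt.Sy
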