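import Pool.Agent.Lib.MP_e29efe_nt.Sy.Kp

/-! The `q`-adic roots, Eisenstein's criterion for `X ^ M - a`, conjugacy of `M`-th roots. -/

namespace Pool.Agent.Lib.MP_e29efe_nt.Sy

open Finset Polynomial

namespace Kpx

theorem FZ_eq (q K : ℕ) : FZ q K = ∏ i ∈ range (K + 2), (X - C (2 * (i : ℤ))) +
    C (q : ℤ) * (4 * ∏ j ∈ range K, (X - C (2 * (j : ℤ))) - 2) := by
  rw [prod_range_succ, prod_range_succ, FZ, Q2]
  simp only [Nat.cast_add, Nat.cast_one, map_mul, map_add, map_one, map_ofNat]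
  ring

variable (q : ℕ) [hq : Fact q.Prime]

theorem ndvd (x : ℤ) (h0 : x ≠ 0) (h1 : |x| < q) : ¬ (q : ℤ_[q]) ∣ (x : ℤ_[q]) := fun h =>
  h0 (Int.eq_zero_of_abs_lt_dvd
    ((PadicInt.norm_int_lt_one_iff_dvd x).1 ((PadicInt.norm_lt_one_iff_dvd _).2 h)) h1)

theorem padic_root (K : ℕ) (hK : 2 * (K + 2) < q) (j : ℕ) (hj : j < K + 2) :
    ∃ r : ℤ_[q], aeval r (FZ q K) = 0 ∧ (q : ℤ_[q]) ∣ r - ((2 * (j : ℤ) : ℤ) : ℤ_[q]) := by
  have ev : ∀ (a : ℤ) (P : ℤ[X]), aeval ((a : ℤ) : ℤ_[q]) P = ((P.eval a : ℤ) : ℤ_[q]) :=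
    fun a P => aeval_algebraMap_apply_eq_algebraMap_eval a P
  have h1 : ‖aeval ((2 * (j : ℤ) : ℤ) : ℤ_[q]) (FZ q K)‖ < 1 := by
    rw [ev, PadicInt.norm_int_lt_one_iff_dvd, FZ_eq, eval_add, eval_prod,
      prod_eq_zero (mem_range.2 hj) (by simp), zero_add, eval_mul, eval_C]
    exact dvd_mul_right _ _
  have h2 : ‖aeval ((2 * (j : ℤ) : ℤ) : ℤ_[q]) (derivative (FZ q K))‖ = 1 := by
    rw [ev, PadicInt.norm_intCast_eq_one_iff, FZ_eq, derivative_add, derivative_C_mul, eval_add,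
      eval_mul, eval_C, ← mul_prod_erase _ _ (mem_range.2 hj), derivative_mul, eval_add, eval_mul,
      eval_mul, derivative_X_sub_C, eval_one, one_mul, eval_sub, eval_X, eval_C, sub_self, zero_mul,
      add_zero, eval_prod]
    refine IsCoprime.add_mul_left_left (IsCoprime.prod_left fun i hi => ?_) _
    have hi1 := (mem_erase.1 hi).1
    have hi2 := mem_range.1 (mem_erase.1 hi).2
    refine ((Nat.prime_iff_prime_int.1 hq.out).irreducible.coprime_iff_not_dvd.2 fun h => ?_).symm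
    simp only [eval_sub, eval_X, eval_C] at h
    have := Int.eq_zero_of_abs_lt_dvd h (by rw [abs_lt]; constructor <;> omega)
    omega
  obtain ⟨r, hr, hr2, -⟩ := hensels_lemma (F := FZ q K) (a := ((2 * (j : ℤ) : ℤ) : ℤ_[q]))
    (by rw [h2]; simpa using h1)
  rw [h2] at hr2
  exact ⟨r, hr, (PadicInt.norm_lt_one_iff_dvd _).1 hr2⟩

theorem padic_roots (K : ℕ) (hK0 : 0 < K) (hK : 2 * (K + 2) < q) :
    ∃ r : Fin (K + 2) → ℚ_[q], (FQ q K).map (algebraMap ℚ ℚ_[q]) = ∏ j, (X - C (r j)) ∧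
      ‖r 0‖ = (q : ℝ)⁻¹ ∧ ∀ j, j ≠ 0 → ‖r j‖ = 1 := by
  choose r hr hd using fun j : Fin (K + 2) => padic_root q K hK j j.2
  have hinj : Function.Injective fun j => (r j : ℚ_[q]) := by
    intro i j hij
    have e : r i = r j := Subtype.ext hij
    by_contra hne
    have hne' : (i : ℕ) ≠ j := fun h => hne (Fin.ext h)
    have h1 := dvd_sub (hd j) (hd i)
    rw [e, sub_sub_sub_cancel_left, ← Int.cast_sub] at h1
    have := i.2
    have := j.2
    exact ndvd q _ (by omega) (by rw [abs_lt]; constructor <;> omega) h1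
  have hroot : ∀ j, aeval (r j : ℚ_[q]) (FQ q K) = 0 := by
    intro j
    rw [FQ, aeval_map_algebraMap]
    have := aeval_algHom_apply (PadicInt.Coe.ringHom (p := q)).toIntAlgHom (r j) (FZ q K)
    rw [hr, map_zero] at this
    exact this
  have hfac : (FQ q K).map (algebraMap ℚ ℚ_[q]) = ∏ j, (X - C (r j : ℚ_[q])) := by
    refine eq_of_monic_of_dvd_of_natDegree_le (monic_prod_of_monic _ _ fun _ _ => monic_X_sub_C _)
      ((FQ_monic q K).map _) (Fintype.prod_dvd_of_coprime (pairwise_coprime_X_sub_C hinj)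
        fun j => dvd_iff_isRoot.2 ?_) ?_
    · rw [IsRoot, eval_map_algebraMap]; exact hroot j
    · rw [(FQ_monic q K).natDegree_map, FQ_deg,
        natDegree_prod_of_monic _ _ (fun _ _ => monic_X_sub_C _)]
      simp
  have hn : ∀ j, j ≠ 0 → ‖(r j : ℚ_[q])‖ = 1 := by
    intro j hj
    have hj' : (j : ℕ) ≠ 0 := fun h => hj (Fin.ext h)
    refine le_antisymm (r j).2 (not_lt.1 fun h => ?_)
    have h1 := dvd_sub ((PadicInt.norm_lt_one_iff_dvd (r j)).1 h) (hd j)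
    rw [sub_sub_cancel] at h1
    have := j.2
    exact ndvd q _ (by omega) (by rw [abs_lt]; constructor <;> omega) h1
  refine ⟨fun j => (r j : ℚ_[q]), hfac, ?_, hn⟩
  have h1 := congrArg (fun P => ‖eval (0 : ℚ_[q]) P‖) hfac
  simp only [eval_map_algebraMap, FQ_aeval, eval_prod, eval_sub, eval_X, eval_C, norm_prod, zero_sub,
    norm_neg] at h1
  rw [prod_eq_zero (mem_range.2 hK0) (by simp), mul_zero, zero_sub, norm_neg, norm_mul, Padic.norm_p,
    ← mul_prod_erase _ _ (mem_univ (0 : Fin (K + 2))),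
    prod_eq_one (fun j hj => hn j (mem_erase.1 hj).1), mul_one] at h1
  have h2 : ‖((2 : ℕ) : ℚ_[q])‖ = 1 := Padic.norm_natCast_eq_one_iff.2
    ((Nat.coprime_primes hq.out Nat.prime_two).2 (by omega))
  rw [Nat.cast_ofNat] at h2
  rw [← h1, h2, one_mul]

theorem eis {F : Type} [Field F] (ρ : F →+* ℚ_[q]) (a : F) (ha : ‖ρ a‖ = (q : ℝ)⁻¹) (M : ℕ)
    (hM : 0 < M) : Irreducible (X ^ M - C a) := by
  have q1 : (1 : ℝ) < q := by exact_mod_cast hq.out.one_lt
  have qi : (q : ℝ)⁻¹ < 1 := inv_lt_one_of_one_lt₀ q1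
  let a' : ℤ_[q] := ⟨ρ a, ha.trans_le qi.le⟩
  have hn : ‖a'‖ = (q : ℝ)⁻¹ := ha
  have hm : (X ^ M - C a' : ℤ_[q][X]).Monic := monic_X_pow_sub_C _ hM.ne'
  have h1 : Irreducible (X ^ M - C a' : ℤ_[q][X]) := by
    refine irreducible_of_eisenstein_criterion
      ((Ideal.span_singleton_prime PadicInt.prime_p.ne_zero).2 PadicInt.prime_p) ?_ ?_ ?_ ?_
      hm.isPrimitive
    · rw [hm.leadingCoeff, Ideal.mem_span_singleton]; exact PadicInt.prime_p.not_dvd_one
    · intro n hn'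
      rw [degree_X_pow_sub_C hM] at hn'
      have hn'' : n < M := by exact_mod_cast hn'
      rw [coeff_sub, coeff_X_pow, if_neg hn''.ne, coeff_C, Ideal.mem_span_singleton, zero_sub,
        dvd_neg]
      split_ifs
      · exact (PadicInt.norm_lt_one_iff_dvd _).1 (hn.trans_lt qi)
      · exact dvd_zero _
    · rw [degree_X_pow_sub_C hM]; exact_mod_cast hM
    · rw [coeff_sub, coeff_X_pow, if_neg hM.ne, coeff_C_zero, zero_sub, neg_mem_iff,
        Ideal.span_singleton_pow, ← PadicInt.norm_le_pow_iff_mem_span_pow, hn, not_le,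
        ← zpow_neg_one]
      exact zpow_lt_zpow_right₀ q1 (by norm_num)
  have h2 := (hm.irreducible_iff_irreducible_map_fraction_map (K := ℚ_[q])).1 h1
  refine (monic_X_pow_sub_C a hM.ne').irreducible_of_irreducible_map ρ _ ?_
  simpa [Polynomial.map_sub, Polynomial.map_pow, a'] using h2

omit hq in
theorem kum {F : Type} [Field F] [Algebra ℚ F] [Algebra F ℂ] [IsScalarTower ℚ F ℂ] (a : F)
    (M : ℕ) (hM : 0 < M) (hirr : Irreducible (X ^ M - C a)) (g : F ≃ₐ[ℚ] F) (γ γ' : ℂ)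
    (h : γ ^ M = algebraMap F ℂ a) (h' : γ' ^ M = algebraMap F ℂ (g a)) :
    aeval γ' (minpoly ℚ γ) = 0 := by
  have h1 : X ^ M - C a = minpoly F γ :=
    minpoly.eq_of_irreducible_of_monic hirr (by simp [h]) (monic_X_pow_sub_C a hM.ne')
  have h2 : X ^ M - C a ∣ (minpoly ℚ γ).map (algebraMap ℚ F) := by
    rw [h1]
    exact minpoly.dvd F γ (by rw [aeval_map_algebraMap, minpoly.aeval])
  have h3 := Polynomial.map_dvd (g : F →+* F) h2
  rw [Polynomial.map_map, RingHom.ext_rat ((g : F →+* F).comp (algebraMap ℚ F)) (algebraMap ℚ F)]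
    at h3
  obtain ⟨c, hc⟩ := h3
  rw [← aeval_map_algebraMap F, hc, map_mul]
  simp [h']

end Kpx

open Kpx in
theorem symK (n M : ℕ) (hM : 0 < M) : ∃ (N : ℕ) (η : Fin N → ℂ), n ≤ N ∧ (∀ k, η k ≠ 0) ∧
    (∀ c : Fin N → ℤ, (∏ k, η k ^ c k) ^ M = 1 → c = 0) ∧
    ∀ (c : Fin N → ℤ) (k0 : Fin N), c k0 = 1 → ∀ ω : ℂ, ω ^ M = 1 →
      IsAlgebraic ℚ (ω * ∏ k, η k ^ c k) ∧ ∀ (σ : Equiv.Perm (Fin N)) (ω' : ℂ), ω' ^ M = 1 →
        aeval (ω' * ∏ k, η (σ k) ^ c k) (minpoly ℚ (ω * ∏ k, η k ^ c k)) = 0 := by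
  classical
  obtain ⟨p, hp1, hp⟩ := Nat.exists_infinite_primes (n + 4)
  obtain ⟨K, rfl⟩ : ∃ K, p = K + 2 := ⟨p - 2, by omega⟩
  have hK : 0 < K := by omega
  obtain ⟨q, hq1, hqp⟩ := Nat.exists_infinite_primes (2 * (K + 2) + 1)
  have : Fact q.Prime := ⟨hqp⟩
  have hq : Odd q := hqp.odd_of_ne_two (by omega)
  have : Fact (((FQ q K).map (algebraMap ℚ ℂ)).Splits) := Gal.splits_ℚ_ℂ
  have hb : Function.Bijective (Gal.galActionHom (FQ q K) ℂ) :=
    Gal.galActionHom_bijective_of_prime_degree' (FQ_irr q hq K hK) (by rw [FQ_deg]; exact hp)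
      (card_R_lt q hq K hK) (by rw [card_C q hq K hK]; have := card_R_ge q hq K; omega)
  let e : Fin (K + 2) ≃ (FQ q K).rootSet ℂ := (Fintype.equivFinOfCardEq (card_C q hq K hK)).symm
  let θ : Fin (K + 2) → ℂ := fun k => (e k : ℂ)
  let β : Fin (K + 2) → (FQ q K).SplittingField := fun k =>
    ((Gal.rootsEquivRoots (FQ q K) ℂ).symm (e k) : (FQ q K).SplittingField)
  have hβ : ∀ k, algebraMap _ ℂ (β k) = θ k := by
    intro k
    have := (Gal.rootsEquivRoots (FQ q K) ℂ).apply_symm_apply (e k)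
    exact congrArg Subtype.val this
  have hβi : Function.Injective β := fun a b h =>
    e.injective ((Gal.rootsEquivRoots (FQ q K) ℂ).symm.injective (Subtype.ext h))
  have hβr : ∀ k, aeval (β k) (FQ q K) = 0 := fun k =>
    (mem_rootSet.1 ((Gal.rootsEquivRoots (FQ q K) ℂ).symm (e k)).2).2
  have hg : ∀ σ : Equiv.Perm (Fin (K + 2)),
      ∃ g : (FQ q K).SplittingField ≃ₐ[ℚ] (FQ q K).SplittingField, ∀ k, g (β k) = β (σ k) := by
    intro σ
    obtain ⟨g, hg⟩ := hb.2 (e.permCongr σ)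
    refine ⟨g, fun k => ?_⟩
    have h1 : g • (e k) = e (σ k) := by
      have := congrArg (fun τ : Equiv.Perm ((FQ q K).rootSet ℂ) => τ (e k)) hg
      simpa [Gal.galActionHom] using this
    rw [Gal.smul_def, ← Equiv.eq_symm_apply] at h1
    exact congrArg Subtype.val h1
  obtain ⟨r, hfac, hr0, hr1⟩ := padic_roots q K hK (by omega)
  let κ : (FQ q K).SplittingField →ₐ[ℚ] ℚ_[q] :=
    SplittingField.lift (FQ q K) (by rw [hfac]; exact Splits.prod fun _ _ => Splits.X_sub_C _)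
  have hj : ∀ k, ∃ j, κ (β k) = r j := by
    intro k
    have h1 : eval (κ (β k)) ((FQ q K).map (algebraMap ℚ ℚ_[q])) = 0 := by
      rw [eval_map_algebraMap, aeval_algHom_apply, hβr, map_zero]
    rw [hfac, eval_prod, prod_eq_zero_iff] at h1
    obtain ⟨j, -, h2⟩ := h1
    exact ⟨j, by simpa [sub_eq_zero] using h2⟩
  choose J hJ using hj
  have hJi : Function.Injective J := fun a b h => hβi (κ.toRingHom.injective (by
    show κ (β a) = κ (β b)
    rw [hJ, hJ, h]))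
  obtain ⟨k1, hk1⟩ := Finite.surjective_of_injective hJi 0
  have q0 : (0 : ℝ) < (q : ℝ)⁻¹ := inv_pos.2 (by exact_mod_cast hqp.pos)
  have q1 : (q : ℝ)⁻¹ < 1 := inv_lt_one_of_one_lt₀ (by exact_mod_cast hqp.one_lt)
  have hρ : ∀ k0, ∃ ρ : (FQ q K).SplittingField →+* ℚ_[q], ∀ c : Fin (K + 2) → ℤ,
      ‖ρ (∏ k, β k ^ c k)‖ = (q : ℝ)⁻¹ ^ c k0 := by
    intro k0
    obtain ⟨g, hg⟩ := hg (Equiv.swap k0 k1)
    refine ⟨κ.toRingHom.comp (g : _ →+* _), fun c => ?_⟩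
    have h1 : ∀ k, (κ.toRingHom.comp (g : _ →+* _)) (β k) = r (J (Equiv.swap k0 k1 k)) := fun k => by
      rw [← hJ, ← hg]; rfl
    simp only [map_prod, map_zpow₀, h1, norm_prod, norm_zpow]
    rw [← mul_prod_erase _ _ (mem_univ k0), Equiv.swap_apply_left, hk1, hr0, prod_eq_one, mul_one]
    intro k hk
    rw [hr1 _ fun h => (mem_erase.1 hk).1 ((Equiv.swap k0 k1).injective
      ((hJi (h.trans hk1.symm)).trans (Equiv.swap_apply_left _ _).symm)), one_zpow]
  have hβ0 : ∀ k, β k ≠ 0 := by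
    intro k hk
    have h1 := hJ k
    rw [hk, map_zero] at h1
    by_cases h : J k = 0
    · rw [h] at h1; rw [← h1, norm_zero] at hr0; exact q0.ne hr0
    · have := hr1 _ h; rw [← h1, norm_zero] at this; exact zero_ne_one this
  choose η hη using fun k => IsAlgClosed.exists_pow_nat_eq (θ k) hM
  have hpow : ∀ (c : Fin (K + 2) → ℤ) (σ : Equiv.Perm (Fin (K + 2))) (ω : ℂ), ω ^ M = 1 →
      (ω * ∏ k, η (σ k) ^ c k) ^ M = algebraMap _ ℂ (∏ k, β (σ k) ^ c k) := by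
    intro c σ ω hω
    rw [mul_pow, hω, one_mul, ← prod_pow]
    simp only [map_prod, map_zpow₀, hβ]
    refine prod_congr rfl fun k _ => ?_
    rw [← hη, ← zpow_natCast, ← zpow_natCast, ← zpow_mul, ← zpow_mul, mul_comm]
  refine ⟨K + 2, η, by omega, fun k hk => ?_, fun c hc => ?_, fun c k0 hc ω hω => ⟨?_, ?_⟩⟩
  · have h1 := hη k
    rw [hk, zero_pow hM.ne', ← hβ] at h1
    exact hβ0 k ((map_eq_zero _).1 h1.symm)
  · have h1 := hpow c 1 1 (one_pow _)
    simp only [Equiv.Perm.one_apply, one_mul] at h1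
    rw [hc, eq_comm,
      map_eq_one_iff _ (algebraMap (FQ q K).SplittingField ℂ).injective] at h1
    funext k
    obtain ⟨ρ, hρ⟩ := hρ k
    have h2 := hρ c
    rw [h1, map_one, norm_one] at h2
    exact (zpow_eq_one_iff_right₀ q0.le q1.ne).1 h2.symm
  · have h1 := hpow c 1 ω hω
    simp only [Equiv.Perm.one_apply] at h1
    refine IsAlgebraic.of_pow hM ?_
    rw [h1]
    exact (Algebra.IsAlgebraic.isAlgebraic (R := ℚ) _).algebraMap
  · intro σ ω' hω'
    obtain ⟨g, hg⟩ := hg σ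
    obtain ⟨ρ, hρ⟩ := hρ k0
    have h1 := hpow c 1 ω hω
    simp only [Equiv.Perm.one_apply] at h1
    refine kum (∏ k, β k ^ c k) M hM (eis q ρ _ (by rw [hρ, hc, zpow_one]) M hM) g _ _ h1 ?_
    rw [hpow c σ ω' hω']
    simp only [map_prod, map_zpow₀, hg]

end Pool.Agent.Lib.MP_e29efe_nt.Sy
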