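import Pool.Agent.Lib.MP_e29efe_nt.Sy.St

namespace Pool.Agent.Lib.MP_e29efe_nt.Sy

open Finset

namespace Necx

variable {G : Type} [Group G] [Fintype G] [DecidableEq G]

theorem nob (Γ : Submodule ℤ (G → ℤ)) (hsat : ∀ (k : ℤ) z, k ≠ 0 → k • z ∈ Γ → z ∈ Γ)
    (hinv : ∀ (h : G) z, z ∈ Γ → (fun g => z (h * g)) ∈ Γ) (h1 : Pi.single (1 : G) (1 : ℤ) ∉ Γ)
    {d : ℕ} (σ : Fin d → G) (L : Submodule ℤ (Fin d → ℤ))
    (hL : ∀ b ∈ L, (fun g => ∑ i, (if σ i = g then 1 else 0) * b i) ∈ Γ) : NoB L := by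
  intro b hb i p hp hj
  by_contra hi
  have hco : IsCoprime (b i) (p : ℤ) :=
    ((Nat.prime_iff_prime_int.1 hp).irreducible.coprime_iff_not_dvd.2 hi).symm
  obtain ⟨x, y, hxy⟩ := hco
  choose! c hc using hj
  have k1 : ∃ w : G → ℤ, Pi.single (σ i) (1 : ℤ) - (p : ℤ) • w ∈ Γ := by
    refine ⟨fun g => y * (if σ i = g then 1 else 0) -
      x * ∑ j ∈ univ.erase i, (if σ j = g then 1 else 0) * c j, ?_⟩
    have e := Γ.smul_mem x (hL b hb)
    refine (congrArg (· ∈ Γ) (funext fun g => ?_)).mp e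
    simp only [Pi.smul_apply, smul_eq_mul, Pi.sub_apply, Pi.single_apply]
    rw [← Finset.add_sum_erase _ _ (mem_univ i)]
    have e2 : ∑ j ∈ univ.erase i, (if σ j = g then (1 : ℤ) else 0) * b j =
        p * ∑ j ∈ univ.erase i, (if σ j = g then (1 : ℤ) else 0) * c j := by
      rw [Finset.mul_sum]
      exact sum_congr rfl fun j hj => by rw [hc j (ne_of_mem_erase hj)]; ring
    rw [e2]
    by_cases hg : σ i = g
    · rw [if_pos hg, if_pos hg.symm]; linear_combination hxy
    · rw [if_neg hg, if_neg (fun e => hg e.symm)]; ring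
  have k2 : ∀ g : G, ∃ w : G → ℤ, Pi.single g (1 : ℤ) - (p : ℤ) • w ∈ Γ := by
    intro g
    obtain ⟨w, hw⟩ := k1
    refine ⟨fun g' => w (σ i * g⁻¹ * g'), ?_⟩
    have e := hinv (σ i * g⁻¹) _ hw
    refine (congrArg (· ∈ Γ) (funext fun g' => ?_)).mp e
    simp only [Pi.smul_apply, smul_eq_mul, Pi.sub_apply, Pi.single_apply]
    congr 1
    refine if_congr ?_ rfl rfl
    rw [mul_assoc, mul_eq_left, inv_mul_eq_one]
    exact eq_comm
  obtain ⟨r, hr, hr0⟩ := Submodule.exists_sub_one_mem_and_smul_eq_zero_of_fg_of_le_smul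
    (Ideal.span {(p : ℤ)}) (⊤ : Submodule ℤ ((G → ℤ) ⧸ Γ)) Module.Finite.fg_top (by
      intro q _
      obtain ⟨z, rfl⟩ := Γ.mkQ_surjective q
      have e : z = ∑ g, z g • (Pi.single g (1 : ℤ) : G → ℤ) := by
        funext g'
        simp [Finset.sum_apply, Pi.single_apply]
      rw [e, map_sum]
      refine Submodule.sum_mem _ fun g _ => ?_
      rw [map_smul]
      refine Submodule.smul_mem _ _ ?_
      obtain ⟨w, hw⟩ := k2 g
      have e3 : Γ.mkQ (Pi.single g (1 : ℤ)) = (p : ℤ) • Γ.mkQ w := by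
        rw [← map_smul]
        exact (Submodule.Quotient.eq Γ).2 hw
      rw [e3]
      exact Submodule.smul_mem_smul (Ideal.mem_span_singleton_self _) trivial)
  have hr1 : r ≠ 0 := by
    rintro rfl
    have h2 : (p : ℤ) ∣ 1 := by simpa using Ideal.mem_span_singleton.1 hr
    exact (Nat.prime_iff_prime_int.1 hp).not_dvd_one h2
  refine h1 (hsat r _ hr1 ?_)
  have e := hr0 (Γ.mkQ (Pi.single (1 : G) (1 : ℤ))) trivial
  rw [← map_smul] at e
  exact (Submodule.Quotient.mk_eq_zero Γ).1 e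

theorem ell (hF : FlatSt) (Γ : Submodule ℤ (G → ℤ))
    (hsat : ∀ (k : ℤ) z, k ≠ 0 → k • z ∈ Γ → z ∈ Γ)
    (hinv : ∀ (h : G) z, z ∈ Γ → (fun g => z (h * g)) ∈ Γ) (h1 : Pi.single (1 : G) (1 : ℤ) ∉ Γ)
    {d : ℕ} (σ : Fin d → G) (L : Submodule ℤ (Fin d → ℤ))
    (hL : ∀ b, b ∈ L ↔ (fun g => ∑ i, (if σ i = g then 1 else 0) * b i) ∈ Γ) : Ell L := by
  obtain ⟨r, π, hπ⟩ : ∃ (r : ℕ) (π : (G → ℝ) →ₗ[ℝ] (Fin r → ℝ)), ∀ x, π x = 0 ↔ x ∈ spanR Γ :=
    ⟨_, (Module.finBasis ℝ ((G → ℝ) ⧸ spanR Γ)).equivFun.toLinearMap ∘ₗ (spanR Γ).mkQ, fun x => by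
      simp⟩
  have hW : ∀ (h : G) x, x ∈ spanR Γ → (fun g => x (h * g)) ∈ spanR Γ := by
    intro h x hx
    induction hx using Submodule.span_induction with
    | mem x hx =>
      obtain ⟨z, hz, rfl⟩ := hx
      exact Submodule.subset_span ⟨_, hinv h z hz, rfl⟩
    | zero => exact Submodule.zero_mem _
    | add x y _ _ hx hy => exact Submodule.add_mem _ hx hy
    | smul a x _ hx => exact Submodule.smul_mem _ a hx
  set s : ℝ := ∑ h : G, ∑ k, π (Pi.single h 1) k ^ 2 with hs
  have hs0 : 0 < s := by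
    have k1 : π (Pi.single (1 : G) 1) ≠ 0 := by
      intro e
      have e1 : toR (Pi.single (1 : G) (1 : ℤ)) = Pi.single (1 : G) (1 : ℝ) := by
        funext g
        simp only [toR, Pi.single_apply]
        split_ifs <;> simp
      obtain ⟨n, hn, hn'⟩ := hF.1 G Γ _ (by rw [e1]; exact (hπ _).1 e)
      exact h1 (hsat n _ hn hn')
    obtain ⟨k, hk⟩ := Function.ne_iff.1 k1
    refine Finset.sum_pos' (fun h _ => by positivity) ⟨1, mem_univ _, ?_⟩
    exact Finset.sum_pos' (fun h _ => by positivity) ⟨k, mem_univ _, by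
      have : π (Pi.single (1 : G) 1) k ≠ 0 := hk
      positivity⟩
  have hq : 0 < Real.sqrt s := Real.sqrt_pos.2 hs0
  let e := Fintype.equivFin (G × Fin r)
  refine ⟨_, fun i => WithLp.toLp 2 fun j =>
    (Real.sqrt s)⁻¹ * π (Pi.single ((e.symm j).1 * σ i) 1) (e.symm j).2, fun i => ?_, fun c => ?_⟩
  · rw [EuclideanSpace.norm_eq, Real.sqrt_eq_one]
    simp only [Real.norm_eq_abs, sq_abs]
    rw [e.symm.sum_comp (fun z : G × Fin r =>
      ((Real.sqrt s)⁻¹ * π (Pi.single (z.1 * σ i) 1) z.2) ^ 2), Fintype.sum_prod_type]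
    refine (Equiv.sum_comp (Equiv.mulRight (σ i)) (fun h : G =>
        ∑ k, ((Real.sqrt s)⁻¹ * π (Pi.single h 1) k) ^ 2)).trans ?_
    simp only [mul_pow, ← Finset.mul_sum]
    rw [← hs, inv_pow, Real.sq_sqrt hs0.le, inv_mul_cancel₀ hs0.ne']
  · have k0 : ∀ h : G, (∑ i, c i • (Pi.single (h * σ i) (1 : ℝ) : G → ℝ)) =
        fun g => (fun k => ∑ i, (((if σ i = k then 1 else 0 : ℤ)) : ℝ) * c i) (h⁻¹ * g) := by
      intro h
      funext g
      simp only [Finset.sum_apply, Pi.smul_apply, Pi.single_apply, smul_eq_mul]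
      refine sum_congr rfl fun i _ => ?_
      by_cases hg : g = h * σ i
      · simp [hg]
      · have : ¬ σ i = h⁻¹ * g := fun e => hg (by rw [e]; simp)
        simp [hg, this]
    have k1 : (∑ i, c i • (WithLp.toLp 2 fun j => (Real.sqrt s)⁻¹ *
        π (Pi.single ((e.symm j).1 * σ i) 1) (e.symm j).2 : EuclideanSpace ℝ _) = 0) ↔
        ∀ h : G, π (∑ i, c i • (Pi.single (h * σ i) (1 : ℝ) : G → ℝ)) = 0 := by
      have k2 : ∀ j, (∑ i, c i • (WithLp.toLp 2 fun j => (Real.sqrt s)⁻¹ *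
          π (Pi.single ((e.symm j).1 * σ i) 1) (e.symm j).2 : EuclideanSpace ℝ _)) j =
          (Real.sqrt s)⁻¹ *
            π (∑ i, c i • (Pi.single ((e.symm j).1 * σ i) (1 : ℝ) : G → ℝ)) (e.symm j).2 := by
        intro j
        simp only [map_sum, map_smul, WithLp.ofLp_sum, WithLp.ofLp_smul, Finset.sum_apply,
          Pi.smul_apply, smul_eq_mul, Finset.mul_sum]
        exact sum_congr rfl fun i _ => by ring
      constructor
      · intro H h
        funext k
        have k3 := k2 (e (h, k))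
        rw [H, e.symm_apply_apply] at k3
        exact (mul_eq_zero.1 k3.symm).resolve_left (inv_ne_zero hq.ne')
      · intro H
        ext j
        rw [k2, H]
        simp
    rw [k1]
    constructor
    · intro H
      have k3 := (hπ _).1 (H 1)
      rw [k0] at k3
      simp only [inv_one, one_mul] at k3
      exact hF.2 (Fin d) G Γ L (fun k i => if σ i = k then 1 else 0) (fun b hb => (hL b).2 hb) c k3
    · intro H h
      rw [hπ, k0]
      refine hW h⁻¹ (fun k => ∑ i, (((if σ i = k then 1 else 0 : ℤ)) : ℝ) * c i) ?_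
      clear k0 k1
      induction H using Submodule.span_induction with
      | mem x hx =>
        obtain ⟨z, hz, rfl⟩ := hx
        refine Submodule.subset_span ⟨_, (hL z).1 hz, ?_⟩
        funext k
        simp [toR]
      | zero =>
        refine (congrArg (· ∈ spanR Γ) (funext fun k => ?_)).mp (Submodule.zero_mem (spanR Γ))
        simp
      | add x y _ _ hx hy =>
        have := Submodule.add_mem _ hx hy
        refine (congrArg (· ∈ spanR Γ) (funext fun k => ?_)).mp this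
        simp [mul_add, sum_add_distrib]
      | smul a x _ hx =>
        have := Submodule.smul_mem _ a hx
        refine (congrArg (· ∈ spanR Γ) (funext fun k => ?_)).mp this
        simp only [Pi.smul_apply, smul_eq_mul, Finset.mul_sum]
        exact sum_congr rfl fun i _ => by ring

/-- the group side: a finite group acting on a commutative group -/
theorem grp (hF : FlatSt) {M : Type} [CommGroup M] (ρ : G →* MulAut M) (a : M)
    (ha : ∀ n : ℕ, 0 < n → a ^ n ≠ 1) {d : ℕ} (σ : Fin d → G) (L : Submodule ℤ (Fin d → ℤ))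
    (hs : Sat L) (hL : ∀ b, b ∈ L ↔ ∏ i, ρ (σ i) a ^ b i = 1) : NoB L ∧ Ell L := by
  let Γ : Submodule ℤ (G → ℤ) :=
    { carrier := {z | IsOfFinOrder (∏ g, ρ g a ^ z g)}
      add_mem' := fun {x y} hx hy => by
        have := IsOfFinOrder.mul hx hy
        simpa [zpow_add, prod_mul_distrib] using this
      zero_mem' := by simp
      smul_mem' := fun c x hx => by
        have := IsOfFinOrder.zpow (i := c) hx
        rw [← Finset.prod_zpow] at this
        simpa [← zpow_mul, mul_comm] using this }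
  have hΓ : ∀ z, z ∈ Γ ↔ IsOfFinOrder (∏ g, ρ g a ^ z g) := fun _ => Iff.rfl
  have hsat : ∀ (k : ℤ) z, k ≠ 0 → k • z ∈ Γ → z ∈ Γ := by
    intro k z hk hz
    rw [hΓ] at hz ⊢
    have e : ∏ g, ρ g a ^ (k • z) g = (∏ g, ρ g a ^ z g) ^ k := by
      rw [← Finset.prod_zpow]
      exact prod_congr rfl fun g _ => by rw [← zpow_mul, mul_comm]; rfl
    rw [e] at hz
    obtain ⟨n, hn, hn'⟩ := isOfFinOrder_iff_zpow_eq_one.1 hz
    exact isOfFinOrder_iff_zpow_eq_one.2 ⟨k * n, mul_ne_zero hk hn, by rw [zpow_mul, hn']⟩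
  have hinv : ∀ (h : G) z, z ∈ Γ → (fun g => z (h * g)) ∈ Γ := by
    intro h z hz
    rw [hΓ] at hz ⊢
    have e := (ρ h⁻¹).toMonoidHom.isOfFinOrder hz
    rw [map_prod, ← Equiv.prod_comp (Equiv.mulLeft h)] at e
    refine (congrArg IsOfFinOrder (prod_congr rfl fun g _ => ?_)).mp e
    rw [map_zpow]
    congr 1
    change ρ h⁻¹ (ρ (h * g) a) = ρ g a
    rw [← MulAut.mul_apply, ← map_mul, inv_mul_cancel_left]
  have h1 : Pi.single (1 : G) (1 : ℤ) ∉ Γ := by
    rw [hΓ, Finset.prod_eq_single (1 : G) (fun g _ hg => by simp [hg]) (by simp)]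
    intro h
    obtain ⟨n, hn, hn'⟩ := isOfFinOrder_iff_pow_eq_one.1 h
    exact ha n hn (by simpa using hn')
  have e0 : ∀ b : Fin d → ℤ, ∏ g, ρ g a ^ (∑ i, (if σ i = g then 1 else 0) * b i) =
      ∏ i, ρ (σ i) a ^ b i := by
    intro b
    have e1 : ∀ g, ρ g a ^ (∑ i, (if σ i = g then 1 else 0) * b i) =
        ∏ i, if σ i = g then ρ g a ^ b i else 1 := by
      intro g
      have e2 := map_sum (zmultiplesHom (Additive M) (Additive.ofMul (ρ g a)))
        (fun i => (if σ i = g then (1 : ℤ) else 0) * b i) univ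
      have e3 := congrArg Additive.toMul e2
      rw [toMul_sum] at e3
      refine e3.trans (prod_congr rfl fun i _ => ?_)
      split_ifs <;> simp
    rw [prod_congr rfl fun g _ => e1 g, Finset.prod_comm]
    exact prod_congr rfl fun i _ => by simp
  have hL' : ∀ b, b ∈ L ↔ (fun g => ∑ i, (if σ i = g then 1 else 0) * b i) ∈ Γ := by
    intro b
    rw [hΓ, e0]
    constructor
    · intro hb
      rw [(hL b).1 hb]
      exact IsOfFinOrder.one
    · intro hb
      obtain ⟨n, hn, hn'⟩ := isOfFinOrder_iff_pow_eq_one.1 hb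
      refine hs (n : ℤ) b (by exact_mod_cast hn.ne') ((hL _).2 ?_)
      rw [← hn', ← Finset.prod_pow]
      exact prod_congr rfl fun i _ => by rw [← zpow_natCast, ← zpow_mul, mul_comm]; rfl
  exact ⟨nob Γ hsat hinv h1 σ L fun b hb => (hL' b).1 hb, ell hF Γ hsat hinv h1 σ L hL'⟩

end Necx

open Polynomial in
theorem nec_st (hF : FlatSt) : NecSt := by
  classical
  rintro d L hs ⟨α, h0, halg, hroot, hnt, hL⟩
  have hint : IsIntegral ℚ (α 0) := halg.isIntegral
  set f := minpoly ℚ (α 0) with hf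
  let K := IntermediateField.adjoin ℚ (f.rootSet ℂ)
  have hsp : IsSplittingField ℚ K f :=
    IntermediateField.adjoin_rootSet_isSplittingField (IsAlgClosed.splits _)
  have hno : Normal ℚ K := Normal.of_isSplittingField f
  have hfd : FiniteDimensional ℚ K := IsSplittingField.finiteDimensional K f
  have hmem : ∀ i, α i ∈ K := fun i => IntermediateField.subset_adjoin ℚ _
    (mem_rootSet.2 ⟨minpoly.ne_zero hint, hroot i⟩)
  let a : Fin (d + 1) → K := fun i => ⟨α i, hmem i⟩
  have hmin : ∀ i, minpoly ℚ (a i) = f := fun i => by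
    rw [← minpoly.algebraMap_eq (algebraMap K ℂ).injective (a i)]
    exact (minpoly.eq_of_irreducible_of_monic (minpoly.irreducible hint) (hroot i)
      (minpoly.monic hint)).symm
  have hσ : ∀ i, ∃ σ : K ≃ₐ[ℚ] K, σ (a 0) = a i := fun i =>
    IsConjRoot.exists_algEquiv (x := a i) (y := a 0) ((hmin i).trans (hmin 0).symm)
  choose σ hσ using hσ
  have ha0 : a 0 ≠ 0 := fun e => h0 (congrArg Subtype.val e)
  let ρ : (K ≃ₐ[ℚ] K) →* MulAut Kˣ :=
    { toFun := fun g => Units.mapEquiv g.toMulEquiv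
      map_one' := by ext; rfl
      map_mul' := fun _ _ => by ext; rfl }
  let φ : Kˣ →* ℂ := (algebraMap K ℂ).toMonoidHom.comp (Units.coeHom K)
  have hφ : ∀ x : Kˣ, φ x = 1 ↔ x = 1 := fun x => by
    constructor
    · intro e
      ext
      simpa [φ] using e
    · rintro rfl
      exact map_one φ
  have hρ : ∀ i, ((ρ (σ i) (Units.mk0 (a 0) ha0) : Kˣ) : K) = a i := fun i => hσ i
  refine Necx.grp hF ρ (Units.mk0 (a 0) ha0) (fun n hn e => hnt n hn ?_) σ L hs fun b => ?_
  · have := (hφ _).2 e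
    rw [map_pow] at this
    exact this
  · rw [hL, ← hφ, map_prod]
    refine Eq.congr_left (prod_congr rfl fun i _ => ?_)
    change _ = algebraMap K ℂ ((_ : Kˣ) : K)
    rw [Units.val_zpow_eq_zpow_val, hρ, map_zpow₀]
    rfl

end Pool.Agent.Lib.MP_e29efe_nt.Sy
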