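import Pool.Agent.Lib.MP_e29efe_nt.Sy.St

/-! Peeling the imbalance of almost balanced weights. -/

namespace Pool.Agent.Lib.MP_e29efe_nt.Sy

open Finset

namespace Peelx

variable {X : Type} {d : ℕ}

noncomputable def ee (d : ℕ) (i : Fin d) (t : ℕ) : Fin d × ℕ → ℝ :=
  fun q => if q.2 = t then (if q.1 = i then 1 else 0) - 1 / (d : ℝ) else 0

lemma sum_ee (t : ℕ) : ∑ i, ee d i t = 0 := by
  funext q
  have hd : (d : ℝ) ≠ 0 := by
    have := q.1.pos
    exact_mod_cast this.ne'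
  rw [Finset.sum_apply]
  simp only [ee, Pi.zero_apply]
  by_cases h : q.2 = t
  · simp only [h, if_true, sum_sub_distrib, sum_ite_eq, mem_univ, sum_const, card_univ,
      Fintype.card_fin, nsmul_eq_mul]
    field_simp
    ring
  · simp [h]

noncomputable def DD (lv : Fin d → X → ℕ) : (X →₀ ℝ) →ₗ[ℝ] (Fin d × ℕ → ℝ) :=
  Finsupp.linearCombination ℝ (fun x => ∑ i, ee d i (lv i x))

noncomputable def EE (d T0 : ℕ) : (Fin d × Fin (T0 + 1) → ℝ) →ₗ[ℝ] (Fin d × ℕ → ℝ) :=
  Fintype.linearCombination ℝ (fun q => ee d q.1 q.2)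

def Good (lv : Fin d → X → ℕ) (T0 : ℕ) (z : Fin d × ℕ → ℝ) (r : ℝ) : Prop :=
  ∃ u : X →₀ ℝ, (∀ x, 0 ≤ u x) ∧ ∃ c : Fin d × Fin (T0 + 1) → ℝ, ∑ q, |c q| ≤ r ∧
    z = DD lv u + EE d T0 c

variable {lv : Fin d → X → ℕ} {T0 : ℕ}

lemma Good.mono {z r r'} (h : Good lv T0 z r) (hr : r ≤ r') : Good lv T0 z r' := by
  obtain ⟨u, hu, c, hc, e⟩ := h
  exact ⟨u, hu, c, hc.trans hr, e⟩

lemma good_zero : Good lv T0 0 0 := ⟨0, by simp, 0, by simp, by simp⟩

lemma Good.add {z z' r r'} (h : Good lv T0 z r) (h' : Good lv T0 z' r') :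
    Good lv T0 (z + z') (r + r') := by
  obtain ⟨u, hu, c, hc, e⟩ := h
  obtain ⟨u', hu', c', hc', e'⟩ := h'
  refine ⟨u + u', fun x => by simpa using add_nonneg (hu x) (hu' x), c + c', ?_, ?_⟩
  · calc ∑ q, |(c + c') q| ≤ ∑ q, (|c q| + |c' q|) := sum_le_sum fun q _ => abs_add_le _ _
      _ ≤ r + r' := by rw [sum_add_distrib]; exact add_le_add hc hc'
  · rw [e, e', map_add, map_add]; abel

lemma Good.smul {z r} (h : Good lv T0 z r) {k : ℝ} (hk : 0 ≤ k) :
    Good lv T0 (k • z) (k * r) := by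
  obtain ⟨u, hu, c, hc, e⟩ := h
  refine ⟨k • u, fun x => by simpa using mul_nonneg hk (hu x), k • c, ?_, ?_⟩
  · calc ∑ q, |(k • c) q| = k * ∑ q, |c q| := by
          rw [mul_sum]; refine sum_congr rfl fun q _ => ?_
          simp [abs_mul, abs_of_nonneg hk]
      _ ≤ k * r := mul_le_mul_of_nonneg_left hc hk
  · rw [e, map_smul, map_smul, smul_add]

lemma good_sum {ι : Type} (s : Finset ι) (z : ι → Fin d × ℕ → ℝ) (r : ι → ℝ)
    (h : ∀ i ∈ s, Good lv T0 (z i) (r i)) : Good lv T0 (∑ i ∈ s, z i) (∑ i ∈ s, r i) := by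
  classical
  induction s using Finset.induction_on with
  | empty => simpa using good_zero
  | insert a s ha ih =>
    rw [sum_insert ha, sum_insert ha]
    exact (h a (mem_insert_self _ _)).add (ih fun i hi => h i (mem_insert_of_mem hi))

lemma good_point (x : X) : Good lv T0 (∑ i, ee d i (lv i x)) 0 := by
  classical
  refine ⟨Finsupp.single x 1, fun y => ?_, 0, by simp, by simp [DD]⟩
  rw [Finsupp.single_apply]; split_ifs <;> norm_num

lemma good_low (i : Fin d) (t : ℕ) (ht : t ≤ T0) : Good lv T0 (-ee d i t) 1 := by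
  classical
  refine ⟨0, by simp, Pi.single (i, ⟨t, by omega⟩) (-1), ?_, ?_⟩
  · rw [sum_eq_single (i, (⟨t, by omega⟩ : Fin (T0 + 1)))]
    · simp
    · intro q _ hq; simp [Pi.single_eq_of_ne hq]
    · simp
  · simp [EE, Fintype.linearCombination_apply_single]

lemma ee_eq (i : Fin d) (t : ℕ) : ee d i t = ∑ j ∈ univ.erase i, -ee d j t := by
  have h := sum_ee (d := d) t
  rw [← add_sum_erase _ _ (mem_univ i)] at h
  rw [sum_neg_distrib]
  exact eq_neg_of_add_eq_zero_left h

lemma good_neg {lam : ℝ} (h0 : 0 ≤ lam) (h1 : lam < 1)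
    (hp : ∀ (i : Fin d) (t : ℕ), T0 < t → ∃ x, lv i x = t ∧ ∀ j, j ≠ i → (lv j x : ℝ) ≤ lam * t)
    {A : ℕ} (hA : (d : ℝ) ^ 2 * ((1 + lam) / 2) ^ A ≤ 1) (t : ℕ) :
    ∀ i, Good lv T0 (-ee d i t) ((1 + (t : ℝ)) ^ A) := by
  induction t using Nat.strong_induction_on with
  | _ t ih =>
    intro i
    by_cases ht : t ≤ T0
    · exact (good_low i t ht).mono (one_le_pow₀ (by have : (0 : ℝ) ≤ t := Nat.cast_nonneg t; linarith))
    push Not at ht
    have ht1 : (1 : ℝ) ≤ t := by exact_mod_cast (show 1 ≤ t by omega)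
    set ρ : ℝ := (((1 + lam) / 2) * (1 + (t : ℝ))) ^ A with hρ
    have hρ0 : 0 ≤ ρ := by positivity
    have key : ∀ j : Fin d, Good lv T0 (ee d j t) (d * ρ) := by
      intro j
      obtain ⟨x, hx, hlow⟩ := hp j t ht
      have e : ee d j t = (∑ k, ee d k (lv k x)) + ∑ k ∈ univ.erase j, -ee d k (lv k x) := by
        rw [← add_sum_erase _ _ (mem_univ j), hx, sum_neg_distrib]; abel
      rw [e]
      have h2 : Good lv T0 (∑ k ∈ univ.erase j, -ee d k (lv k x)) (∑ _k ∈ univ.erase j, ρ) := by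
        refine good_sum _ _ _ fun k hk => ?_
        have hk' := hlow k (mem_erase.mp hk).1
        have hlt : lv k x < t := by
          have : (lv k x : ℝ) < t := by nlinarith
          exact_mod_cast this
        refine (ih _ hlt k).mono ?_
        refine pow_le_pow_left₀ (by positivity) ?_ _
        nlinarith
      refine ((good_point x).add h2).mono ?_
      rw [zero_add, sum_const, nsmul_eq_mul]
      refine mul_le_mul_of_nonneg_right ?_ hρ0
      have : (univ.erase j).card ≤ d := by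
        simpa using card_le_univ (univ.erase j)
      exact_mod_cast this
    have e : -ee d i t = ∑ j ∈ univ.erase i, ee d j t := by
      rw [ee_eq i t, sum_neg_distrib, neg_neg]
    rw [e]
    refine (good_sum _ _ (fun _ => (d : ℝ) * ρ) fun j _ => key j).mono ?_
    rw [sum_const, nsmul_eq_mul]
    have hc : ((univ.erase i).card : ℝ) ≤ d := by
      have : (univ.erase i).card ≤ d := by
        simpa using card_le_univ (univ.erase i)
      exact_mod_cast this
    have hd0 : (0 : ℝ) ≤ d := Nat.cast_nonneg d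
    calc ((univ.erase i).card : ℝ) * (d * ρ) ≤ d * (d * ρ) :=
          mul_le_mul_of_nonneg_right hc (mul_nonneg hd0 hρ0)
      _ = ((d : ℝ) ^ 2 * ((1 + lam) / 2) ^ A) * (1 + (t : ℝ)) ^ A := by rw [hρ, mul_pow]; ring
      _ ≤ 1 * (1 + (t : ℝ)) ^ A := mul_le_mul_of_nonneg_right hA (by positivity)
      _ = _ := one_mul _

lemma good_any {A : ℕ} (h : ∀ (t : ℕ) i, Good lv T0 (-ee d i t) ((1 + (t : ℝ)) ^ A))
    (i : Fin d) (t : ℕ) (δ : ℝ) :
    Good lv T0 (δ • -ee d i t) (d * (|δ| * (1 + (t : ℝ)) ^ A)) := by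
  have hd : (1 : ℝ) ≤ d := by exact_mod_cast i.pos
  have hp : (0 : ℝ) ≤ (1 + (t : ℝ)) ^ A := by positivity
  rcases le_total 0 δ with hδ | hδ
  · refine ((h t i).smul hδ).mono ?_
    rw [abs_of_nonneg hδ]
    nlinarith [mul_nonneg hδ hp]
  · have h2 : Good lv T0 (ee d i t) (∑ _j ∈ univ.erase i, (1 + (t : ℝ)) ^ A) := by
      rw [ee_eq i t]
      exact good_sum _ _ _ fun j _ => h t j
    have e : δ • -ee d i t = (-δ) • ee d i t := by simp
    rw [e]
    refine (h2.smul (neg_nonneg.mpr hδ)).mono ?_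
    rw [sum_const, nsmul_eq_mul, abs_of_nonpos hδ]
    have hc : ((univ.erase i).card : ℝ) ≤ d := by
      have : (univ.erase i).card ≤ d := by
        simpa using card_le_univ (univ.erase i)
      exact_mod_cast this
    have := mul_le_mul_of_nonneg_right hc (mul_nonneg (neg_nonneg.mpr hδ) hp)
    nlinarith

lemma DD_apply (w : X →₀ ℝ) (j : Fin d) (t : ℕ) :
    DD lv w (j, t) = marg lv w j t - (1 / (d : ℝ)) * ∑ i, marg lv w i t := by
  rw [DD, Finsupp.linearCombination_apply, Finsupp.sum, Finset.sum_apply]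
  simp only [marg, Pi.smul_apply, Finset.sum_apply, smul_eq_mul, ee]
  rw [sum_comm (s := univ), mul_sum, ← sum_sub_distrib]
  refine sum_congr rfl fun x _ => ?_
  have e1 : (if lv j x = t then w x else 0) =
      ∑ i, if j = i then (if lv i x = t then w x else 0) else 0 := by simp
  rw [e1, mul_sum, mul_sum, ← sum_sub_distrib]
  refine sum_congr rfl fun i _ => ?_
  by_cases h : lv i x = t
  · by_cases h2 : j = i
    · simp [h, h2]; ring
    · simp [h, h2]; ring
  · have h' : ¬ t = lv i x := fun e => h e.symm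
    simp [h, h']

lemma DD_eq (w : X →₀ ℝ) (B : ℕ) (hB : ∀ x ∈ w.support, ∀ i, lv i x < B) :
    DD lv w = ∑ i, ∑ t ∈ range B, marg lv w i t • ee d i t := by
  rw [DD, Finsupp.linearCombination_apply, Finsupp.sum]
  simp only [marg, sum_smul, smul_sum]
  rw [sum_comm]
  refine sum_congr rfl fun i _ => ?_
  rw [sum_comm]
  refine sum_congr rfl fun x hx => ?_
  rw [sum_eq_single (lv i x)]
  · simp
  · intro t _ ht
    rw [if_neg (fun e => ht e.symm), zero_smul]
  · intro h
    exact absurd (mem_range.mpr (hB x hx i)) h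

lemma exists_section (lv : Fin d → X → ℕ) (T0 : ℕ) :
    ∃ s : (Fin d × Fin (T0 + 1) → ℝ) →ₗ[ℝ] (X →₀ ℝ),
      ∀ c, EE d T0 c ∈ LinearMap.range (DD lv) → DD lv (s c) = EE d T0 c := by
  obtain ⟨g, hg⟩ := (DD lv).rangeRestrict.exists_rightInverse_of_surjective
    (LinearMap.range_rangeRestrict _)
  let Y : Submodule ℝ (Fin d × Fin (T0 + 1) → ℝ) := (LinearMap.range (DD lv)).comap (EE d T0)
  let f : Y →ₗ[ℝ] LinearMap.range (DD lv) :=
    LinearMap.codRestrict _ ((EE d T0).domRestrict Y) fun y => y.2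
  obtain ⟨s, hs⟩ := LinearMap.exists_extend (g.comp f)
  refine ⟨s, fun c hc => ?_⟩
  have h1 : s c = g (f ⟨c, hc⟩) := by
    have := LinearMap.congr_fun hs ⟨c, hc⟩
    simpa using this
  have h2 := LinearMap.congr_fun hg (f ⟨c, hc⟩)
  rw [h1]
  have h3 := congrArg Subtype.val h2
  simpa [f] using h3

end Peelx

open Peelx in
theorem peel_st : PeelSt := by
  classical
  intro X d lv hP hA F
  obtain ⟨lam, T0, h0, h1, hp⟩ := hP
  rcases Nat.eq_zero_or_pos d with hd | hd
  · subst hd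
    obtain ⟨w, B, hw, hF, -, -⟩ := hA 0 1 one_pos F
    exact ⟨w, hw, fun x hx => by linarith [hF x hx], fun i => i.elim0⟩
  have hdR : (0 : ℝ) < d := by exact_mod_cast hd
  obtain ⟨A, hAA⟩ := exists_pow_lt_of_lt_one (x := 1 / (d : ℝ) ^ 2) (y := (1 + lam) / 2)
    (by positivity) (by linarith)
  have hA2 : (d : ℝ) ^ 2 * ((1 + lam) / 2) ^ A ≤ 1 := by
    rw [lt_div_iff₀ (by positivity)] at hAA
    linarith
  have hneg := good_neg (lv := lv) (T0 := T0) h0 h1 hp hA2
  obtain ⟨s, hs⟩ := exists_section lv T0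
  let F0 : Finset X := univ.biUnion fun q : Fin d × Fin (T0 + 1) => (s (Pi.single q 1)).support
  let C : ℝ := 1 + ∑ q : Fin d × Fin (T0 + 1), ∑ x ∈ F0 ∪ F, |s (Pi.single q 1) x|
  have hC1 : 1 ≤ C := by
    have : 0 ≤ ∑ q : Fin d × Fin (T0 + 1), ∑ x ∈ F0 ∪ F, |s (Pi.single q 1) x| := by positivity
    simp only [C]; linarith
  have hCq : ∀ q, ∀ x ∈ F0 ∪ F, |s (Pi.single q 1) x| ≤ C := by
    intro q x hx
    have a1 : |s (Pi.single q 1) x| ≤ ∑ x ∈ F0 ∪ F, |s (Pi.single q 1) x| :=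
      single_le_sum (f := fun x => |s (Pi.single q 1) x|) (fun _ _ => abs_nonneg _) hx
    have a2 : ∑ x ∈ F0 ∪ F, |s (Pi.single q 1) x| ≤
        ∑ q : Fin d × Fin (T0 + 1), ∑ x ∈ F0 ∪ F, |s (Pi.single q 1) x| :=
      single_le_sum (f := fun q => ∑ x ∈ F0 ∪ F, |s (Pi.single q 1) x|)
        (fun _ _ => by positivity) (mem_univ q)
    simp only [C]; linarith
  have hsc : ∀ (c : Fin d × Fin (T0 + 1) → ℝ) (x : X),
      s c x = ∑ q, c q * s (Pi.single q 1) x := by
    intro c x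
    conv_lhs => rw [pi_eq_sum_univ' c]
    simp [map_sum, Finsupp.finset_sum_apply]
  obtain ⟨w, B, hw, hF, hB, hε⟩ := hA A (1 / (4 * C * (d : ℝ) ^ 2)) (by positivity) (F0 ∪ F)
  let i0 : Fin d := ⟨0, hd⟩
  have e : -DD lv w = ∑ i, ∑ t ∈ range B, (marg lv w i t - marg lv w i0 t) • -ee d i t := by
    rw [DD_eq w B hB]
    have z : ∑ i, ∑ t ∈ range B, marg lv w i0 t • ee d i t = 0 := by
      rw [sum_comm]
      refine sum_eq_zero fun t _ => ?_
      rw [← smul_sum, sum_ee, smul_zero]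
    simp only [smul_neg, sub_smul, sum_neg_distrib, sum_sub_distrib, z, sub_zero]
  have hG : Good lv T0 (-DD lv w) (1 / (4 * C)) := by
    rw [e]
    refine (good_sum _ _ (fun i => ∑ t ∈ range B,
      (d : ℝ) * (|marg lv w i t - marg lv w i0 t| * (1 + (t : ℝ)) ^ A)) fun i _ =>
      good_sum _ _ _ fun t _ => good_any hneg i t _).mono ?_
    calc ∑ i, ∑ t ∈ range B, (d : ℝ) * (|marg lv w i t - marg lv w i0 t| * (1 + (t : ℝ)) ^ A)
        ≤ ∑ _i : Fin d, (d : ℝ) * (1 / (4 * C * (d : ℝ) ^ 2)) := by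
          refine sum_le_sum fun i _ => ?_
          rw [← mul_sum]
          exact mul_le_mul_of_nonneg_left (hε i i0) hdR.le
      _ = 1 / (4 * C) := by
          rw [sum_const, card_univ, Fintype.card_fin, nsmul_eq_mul]
          field_simp
  obtain ⟨u, hu, c, hc, hz⟩ := hG
  have hr : EE d T0 c ∈ LinearMap.range (DD lv) := by
    refine ⟨-w - u, ?_⟩
    rw [map_sub, map_neg, hz]; abel
  have hb : ∀ x ∈ F0 ∪ F, |s c x| ≤ 1 / 4 := by
    intro x hx
    rw [hsc]
    calc |∑ q, c q * s (Pi.single q 1) x| ≤ ∑ q, |c q * s (Pi.single q 1) x| :=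
          abs_sum_le_sum_abs _ _
      _ ≤ ∑ q, |c q| * C := by
          refine sum_le_sum fun q _ => ?_
          rw [abs_mul]
          exact mul_le_mul_of_nonneg_left (hCq q x hx) (abs_nonneg _)
      _ ≤ 1 / (4 * C) * C := by
          rw [← sum_mul]
          exact mul_le_mul_of_nonneg_right hc (by linarith)
      _ = 1 / 4 := by field_simp
  have hz0 : ∀ x, x ∉ F0 ∪ F → s c x = 0 := by
    intro x hx
    rw [hsc]
    refine sum_eq_zero fun q _ => ?_
    have : s (Pi.single q 1) x = 0 := by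
      by_contra hne
      exact hx (mem_union_left _ (mem_biUnion.mpr ⟨q, mem_univ _, Finsupp.mem_support_iff.mpr hne⟩))
    rw [this, mul_zero]
  have hpos : ∀ x ∈ F0 ∪ F, 0 < (w + u + s c) x := by
    intro x hx
    have a1 := hF x hx
    have a2 := hu x
    have a3 := (abs_le.mp (hb x hx)).1
    simp only [Finsupp.add_apply]; linarith
  refine ⟨w + u + s c, fun x => ?_, fun x hx => hpos x (mem_union_right _ hx), fun i j t => ?_⟩
  · by_cases hx : x ∈ F0 ∪ F
    · exact (hpos x hx).le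
    · simp only [Finsupp.add_apply, hz0 x hx, add_zero]
      exact add_nonneg (hw x) (hu x)
  · have hD : DD lv (w + u + s c) = 0 := by
      rw [map_add, map_add, hs c hr, add_assoc, ← hz]; abel
    have a1 := DD_apply (lv := lv) (w + u + s c) i t
    have a2 := DD_apply (lv := lv) (w + u + s c) j t
    rw [hD] at a1 a2
    simp only [Pi.zero_apply] at a1 a2
    linarith

end Pool.Agent.Lib.MP_e29efe_nt.Sy
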