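import Pool.Agent.Lib.MP_e29efe_nt.Sy.St

/-! Rational linear functionals on the reals close to the identity on a finite set. -/

namespace Pool.Agent.Lib.MP_e29efe_nt.Sy

open Finset

theorem phi_st : PhiSt := by
  classical
  intro S ε hε
  let b := Module.Basis.ofVectorSpace ℚ ℝ
  let m : ℝ → ℝ := fun x => ∑ i ∈ (b.repr x).support, |((b.repr x i : ℚ) : ℝ)|
  have hm0 : ∀ x, 0 ≤ m x := fun x => sum_nonneg fun _ _ => abs_nonneg _
  let M : ℝ := ∑ x ∈ S, m x
  have hM0 : 0 ≤ M := sum_nonneg fun x _ => hm0 x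
  have hδ : 0 < ε / (M + 1) := by positivity
  choose q hq using fun i => exists_rat_near (b i) hδ
  refine ⟨b.constr ℚ q, fun x hx => ?_⟩
  have e1 : ((b.constr ℚ q x : ℚ) : ℝ) =
      ∑ i ∈ (b.repr x).support, ((b.repr x i : ℚ) : ℝ) * (q i : ℝ) := by
    rw [Module.Basis.constr_apply, Finsupp.sum]
    push_cast [smul_eq_mul]
    rfl
  have e2 : x = ∑ i ∈ (b.repr x).support, ((b.repr x i : ℚ) : ℝ) * b i := by
    conv_lhs => rw [← b.linearCombination_repr x, Finsupp.linearCombination_apply, Finsupp.sum]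
    exact sum_congr rfl fun i _ => Rat.smul_def _ _
  have e3 : ((b.constr ℚ q x : ℚ) : ℝ) - x =
      ∑ i ∈ (b.repr x).support, ((b.repr x i : ℚ) : ℝ) * ((q i : ℝ) - b i) := by
    rw [e1]
    conv_lhs => rw [e2]
    rw [← e2, sum_congr rfl fun i _ => mul_sub _ _ _, sum_sub_distrib, ← e2]
  have h1 : |((b.constr ℚ q x : ℚ) : ℝ) - x| ≤ m x * (ε / (M + 1)) := by
    rw [e3, sum_mul]
    refine (abs_sum_le_sum_abs _ _).trans (sum_le_sum fun i _ => ?_)
    rw [abs_mul, abs_sub_comm]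
    exact mul_le_mul_of_nonneg_left (hq i).le (abs_nonneg _)
  have h2 : m x ≤ M := single_le_sum (fun y _ => hm0 y) hx
  have h3 : (M + 1) * (ε / (M + 1)) = ε := by field_simp
  nlinarith

end Pool.Agent.Lib.MP_e29efe_nt.Sy
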