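import Pool.Agent.Lib.MP_e29efe_nt.Sy.St

namespace Pool.Agent.Lib.MP_e29efe_nt.Sy

open Finset

namespace Pointx

/-- the weighted inner product of two different rows is less than one -/
theorem rho_lt {m : ℕ} (p q : Fin m → ℤ) (s : Fin m → ℝ) (hs : ∀ v, 0 < s v)
    (hp : ∑ v, s v * (p v : ℝ) ^ 2 = 1) (hq : ∑ v, s v * (q v : ℝ) ^ 2 = 1) (h : p ≠ q) :
    ∑ v, s v * (p v : ℝ) * (q v : ℝ) < 1 := by
  obtain ⟨v0, hv⟩ := Function.ne_iff.1 h
  have h1 : 0 < ∑ v, s v * ((p v : ℝ) - q v) ^ 2 := by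
    refine sum_pos' (fun v _ => mul_nonneg (hs v).le (sq_nonneg _)) ⟨v0, mem_univ _, ?_⟩
    have : ((p v0 : ℝ) - q v0) ≠ 0 := sub_ne_zero.2 (by exact_mod_cast hv)
    exact mul_pos (hs v0) (by positivity)
  have h2 : ∑ v, s v * ((p v : ℝ) - q v) ^ 2 = ∑ v, s v * (p v : ℝ) ^ 2 +
      ∑ v, s v * (q v : ℝ) ^ 2 - 2 * ∑ v, s v * (p v : ℝ) * (q v : ℝ) := by
    rw [mul_sum, ← sum_add_distrib, ← sum_sub_distrib]
    exact sum_congr rfl fun v _ => by ring
  linarith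

theorem rho_abs {m : ℕ} (p q : Fin m → ℤ) (s : Fin m → ℝ) (hs : ∀ v, 0 < s v)
    (hp : ∑ v, s v * (p v : ℝ) ^ 2 = 1) (hq : ∑ v, s v * (q v : ℝ) ^ 2 = 1) (h : p ≠ q)
    (h' : p ≠ -q) : |∑ v, s v * (p v : ℝ) * (q v : ℝ)| < 1 := by
  have h1 := rho_lt p q s hs hp hq h
  have h2 := rho_lt p (-q) s hs hp (by simpa using hq) h'
  have h3 : ∑ v, s v * (p v : ℝ) * (((-q) v : ℤ) : ℝ) = -∑ v, s v * (p v : ℝ) * (q v : ℝ) := by
    rw [← sum_neg_distrib]
    exact sum_congr rfl fun v _ => by simp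
  rw [abs_lt]
  constructor <;> linarith

/-- rounding costs at most the sum of the absolute values -/
theorem round_err {m : ℕ} (p q : Fin m → ℤ) (s : Fin m → ℝ) (t : ℝ) :
    |((∑ v, q v * round (t * (s v * p v)) : ℤ) : ℝ) - t * ∑ v, s v * (p v : ℝ) * (q v : ℝ)| ≤
      ∑ v, |(q v : ℝ)| := by
  push_cast
  rw [mul_sum, ← sum_sub_distrib]
  refine (abs_sum_le_sum_abs _ _).trans (sum_le_sum fun v _ => ?_)
  have e : (q v : ℝ) * (round (t * (s v * p v)) : ℝ) - t * (s v * (p v : ℝ) * (q v : ℝ)) =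
      -((q v : ℝ) * (t * (s v * p v) - (round (t * (s v * p v)) : ℝ))) := by ring
  rw [e, abs_neg, abs_mul]
  have h := abs_sub_round (t * (s v * p v))
  nlinarith [abs_nonneg (q v : ℝ)]

end Pointx

open Pointx in
theorem point_st : PointSt := by
  classical
  rintro d m a s ⟨hs, hn, h1⟩ hne
  obtain ⟨μ, μ0, μ1, hμ⟩ : ∃ μ : ℝ, 0 ≤ μ ∧ μ < 1 ∧
      ∀ i j, i ≠ j → |∑ v, s v * (a i v : ℝ) * (a j v : ℝ)| ≤ μ := by
    have key : ∀ S : Finset (Fin d × Fin d), ∃ μ : ℝ, 0 ≤ μ ∧ μ < 1 ∧ ∀ z ∈ S, z.1 ≠ z.2 →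
        |∑ v, s v * (a z.1 v : ℝ) * (a z.2 v : ℝ)| ≤ μ := by
      intro S
      induction S using Finset.induction_on with
      | empty => exact ⟨0, le_rfl, one_pos, fun z hz => absurd hz (notMem_empty z)⟩
      | insert z S _ ih =>
        obtain ⟨μ, μ0, μ1, hμ⟩ := ih
        by_cases hz : z.1 = z.2
        · refine ⟨μ, μ0, μ1, fun y hy k => ?_⟩
          rcases mem_insert.1 hy with rfl | hy
          · exact absurd hz k
          · exact hμ y hy k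
        · refine ⟨max μ |∑ v, s v * (a z.1 v : ℝ) * (a z.2 v : ℝ)|, le_max_of_le_left μ0,
            max_lt μ1 (rho_abs _ _ s hs (hn _) (hn _) (hne _ _ hz).1 (hne _ _ hz).2),
            fun y hy k => ?_⟩
          rcases mem_insert.1 hy with rfl | hy
          · exact le_max_right _ _
          · exact le_max_of_le_left (hμ y hy k)
    obtain ⟨μ, μ0, μ1, hμ⟩ := key univ
    exact ⟨μ, μ0, μ1, fun i j k => hμ (i, j) (mem_univ _) k⟩
  obtain ⟨K, hK⟩ : ∃ K : ℝ, ∀ j, ∑ v, |(a j v : ℝ)| ≤ K :=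
    ⟨∑ j, ∑ v, |(a j v : ℝ)|, fun j => single_le_sum (f := fun j => ∑ v, |(a j v : ℝ)|)
      (fun _ _ => sum_nonneg fun _ _ => abs_nonneg _) (mem_univ j)⟩
  refine ⟨(1 + μ) / 2, ⌈2 * (K + K * K) / (1 - μ)⌉₊, by linarith, by linarith, fun i t ht => ?_⟩
  obtain ⟨v0, hv0⟩ := h1 i
  set x0 : Fin m → ℤ := fun v => round ((t : ℝ) * (s v * a i v)) with hx0
  set δ : ℤ := (t : ℤ) - ∑ v, a i v * x0 v with hδ
  have hsum : ∀ j, ∑ v, a j v * (x0 + Pi.single v0 δ : Fin m → ℤ) v =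
      ∑ v, a j v * x0 v + a j v0 * δ := by
    intro j
    simp only [Pi.add_apply, mul_add, sum_add_distrib]
    congr 1
    rw [sum_eq_single v0]
    · simp
    · intro b _ hb; simp [hb]
    · intro h; exact absurd (mem_univ _) h
  have hii : ∑ v, s v * (a i v : ℝ) * (a i v : ℝ) = 1 := by
    rw [← hn i]; exact sum_congr rfl fun v _ => by ring
  have hd : |(δ : ℝ)| ≤ K := by
    have h := round_err (a i) (a i) s t
    rw [hii, mul_one, abs_sub_comm] at h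
    refine le_trans (le_of_eq ?_) (h.trans (hK i))
    rw [hδ]; push_cast; rfl
  refine ⟨x0 + Pi.single v0 δ, ?_, fun j hj => ?_⟩
  · unfold lev
    rw [hsum, hv0, one_mul, hδ, add_sub_cancel, Int.natAbs_natCast]
  · unfold lev
    rw [hsum, Nat.cast_natAbs, Int.cast_abs, Int.cast_add, Int.cast_mul]
    have h := (round_err (a i) (a j) s t).trans (hK j)
    have h2 : |(a j v0 : ℝ)| ≤ K := (single_le_sum (f := fun v => |(a j v : ℝ)|)
      (fun _ _ => abs_nonneg _) (mem_univ v0)).trans (hK j)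
    have h3 : |(a j v0 : ℝ) * (δ : ℝ)| ≤ K * K := by
      rw [abs_mul]
      exact mul_le_mul h2 hd (abs_nonneg _) ((abs_nonneg _).trans h2)
    have t0 : (0 : ℝ) ≤ t := Nat.cast_nonneg t
    have h4 : |(t : ℝ) * ∑ v, s v * (a i v : ℝ) * (a j v : ℝ)| ≤ t * μ := by
      rw [abs_mul, abs_of_nonneg t0]
      exact mul_le_mul_of_nonneg_left (hμ i j hj.symm) t0
    have h5 : 2 * (K + K * K) / (1 - μ) ≤ t :=
      (Nat.le_ceil _).trans (by exact_mod_cast ht.le)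
    rw [div_le_iff₀ (by linarith)] at h5
    have h6 := abs_le.1 h
    have h7 := abs_le.1 h3
    have h8 := abs_le.1 h4
    rw [abs_le]
    constructor <;> nlinarith [h6.1, h6.2, h7.1, h7.2, h8.1, h8.2]

end Pool.Agent.Lib.MP_e29efe_nt.Sy
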