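import Pool.Agent.Lib.MP_e29efe_nt.Sy.St

namespace Pool.Agent.Lib.MP_e29efe_nt.Sy

open Finset

namespace Primx

theorem div_of_forall {Q : Type} [AddCommGroup Q] [Module.Free ℤ Q] [Module.Finite ℤ Q] (z : Q)
    (g : ℤ) (h : ∀ φ : Q →ₗ[ℤ] ℤ, g ∣ φ z) : ∃ w : Q, z = g • w := by
  classical
  let B := Module.Free.chooseBasis ℤ Q
  choose c hc using fun k => h (B.coord k)
  refine ⟨∑ k, c k • B k, ?_⟩
  rw [Finset.smul_sum]
  conv_lhs => rw [← B.sum_repr z]
  refine Finset.sum_congr rfl fun k _ => ?_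
  rw [smul_smul, ← hc k]
  rfl

theorem exists_one {Q : Type} [AddCommGroup Q] [Module.Free ℤ Q] [Module.Finite ℤ Q] (z : Q)
    (h : ∀ (p : ℕ) (w : Q), p.Prime → z ≠ (p : ℤ) • w) : ∃ φ : Q →ₗ[ℤ] ℤ, φ z = 1 := by
  by_contra hne
  let I : Ideal ℤ := LinearMap.range (Module.Dual.eval ℤ Q z)
  have hI : I ≠ ⊤ := by
    intro ht
    have : (1 : ℤ) ∈ I := ht ▸ Submodule.mem_top
    obtain ⟨φ, hφ⟩ := this
    exact hne ⟨φ, hφ⟩
  obtain ⟨M, hM, hIM⟩ := Ideal.exists_le_maximal I hI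
  have hM0 : M ≠ ⊥ := Ring.ne_bot_of_isMaximal_of_not_isField hM Int.not_isField
  have hp := hM.isPrime
  have hg : Prime (Submodule.IsPrincipal.generator M) :=
    Submodule.IsPrincipal.prime_generator_of_isPrime M hM0
  obtain ⟨w, hw⟩ := div_of_forall z ((Submodule.IsPrincipal.generator M).natAbs : ℤ) (fun φ => by
    rw [Int.natAbs_dvd]
    exact (Submodule.IsPrincipal.mem_iff_generator_dvd M).1 (hIM ⟨φ, rfl⟩))
  exact h _ w (Int.prime_iff_natAbs_prime.1 hg) hw

end Primx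

theorem prim_st : PrimSt := by
  intro d L hS hB i
  have htf : Module.IsTorsionFree ℤ ((Fin d → ℤ) ⧸ L) := by
    refine Module.IsTorsionFree.of_smul_eq_zero fun k x hx => ?_
    obtain ⟨b, rfl⟩ := L.mkQ_surjective x
    by_cases hk : k = 0
    · exact Or.inl hk
    · right
      rw [← map_smul, Submodule.mkQ_apply, Submodule.Quotient.mk_eq_zero] at hx
      rw [Submodule.mkQ_apply, Submodule.Quotient.mk_eq_zero]
      exact hS k b hk hx
  have hfr : Module.Free ℤ ((Fin d → ℤ) ⧸ L) := Module.free_of_finite_type_torsion_free'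
  obtain ⟨φ, hφ⟩ := Primx.exists_one (L.mkQ (Pi.single i 1)) (by
    intro p w hp hw
    obtain ⟨b, rfl⟩ := L.mkQ_surjective w
    rw [← map_smul, ← sub_eq_zero, ← map_sub, Submodule.mkQ_apply,
      Submodule.Quotient.mk_eq_zero] at hw
    have h1 := hB _ hw i p hp (fun j hj => by
      simp [Pi.single_eq_of_ne hj])
    simp only [Pi.sub_apply, Pi.single_eq_same, Pi.smul_apply, smul_eq_mul] at h1
    have h2 : (p : ℤ) ∣ 1 := by
      have := dvd_add h1 (dvd_mul_right (p : ℤ) (b i))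
      simpa using this
    exact hp.one_lt.ne' (by exact_mod_cast Int.eq_one_of_dvd_one (Int.natCast_nonneg p) h2))
  refine ⟨fun j => φ (L.mkQ (Pi.single j 1)), hφ, fun b hb => ?_⟩
  have e : b = ∑ j, b j • (Pi.single j 1 : Fin d → ℤ) := by
    funext k
    simp [Finset.sum_apply, Pi.single_apply]
  have h0 : φ (L.mkQ b) = 0 := by
    rw [Submodule.mkQ_apply, (Submodule.Quotient.mk_eq_zero L).2 hb, map_zero]
  rw [e, map_sum, map_sum] at h0
  simpa only [map_smul, smul_eq_mul] using h0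

end Pool.Agent.Lib.MP_e29efe_nt.Sy
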