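import Mathlib

/-! Systems of Smyth relations: statements of the pieces. -/

namespace Pool.Agent.Lib.MP_e29efe_nt.Sy

open Finset

/-- integer vector read as a real vector -/
def toR {κ : Type} (b : κ → ℤ) : κ → ℝ := fun i => (b i : ℝ)

/-- real span of a lattice -/
def spanR {κ : Type} (L : Submodule ℤ (κ → ℤ)) : Submodule ℝ (κ → ℝ) :=
  Submodule.span ℝ (toR '' (L : Set (κ → ℤ)))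

def Sat {d : ℕ} (L : Submodule ℤ (Fin d → ℤ)) : Prop :=
  ∀ (k : ℤ) (b : Fin d → ℤ), k ≠ 0 → k • b ∈ L → b ∈ L

def NoB {d : ℕ} (L : Submodule ℤ (Fin d → ℤ)) : Prop :=
  ∀ b ∈ L, ∀ (i : Fin d) (p : ℕ), p.Prime → (∀ j, j ≠ i → (p : ℤ) ∣ b j) → (p : ℤ) ∣ b i

def Ell {d : ℕ} (L : Submodule ℤ (Fin d → ℤ)) : Prop :=
  ∃ (m : ℕ) (u : Fin d → EuclideanSpace ℝ (Fin m)), (∀ i, ‖u i‖ = 1) ∧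
    ∀ c : Fin d → ℝ, ∑ i, c i • u i = 0 ↔ c ∈ spanR L

def Conj {d : ℕ} (L : Submodule ℤ (Fin (d + 1) → ℤ)) : Prop :=
  ∃ α : Fin (d + 1) → ℂ, α 0 ≠ 0 ∧ IsAlgebraic ℚ (α 0) ∧
    (∀ i, Polynomial.aeval (α i) (minpoly ℚ (α 0)) = 0) ∧ (∀ n : ℕ, 0 < n → α 0 ^ n ≠ 1) ∧
    ∀ b : Fin (d + 1) → ℤ, b ∈ L ↔ ∏ i, α i ^ b i = 1

def Data {d m : ℕ} (a : Fin d → Fin m → ℤ) (s : Fin m → ℝ) : Prop :=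
  (∀ v, 0 < s v) ∧ (∀ i, ∑ v, s v * (a i v : ℝ) ^ 2 = 1) ∧ ∀ i, ∃ v, a i v = 1

def lev {d m : ℕ} (a : Fin d → Fin m → ℤ) (i : Fin d) (x : Fin m → ℤ) : ℕ :=
  (∑ v, a i v * x v).natAbs

/-- mass of `w` on the level set `lv i = t` -/
noncomputable def marg {X : Type} {d : ℕ} (lv : Fin d → X → ℕ) (w : X →₀ ℝ) (i : Fin d) (t : ℕ) :
    ℝ :=
  ∑ x ∈ w.support, if lv i x = t then w x else 0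

/-- almost balanced weights exist -/
def Appr {X : Type} {d : ℕ} (lv : Fin d → X → ℕ) : Prop :=
  ∀ (A : ℕ) (ε : ℝ), 0 < ε → ∀ F : Finset X, ∃ (w : X →₀ ℝ) (B : ℕ), (∀ x, 0 ≤ w x) ∧
    (∀ x ∈ F, 1 / 2 ≤ w x) ∧ (∀ x ∈ w.support, ∀ i, lv i x < B) ∧
    ∀ i j, ∑ t ∈ range B, |marg lv w i t - marg lv w j t| * (1 + (t : ℝ)) ^ A ≤ ε

/-- points that are high in one coordinate only -/
def Pts {X : Type} {d : ℕ} (lv : Fin d → X → ℕ) : Prop :=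
  ∃ (lam : ℝ) (T0 : ℕ), 0 ≤ lam ∧ lam < 1 ∧
    ∀ (i : Fin d) (t : ℕ), T0 < t → ∃ x, lv i x = t ∧ ∀ j, j ≠ i → (lv j x : ℝ) ≤ lam * t

/-- truncated theta sum -/
noncomputable def th (σ : ℝ) (R : ℕ) (θ : ℝ) : ℂ :=
  ∑ n ∈ Icc (-(R : ℤ)) R, (Real.exp (-Real.pi * (n : ℝ) ^ 2 / σ) : ℂ) *
    Complex.exp (2 * Real.pi * Complex.I * (n : ℂ) * (θ : ℂ))

def PhiSt : Prop :=
  ∀ (S : Finset ℝ) (ε : ℝ), 0 < ε → ∃ φ : ℝ →ₗ[ℚ] ℚ, ∀ x ∈ S, |(φ x : ℝ) - x| < ε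

def FlatSt : Prop :=
  (∀ (κ : Type) [Fintype κ] (Γ : Submodule ℤ (κ → ℤ)) (b : κ → ℤ), toR b ∈ spanR Γ →
    ∃ n : ℤ, n ≠ 0 ∧ n • b ∈ Γ) ∧
  ∀ (ι κ : Type) [Fintype ι] [Fintype κ] (Γ : Submodule ℤ (κ → ℤ)) (L : Submodule ℤ (ι → ℤ))
    (T : κ → ι → ℤ), (∀ b : ι → ℤ, (fun k => ∑ i, T k i * b i) ∈ Γ → b ∈ L) →
    ∀ c : ι → ℝ, (fun k => ∑ i, (T k i : ℝ) * c i) ∈ spanR Γ → c ∈ spanR L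

def ThetaSt : Prop :=
  ∀ (σ : ℝ) (R : ℕ) (θ : ℝ), 1 ≤ σ → σ ≤ R → |θ| ≤ 1 / 2 →
    ‖th σ R θ - ((Real.sqrt σ * Real.exp (-Real.pi * σ * θ ^ 2) : ℝ) : ℂ)‖ ≤
      8 * Real.sqrt σ * Real.exp (-Real.pi * σ / 4)

def ApproxSt : Prop :=
  ∀ (d m : ℕ) (a : Fin d → Fin m → ℤ) (s : Fin m → ℝ), Data a s → Appr (lev a)

def PointSt : Prop :=
  ∀ (d m : ℕ) (a : Fin d → Fin m → ℤ) (s : Fin m → ℝ), Data a s →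
    (∀ i j, i ≠ j → a i ≠ a j ∧ a i ≠ -a j) → Pts (lev a)

def PeelSt : Prop :=
  ∀ (X : Type) (d : ℕ) (lv : Fin d → X → ℕ), Pts lv → Appr lv → ∀ F : Finset X,
    ∃ w : X →₀ ℝ, (∀ x, 0 ≤ w x) ∧ (∀ x ∈ F, 0 < w x) ∧ ∀ i j t, marg lv w i t = marg lv w j t

def CoreSt : Prop :=
  ∀ (d m : ℕ) (a : Fin d → Fin m → ℤ) (s : Fin m → ℝ), Data a s →
    ∃ (n : ℕ) (x : Fin n → Fin m → ℤ), (∀ v, ∃ k, x k = Pi.single v 1) ∧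
      ∀ i j, ∃ σ : Equiv.Perm (Fin n), ∀ k, ∑ v, a i v * x k v = ∑ v, a j v * x (σ k) v

def SymSt : Prop :=
  ∀ n : ℕ, ∃ (N : ℕ) (θ : Fin N → ℂ), n ≤ N ∧ (∀ k, θ k ≠ 0) ∧
    (∀ c : Fin N → ℤ, ∏ k, θ k ^ c k = 1 → c = 0) ∧
    ∀ c : Fin N → ℤ, IsAlgebraic ℚ (∏ k, θ k ^ c k) ∧ ∀ σ : Equiv.Perm (Fin N),
      Polynomial.aeval (∏ k, θ (σ k) ^ c k) (minpoly ℚ (∏ k, θ k ^ c k)) = 0

def PrimSt : Prop :=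
  ∀ (d : ℕ) (L : Submodule ℤ (Fin d → ℤ)), Sat L → NoB L → ∀ i : Fin d,
    ∃ y : Fin d → ℤ, y i = 1 ∧ ∀ b ∈ L, ∑ j, b j * y j = 0

def DecompSt : Prop :=
  ∀ (d : ℕ) (L : Submodule ℤ (Fin d → ℤ)), Sat L → NoB L → Ell L →
    ∃ (m : ℕ) (a : Fin d → Fin m → ℤ) (s : Fin m → ℝ), Data a s ∧
      ∀ b : Fin d → ℤ, b ∈ L ↔ ∀ v, ∑ i, b i * a i v = 0

def NecSt : Prop :=
  ∀ (d : ℕ) (L : Submodule ℤ (Fin (d + 1) → ℤ)), Sat L → Conj L → NoB L ∧ Ell L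

def SufSt : Prop :=
  ∀ (d : ℕ) (L : Submodule ℤ (Fin (d + 1) → ℤ)), Sat L → NoB L → Ell L → Conj L

end Pool.Agent.Lib.MP_e29efe_nt.Sy
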