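import Pool.Agent.Lib.MP_e29efe_nt.Sy.St

/-! Sufficiency: building the conjugates. -/

namespace Pool.Agent.Lib.MP_e29efe_nt.Sy

open Finset

namespace Sufx

theorem zpow_sum' {ι : Type} (s : Finset ι) (z : ℂ) (hz : z ≠ 0) (f : ι → ℤ) :
    z ^ (∑ i ∈ s, f i) = ∏ i ∈ s, z ^ f i := by
  classical
  induction s using Finset.induction_on with
  | empty => simp
  | insert a s ha ih => rw [sum_insert ha, prod_insert ha, zpow_add₀ hz, ih]

end Sufx

theorem suf_st (hD : DecompSt) (hC : CoreSt) (hS : SymSt) : SufSt := by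
  classical
  intro d L h1 h2 h3
  obtain ⟨m, a, s, hdat, hL⟩ := hD (d + 1) L h1 h2 h3
  obtain ⟨n, x, hx, hperm⟩ := hC (d + 1) m a s hdat
  obtain ⟨N, θ, hN, hθ0, hind, hgal⟩ := hS n
  let f : Fin n ↪ Fin N := Fin.castLEEmb hN
  let c : Fin (d + 1) → Fin N → ℤ := fun i =>
    Function.extend f (fun k => ∑ v, a i v * x k v) (fun _ => 0)
  have hc1 : ∀ i k, c i (f k) = ∑ v, a i v * x k v := fun i k => f.injective.extend_apply _ _ k
  have hc2 : ∀ i k, (¬ ∃ j, f j = k) → c i k = 0 := fun i k hk => Function.extend_apply' _ _ k hk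
  have hsingle : ∀ i v k, x k = Pi.single v 1 → c i (f k) = a i v := by
    intro i v k hk
    rw [hc1, hk]
    simp [Pi.single_apply]
  refine ⟨fun i => ∏ k, θ k ^ c i k, ?_, (hgal _).1, fun i => ?_, fun r hr h => ?_, fun b => ?_⟩
  · exact prod_ne_zero_iff.mpr (fun k _ => zpow_ne_zero _ (hθ0 k))
  · obtain ⟨τ, hτ⟩ := hperm 0 i
    have := (hgal (c 0)).2 (τ.viaFintypeEmbedding f)
    have e : ∏ k, θ (τ.viaFintypeEmbedding f k) ^ c 0 k = ∏ k, θ k ^ c i k := by
      rw [← Equiv.prod_comp (τ.viaFintypeEmbedding f) (fun k => θ k ^ c i k)]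
      refine prod_congr rfl (fun k _ => ?_)
      congr 1
      by_cases hk : ∃ j, f j = k
      · obtain ⟨j, rfl⟩ := hk
        rw [Equiv.Perm.viaFintypeEmbedding_apply_image, hc1, hc1, hτ]
      · rw [Equiv.Perm.viaFintypeEmbedding_apply_notMem_range _ _ hk, hc2 _ _ hk, hc2 _ _ hk]
    rw [e] at this
    exact this
  · have h4 : ∏ k, θ k ^ (c 0 k * (r : ℤ)) = 1 := by
      rw [← h, ← prod_pow]
      exact prod_congr rfl (fun k _ => by rw [zpow_mul, zpow_natCast])
    obtain ⟨v, hv⟩ := hdat.2.2 0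
    obtain ⟨k, hk⟩ := hx v
    have h5 := congrFun (hind _ h4) (f k)
    simp only [hsingle 0 v k hk, hv, one_mul, Pi.zero_apply] at h5
    omega
  · have e : ∏ i, (∏ k, θ k ^ c i k) ^ b i = ∏ k, θ k ^ (∑ i, b i * c i k) := by
      simp only [← prod_zpow, ← zpow_mul]
      rw [prod_comm]
      refine prod_congr rfl (fun k _ => ?_)
      rw [Sufx.zpow_sum' _ _ (hθ0 k)]
      exact prod_congr rfl (fun i _ => by rw [mul_comm])
    rw [hL, e]
    constructor
    · intro hb
      refine prod_eq_one (fun k _ => ?_)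
      have : ∑ i, b i * c i k = 0 := by
        by_cases hk : ∃ j, f j = k
        · obtain ⟨j, rfl⟩ := hk
          simp only [hc1, mul_sum]
          rw [sum_comm]
          refine sum_eq_zero (fun v _ => ?_)
          simp only [← mul_assoc]
          rw [← sum_mul, hb v, zero_mul]
        · simp [hc2 _ _ hk]
      rw [this, zpow_zero]
    · intro hb v
      obtain ⟨k, hk⟩ := hx v
      have h5 := congrFun (hind _ hb) (f k)
      simpa only [fun i => hsingle i v k hk, Pi.zero_apply] using h5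

end Pool.Agent.Lib.MP_e29efe_nt.Sy
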