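import Pool.Agent.Lib.MP_e29efe_nt.Sy.St

/-! A polynomial with full symmetric group and independent roots. -/

namespace Pool.Agent.Lib.MP_e29efe_nt.Sy

open Finset Polynomial

namespace Symx

/-- the integer polynomial -/
noncomputable def FZ (K : ℕ) : ℤ[X] :=
  (X ^ 2 + C 4) * ∏ j ∈ range K, (X - C (2 * (j : ℤ))) - C 2

/-- the rational polynomial -/
noncomputable def FQ (K : ℕ) : ℚ[X] := (FZ K).map (algebraMap ℤ ℚ)

theorem g_monic (K : ℕ) :
    ((X ^ 2 + C 4) * ∏ j ∈ range K, (X - C (2 * (j : ℤ))) : ℤ[X]).Monic :=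
  (monic_X_pow_add_C _ (by norm_num)).mul (monic_prod_of_monic _ _ fun _ _ => monic_X_sub_C _)

theorem g_deg (K : ℕ) :
    ((X ^ 2 + C 4) * ∏ j ∈ range K, (X - C (2 * (j : ℤ))) : ℤ[X]).natDegree = K + 2 := by
  rw [(monic_X_pow_add_C _ (by norm_num)).natDegree_mul
    (monic_prod_of_monic _ _ fun _ _ => monic_X_sub_C _), natDegree_X_pow_add_C,
    natDegree_prod_of_monic _ _ (fun _ _ => monic_X_sub_C _)]
  simp only [natDegree_X_sub_C, sum_const, card_range, smul_eq_mul, mul_one]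
  ring

theorem FZ_deg (K : ℕ) : (FZ K).natDegree = K + 2 := by
  rw [FZ, natDegree_sub_C, g_deg]

theorem FZ_monic (K : ℕ) : (FZ K).Monic := by
  apply (g_monic K).sub_of_left
  refine lt_of_le_of_lt degree_C_le ?_
  rw [degree_eq_natDegree (g_monic K).ne_zero, g_deg]
  exact_mod_cast Nat.succ_pos _

theorem FZ_aeval {A : Type} [CommRing A] (K : ℕ) (z : A) :
    aeval z (FZ K) = (z ^ 2 + 4) * ∏ j ∈ range K, (z - 2 * (j : A)) - 2 := by
  simp [FZ, map_prod, map_ofNat]

theorem FZ_irr (K : ℕ) (hK : 0 < K) : Irreducible (FZ K) := by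
  have hp : (Ideal.span {(2 : ℤ)}).IsPrime :=
    (Ideal.span_singleton_prime (by norm_num)).mpr Int.prime_two
  have hm : (FZ K).map (Int.castRingHom (ZMod 2)) = X ^ (K + 2) := by
    have h2 : (2 : ZMod 2) = 0 := rfl
    have h4 : (4 : ZMod 2) = 0 := rfl
    have e : ∀ j : ℕ, (Int.castRingHom (ZMod 2)) (2 * (j : ℤ)) = 0 := by
      intro j; simp [h2]
    have e2 : (Int.castRingHom (ZMod 2)) 2 = 0 := by simp [h2]
    have e4 : (Int.castRingHom (ZMod 2)) 4 = 0 := by simp [h4]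
    simp only [FZ, Polynomial.map_sub, Polynomial.map_mul, Polynomial.map_add, Polynomial.map_pow,
      Polynomial.map_prod, map_X, map_C, e, e2, e4, C_0, sub_zero, add_zero, prod_const,
      card_range]
    ring
  refine irreducible_of_eisenstein_criterion hp ?_ ?_ ?_ ?_ (FZ_monic K).isPrimitive
  · rw [(FZ_monic K).leadingCoeff, Ideal.mem_span_singleton]; norm_num
  · intro n hn
    rw [degree_eq_natDegree (FZ_monic K).ne_zero, FZ_deg] at hn
    have hn' : n < K + 2 := by exact_mod_cast hn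
    have := congrArg (fun p => coeff p n) hm
    simp only [coeff_map, coeff_X_pow, if_neg hn'.ne, eq_intCast] at this
    rw [Ideal.mem_span_singleton]
    exact_mod_cast (ZMod.intCast_zmod_eq_zero_iff_dvd _ 2).mp this
  · rw [degree_eq_natDegree (FZ_monic K).ne_zero, FZ_deg]
    exact_mod_cast Nat.succ_pos _
  · have h0 : (FZ K).coeff 0 = -2 := by
      rw [coeff_zero_eq_eval_zero, ← coe_aeval_eq_eval, FZ_aeval,
        prod_eq_zero (mem_range.mpr hK) (by simp)]
      simp
    rw [h0, Ideal.span_singleton_pow, Ideal.mem_span_singleton]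
    norm_num

theorem FQ_irr (K : ℕ) (hK : 0 < K) : Irreducible (FQ K) :=
  ((FZ_monic K).irreducible_iff_irreducible_map_fraction_map).mp (FZ_irr K hK)

theorem FQ_monic (K : ℕ) : (FQ K).Monic := (FZ_monic K).map _

theorem FQ_deg (K : ℕ) : (FQ K).natDegree = K + 2 := by
  rw [FQ, (FZ_monic K).natDegree_map, FZ_deg]

theorem FQ_aeval {A : Type} [Field A] [Algebra ℚ A] (K : ℕ) (z : A) :
    aeval z (FQ K) = (z ^ 2 + 4) * ∏ j ∈ range K, (z - 2 * (j : A)) - 2 := by
  rw [FQ, aeval_map_algebraMap, FZ_aeval]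

theorem real_root (K t : ℕ) (ht : t < K) :
    ∃ r : ℝ, 2 * (t : ℝ) - 1 < r ∧ r < 2 * t + 1 ∧ aeval r (FQ K) = 0 := by
  let h : ℝ → ℝ := fun z => ∏ j ∈ range K, (z - 2 * (j : ℝ))
  have hodd : ∀ a : ℤ, 1 ≤ |h (2 * (a : ℝ) + 1)| := by
    intro a
    simp only [h]
    rw [abs_prod]
    calc (1 : ℝ) = ∏ _j ∈ range K, (1 : ℝ) := by simp
      _ ≤ _ := by
        refine prod_le_prod (fun _ _ => zero_le_one) (fun j _ => ?_)
        have : (1 : ℤ) ≤ |2 * a + 1 - 2 * (j : ℤ)| := Int.one_le_abs (by omega)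
        exact_mod_cast this
  have hneg : h (2 * t - 1) * h (2 * t + 1) < 0 := by
    simp only [h]
    rw [← prod_mul_distrib, ← mul_prod_erase _ _ (mem_range.mpr ht)]
    apply mul_neg_of_neg_of_pos
    · nlinarith
    · refine prod_pos (fun j hj => ?_)
      have hj' : j ≠ t := (mem_erase.mp hj).1
      have : (0 : ℤ) < (2 * t - 1 - 2 * j) * (2 * t + 1 - 2 * j) := by
        rcases lt_or_gt_of_ne hj' with h1 | h1
        · exact mul_pos (by omega) (by omega)
        · exact mul_pos_of_neg_of_neg (by omega) (by omega)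
      exact_mod_cast this
  have h1 := hodd ((t : ℤ) - 1)
  have h2 := hodd (t : ℤ)
  have e1 : (2 * (((t : ℤ) - 1 : ℤ) : ℝ) + 1) = 2 * t - 1 := by push_cast; ring
  have e2 : (2 * (((t : ℤ) : ℤ) : ℝ) + 1) = 2 * t + 1 := by push_cast; ring
  rw [e1] at h1
  rw [e2] at h2
  let f : ℝ → ℝ := fun z => (z ^ 2 + 4) * h z - 2
  have hf : Continuous f := by
    simp only [f, h]
    fun_prop
  have hpos : ∀ z, 1 ≤ h z → 0 < f z := by
    intro z hz; simp only [f]; nlinarith [sq_nonneg z]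
  have hng : ∀ z, h z ≤ -1 → f z < 0 := by
    intro z hz; simp only [f]; nlinarith [sq_nonneg z]
  have hle : (2 * (t : ℝ) - 1) ≤ 2 * t + 1 := by linarith
  have : ∃ r ∈ Set.Ioo (2 * (t : ℝ) - 1) (2 * t + 1), f r = 0 := by
    rcases le_abs.mp h1 with h1 | h1 <;> rcases le_abs.mp h2 with h2 | h2
    · nlinarith
    · exact intermediate_value_Ioo' hle hf.continuousOn
        ⟨hng _ (by linarith), hpos _ h1⟩
    · exact intermediate_value_Ioo hle hf.continuousOn
        ⟨hng _ (by linarith), hpos _ h2⟩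
    · nlinarith
  obtain ⟨r, hr, hr0⟩ := this
  exact ⟨r, hr.1, hr.2, by rw [FQ_aeval]; exact hr0⟩

theorem root_coe (K : ℕ) (r : ℝ) (h : aeval r (FQ K) = 0) : aeval (r : ℂ) (FQ K) = 0 := by
  rw [FQ_aeval] at h ⊢
  exact_mod_cast h

theorem prod_roots (K : ℕ) (hK : 0 < K) (z : ℂ) :
    aeval z (FQ K) = ∏ r : (FQ K).rootSet ℂ, (z - (r : ℂ)) := by
  classical
  rw [(IsAlgClosed.splits _).aeval_eq_prod_aroots_of_monic (FQ_monic K)]
  have hnd : ((FQ K).aroots ℂ).Nodup := nodup_roots (FQ_irr K hK).separable.map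
  have e : ∏ r : (FQ K).rootSet ℂ, (z - (r : ℂ)) = ∏ r ∈ ((FQ K).aroots ℂ).toFinset, (z - r) := by
    refine (prod_subtype _ (fun x => ?_) (fun r => z - r)).symm
    rw [rootSet_def, mem_coe]
  rw [e, prod_eq_multiset_prod, Multiset.toFinset_val, hnd.dedup]

theorem card_C (K : ℕ) (hK : 0 < K) : Fintype.card ((FQ K).rootSet ℂ) = K + 2 := by
  rw [card_rootSet_eq_natDegree (FQ_irr K hK).separable (IsAlgClosed.splits _), FQ_deg]

theorem card_R_ge (K : ℕ) : K ≤ Fintype.card ((FQ K).rootSet ℝ) := by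
  choose r h1 h2 h3 using fun t : Fin K => real_root K t t.2
  have := Fintype.card_le_of_injective
    (fun t : Fin K => (⟨r t, mem_rootSet.mpr ⟨(FQ_monic K).ne_zero, h3 t⟩⟩ : (FQ K).rootSet ℝ))
    (fun s t hst => by
      have e : r s = r t := congrArg Subtype.val hst
      have a1 : ((s : ℕ) : ℝ) < (t : ℕ) + 1 := by linarith [h1 s, h2 t]
      have a2 : ((t : ℕ) : ℝ) < (s : ℕ) + 1 := by linarith [h1 t, h2 s]
      have b1 : (s : ℕ) < t + 1 := by exact_mod_cast a1
      have b2 : (t : ℕ) < s + 1 := by exact_mod_cast a2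
      exact Fin.ext (by omega))
  simpa using this

theorem card_R_lt (K : ℕ) (hK : 0 < K) :
    Fintype.card ((FQ K).rootSet ℝ) + 1 ≤ Fintype.card ((FQ K).rootSet ℂ) := by
  let ι : (FQ K).rootSet ℝ → (FQ K).rootSet ℂ := fun r =>
    ⟨((r : ℝ) : ℂ), mem_rootSet.mpr ⟨(FQ_monic K).ne_zero, root_coe K r (mem_rootSet.mp r.2).2⟩⟩
  have hi : Function.Injective ι := fun a b hab => by
    have : ((a : ℝ) : ℂ) = ((b : ℝ) : ℂ) := congrArg Subtype.val hab
    exact Subtype.ext (by exact_mod_cast this)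
  apply Fintype.card_lt_of_injective_not_surjective ι hi
  intro hs
  have h1 := prod_roots K hK (2 * Complex.I)
  rw [FQ_aeval] at h1
  have e : (2 * Complex.I) ^ 2 + 4 = 0 := by rw [mul_pow, Complex.I_sq]; norm_num
  rw [e, zero_mul, zero_sub] at h1
  have h2 := congrArg norm h1
  rw [norm_prod] at h2
  have h3 : ∏ _r : (FQ K).rootSet ℂ, (2 : ℝ) ≤ ∏ r : (FQ K).rootSet ℂ, ‖2 * Complex.I - (r : ℂ)‖ := by
    refine prod_le_prod (fun _ _ => by norm_num) (fun r _ => ?_)
    obtain ⟨a, rfl⟩ := hs r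
    have := Complex.abs_im_le_norm (2 * Complex.I - ((a : ℝ) : ℂ))
    simpa [ι] using this
  rw [← h2, prod_const, card_univ, card_C K hK] at h3
  have h4 : (1 : ℝ) ≤ 2 ^ K := one_le_pow₀ (by norm_num)
  simp only [norm_neg, Complex.norm_ofNat, pow_add] at h3
  linarith

end Symx

open Symx in
theorem sym_st : SymSt := by
  classical
  intro n
  obtain ⟨p, hp1, hp⟩ := Nat.exists_infinite_primes (n + 4)
  obtain ⟨K, rfl⟩ : ∃ K, p = K + 2 := ⟨p - 2, by omega⟩
  have hK : 0 < K := by omega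
  have : Fact (((FQ K).map (algebraMap ℚ ℂ)).Splits) := Gal.splits_ℚ_ℂ
  have hb : Function.Bijective (Gal.galActionHom (FQ K) ℂ) :=
    Gal.galActionHom_bijective_of_prime_degree' (FQ_irr K hK) (by rw [FQ_deg]; exact hp)
      (card_R_lt K hK) (by rw [card_C K hK]; have := card_R_ge K; omega)
  let e : Fin (K + 2) ≃ (FQ K).rootSet ℂ := (Fintype.equivFinOfCardEq (card_C K hK)).symm
  let θ : Fin (K + 2) → ℂ := fun k => (e k : ℂ)
  let ι := IsScalarTower.toAlgHom ℚ (FQ K).SplittingField ℂ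
  have hι : Function.Injective ι := RingHom.injective (ι : (FQ K).SplittingField →+* ℂ)
  let β : Fin (K + 2) → (FQ K).SplittingField := fun k =>
    ((Gal.rootsEquivRoots (FQ K) ℂ).symm (e k) : (FQ K).SplittingField)
  have hβ : ∀ k, ι (β k) = θ k := by
    intro k
    have := (Gal.rootsEquivRoots (FQ K) ℂ).apply_symm_apply (e k)
    exact congrArg Subtype.val this
  have hg : ∀ σ : Equiv.Perm (Fin (K + 2)),
      ∃ g : (FQ K).SplittingField ≃ₐ[ℚ] (FQ K).SplittingField, ∀ k, g (β k) = β (σ k) := by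
    intro σ
    obtain ⟨g, hg⟩ := hb.2 (e.permCongr σ)
    refine ⟨g, fun k => ?_⟩
    have h1 : g • (e k) = e (σ k) := by
      have := congrArg (fun τ : Equiv.Perm ((FQ K).rootSet ℂ) => τ (e k)) hg
      simpa [Gal.galActionHom] using this
    rw [Gal.smul_def, ← Equiv.eq_symm_apply] at h1
    exact congrArg Subtype.val h1
  have hprod : ∏ k, ‖θ k‖ = 2 := by
    have h1 := prod_roots K hK 0
    rw [FQ_aeval, prod_eq_zero (mem_range.mpr hK) (by simp)] at h1
    have h2 := congrArg norm h1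
    rw [norm_prod] at h2
    simp only [mul_zero, zero_sub, norm_neg, Complex.norm_ofNat] at h2
    rw [h2]
    exact e.prod_comp (fun r => ‖(r : ℂ)‖)
  have hθ0 : ∀ k, θ k ≠ 0 := by
    intro k hk
    rw [prod_eq_zero (mem_univ k) (by rw [hk, norm_zero])] at hprod
    norm_num at hprod
  have hmap : ∀ (c : Fin (K + 2) → ℤ) (σ : Equiv.Perm (Fin (K + 2))),
      ι (∏ k, β (σ k) ^ c k) = ∏ k, θ (σ k) ^ c k := by
    intro c σ
    simp only [map_prod, map_zpow₀, hβ]
  refine ⟨K + 2, θ, by omega, hθ0, fun c hc => ?_, fun c => ⟨?_, fun σ => ?_⟩⟩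
  · have h1 : ∀ σ : Equiv.Perm (Fin (K + 2)),
        ∑ k, (c k : ℝ) * Real.log ‖θ (σ k)‖ = 0 := by
      intro σ
      obtain ⟨g, hg⟩ := hg σ
      have h2 : ∏ k, β k ^ c k = 1 := by
        apply hι
        rw [map_one, ← hc]
        exact hmap c 1
      have h3 : ∏ k, β (σ k) ^ c k = 1 := by
        have := congrArg g h2
        simpa only [map_prod, map_zpow₀, hg, map_one] using this
      have h4 : ∏ k, θ (σ k) ^ c k = 1 := by rw [← hmap, h3, map_one]
      have h5 := congrArg (fun z : ℂ => Real.log ‖z‖) h4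
      simp only [norm_prod, norm_zpow, norm_one, Real.log_one] at h5
      rw [Real.log_prod (fun k _ => zpow_ne_zero _ (norm_ne_zero_iff.mpr (hθ0 _)))] at h5
      simpa only [Real.log_zpow] using h5
    obtain ⟨r0, a0, b0, c0⟩ := real_root K 0 hK
    obtain ⟨r1, a1, b1, c1⟩ := real_root K 1 (by omega)
    obtain ⟨j0, hj0⟩ : ∃ j, θ j = r0 :=
      ⟨e.symm ⟨r0, mem_rootSet.mpr ⟨(FQ_monic K).ne_zero, root_coe K r0 c0⟩⟩, by simp [θ]⟩
    obtain ⟨j1, hj1⟩ : ∃ j, θ j = r1 :=
      ⟨e.symm ⟨r1, mem_rootSet.mpr ⟨(FQ_monic K).ne_zero, root_coe K r1 c1⟩⟩, by simp [θ]⟩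
    have hl0 : Real.log ‖θ j0‖ ≤ 0 := by
      apply Real.log_nonpos (norm_nonneg _)
      rw [hj0, Complex.norm_real, Real.norm_eq_abs, abs_le]
      constructor <;> simp only [Nat.cast_zero] at a0 b0 <;> linarith
    have hl1 : 0 < Real.log ‖θ j1‖ := by
      apply Real.log_pos
      rw [hj1, Complex.norm_real, Real.norm_eq_abs, lt_abs]
      left
      simp only [Nat.cast_one] at a1
      linarith
    have hj : j0 ≠ j1 := fun h => by rw [h] at hl0; linarith
    have hconst : ∀ a b, c a = c b := by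
      intro a b
      by_contra hab
      have hab' : a ≠ b := fun h => hab (by rw [h])
      obtain ⟨σ, h0, h1'⟩ : ∃ σ : Equiv.Perm (Fin (K + 2)), σ a = j0 ∧ σ b = j1 := by
        refine ⟨(Equiv.swap a j0).trans (Equiv.swap (Equiv.swap a j0 b) j1), ?_, by simp⟩
        have : j0 ≠ Equiv.swap a j0 b := by
          intro h
          apply hab'
          apply (Equiv.swap a j0).injective
          rw [← h, Equiv.swap_apply_left]
        simp [Equiv.swap_apply_of_ne_of_ne this hj]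
      have s1 := h1 σ
      have s2 := h1 ((Equiv.swap a b).trans σ)
      have s3 : ∑ k, ((c k : ℝ) * Real.log ‖θ (σ k)‖ -
          (c k : ℝ) * Real.log ‖θ (((Equiv.swap a b).trans σ) k)‖) = 0 := by
        rw [sum_sub_distrib, s1, s2, sub_zero]
      rw [sum_eq_add_of_mem a b (mem_univ _) (mem_univ _) hab' (fun k _ hk => by
        simp [Equiv.swap_apply_of_ne_of_ne hk.1 hk.2])] at s3
      simp only [Equiv.trans_apply, Equiv.swap_apply_left, Equiv.swap_apply_right, h0, h1'] at s3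
      have s4 : ((c a : ℝ) - c b) * (Real.log ‖θ j0‖ - Real.log ‖θ j1‖) = 0 := by linarith
      rcases mul_eq_zero.mp s4 with s5 | s5
      · exact hab (by exact_mod_cast sub_eq_zero.mp s5)
      · linarith
    funext a
    have s1 := h1 1
    simp only [Equiv.Perm.one_apply, fun k => hconst k a] at s1
    rw [← mul_sum, ← Real.log_prod (fun k _ => norm_ne_zero_iff.mpr (hθ0 _)), hprod] at s1
    have hl : Real.log 2 ≠ 0 := (Real.log_pos (by norm_num)).ne'
    exact_mod_cast (mul_eq_zero.mp s1).resolve_right hl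
  · have := hmap c 1
    simp only [Equiv.Perm.one_apply] at this
    rw [← this]
    exact (Algebra.IsAlgebraic.isAlgebraic (R := ℚ) _).algHom ι
  · obtain ⟨g, hg⟩ := hg σ
    have h1 := hmap c 1
    simp only [Equiv.Perm.one_apply] at h1
    have h3 : ∏ k, β (σ k) ^ c k = g (∏ k, β k ^ c k) := by
      simp only [map_prod, map_zpow₀, hg]
    rw [← hmap, ← h1, minpoly.algHom_eq ι hι, h3, aeval_algHom_apply, aeval_algHom_apply,
      minpoly.aeval, map_zero, map_zero]

end Pool.Agent.Lib.MP_e29efe_nt.Sy
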