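import Pool.Agent.Lib.MP_e29efe_nt.Sy.St

/-! The truncated theta sum. -/

namespace Pool.Agent.Lib.MP_e29efe_nt.Sy

open Finset

theorem theta_geo : HasSum (fun n : ℤ => (1 / 3 : ℝ) ^ n.natAbs) 2 := by
  have h1 : HasSum (fun n : ℕ => (1 / 3 : ℝ) ^ n) (1 - 1 / 3)⁻¹ :=
    hasSum_geometric_of_lt_one (by norm_num) (by norm_num)
  have h2 := h1.mul_left (1 / 3 : ℝ)
  have h3 : HasSum (fun n : ℤ => (1 / 3 : ℝ) ^ n.natAbs)
      ((1 - 1 / 3)⁻¹ + 1 / 3 * (1 - 1 / 3)⁻¹) := by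
    apply HasSum.of_nat_of_neg_add_one
    · simpa using h1
    · have e : (fun n : ℕ => (1 / 3 : ℝ) ^ (-((n : ℤ) + 1)).natAbs) =
          fun n : ℕ => 1 / 3 * (1 / 3 : ℝ) ^ n := by
        funext n
        have : (-((n : ℤ) + 1)).natAbs = n + 1 := by omega
        rw [this, pow_succ]; ring
      rw [e]; exact h2
  convert h3 using 1
  norm_num

theorem theta_tail (f : ℤ → ℂ) (s : Finset ℤ) (c : ℝ) (hc : 0 ≤ c)
    (h : ∀ n, n ∉ s → ‖f n‖ ≤ c * (1 / 3 : ℝ) ^ n.natAbs) :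
    ‖∑' n, f n - ∑ n ∈ s, f n‖ ≤ c * 2 := by
  classical
  have hb := theta_geo.mul_left c
  have hg : ∀ n, ‖(if n ∈ s then 0 else f n)‖ ≤ c * (1 / 3 : ℝ) ^ n.natAbs := by
    intro n
    split_ifs with hn
    · simp only [norm_zero]; positivity
    · exact h n hn
  have hs : Summable (fun n => if n ∈ s then 0 else f n) :=
    Summable.of_norm_bounded hb.summable hg
  have h2 : HasSum (fun n => if n ∈ s then f n else 0) (∑ n ∈ s, f n) := by
    have := hasSum_sum_of_ne_finset_zero (f := fun n => if n ∈ s then f n else 0) (s := s)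
      (L := SummationFilter.unconditional ℤ) (fun n hn => by simp [hn])
    convert this using 1
    exact Finset.sum_congr rfl (fun n hn => by simp [hn])
  have h3 := hs.hasSum.add h2
  have h4 : (fun n => (if n ∈ s then 0 else f n) + (if n ∈ s then f n else 0)) = f := by
    funext n; split_ifs <;> simp
  rw [h4] at h3
  rw [h3.tsum_eq, add_sub_cancel_right]
  exact tsum_of_norm_bounded hb hg

theorem theta_exp (x : ℝ) (k : ℕ) (h : 2 * (k : ℝ) ≤ x) : Real.exp (-x) ≤ (1 / 3 : ℝ) ^ k := by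
  have h1 : Real.exp (-2) ≤ 1 / 3 := by
    have := Real.add_one_le_exp 2
    rw [Real.exp_neg, one_div]
    exact inv_anti₀ (by norm_num) (by linarith)
  calc Real.exp (-x) ≤ Real.exp ((k : ℝ) * (-2)) := Real.exp_le_exp.mpr (by linarith)
    _ = Real.exp (-2) ^ k := Real.exp_nat_mul _ _
    _ ≤ _ := pow_le_pow_left₀ (Real.exp_pos _).le h1 k

theorem theta_st : ThetaSt := by
  intro σ R θ hσ hR hθ
  have hσ0 : 0 < σ := by linarith
  have hpi := Real.pi_gt_three
  have hsq : 1 ≤ Real.sqrt σ := Real.one_le_sqrt.mpr hσ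
  have key := Complex.tsum_exp_neg_quadratic (a := ((σ⁻¹ : ℝ) : ℂ))
    (by rw [Complex.ofReal_re]; positivity) (Complex.I * θ)
  set E := Real.exp (-Real.pi * σ / 4) with hE
  have hE0 : 0 < E := Real.exp_pos _
  let f : ℤ → ℂ := fun n => (Real.exp (-Real.pi * (n : ℝ) ^ 2 / σ) : ℂ) *
    Complex.exp (2 * Real.pi * Complex.I * (n : ℂ) * (θ : ℂ))
  let g : ℤ → ℂ := fun n => (Real.exp (-Real.pi * σ * ((n : ℝ) - θ) ^ 2) : ℂ)
  have hσc : (σ : ℂ) ≠ 0 := by exact_mod_cast hσ0.ne'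
  have hfg : ∑' n, f n = (Real.sqrt σ : ℂ) * ∑' n, g n := by
    have e1 : (1 : ℂ) / ((σ⁻¹ : ℝ) : ℂ) ^ (1 / 2 : ℂ) = (Real.sqrt σ : ℂ) := by
      have : ((σ⁻¹ : ℝ) : ℂ) ^ (1 / 2 : ℂ) = (((σ⁻¹ : ℝ) ^ (1 / 2 : ℝ) : ℝ) : ℂ) := by
        rw [Complex.ofReal_cpow (by positivity)]; norm_num
      rw [this, ← Real.sqrt_eq_rpow, Real.sqrt_inv]
      push_cast
      rw [one_div, inv_inv]
    rw [e1] at key
    convert key using 2
    · funext n
      simp only [f]
      rw [Complex.ofReal_exp, ← Complex.exp_add]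
      congr 1
      push_cast
      field_simp
    · congr 1
      funext n
      simp only [g]
      rw [Complex.ofReal_exp]
      congr 1
      push_cast
      rw [← mul_assoc, Complex.I_mul_I]
      field_simp
      ring
  have hA : ‖∑' n, g n - ∑ n ∈ ({0} : Finset ℤ), g n‖ ≤ (3 * E) * 2 := by
    apply theta_tail g _ _ (by positivity)
    intro n hn
    have hn0 : n ≠ 0 := by simpa using hn
    obtain ⟨k, hk⟩ : ∃ k : ℕ, n.natAbs = k + 1 := ⟨n.natAbs - 1, by omega⟩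
    have habs : |(n : ℝ)| = k + 1 := by
      have : ((n.natAbs : ℤ) : ℝ) = |(n : ℝ)| := by rw [Int.natCast_natAbs, Int.cast_abs]
      rw [← this, hk]; push_cast; ring
    have hk0 : (0 : ℝ) ≤ k := Nat.cast_nonneg k
    have h1 : (k : ℝ) + 1 / 2 ≤ |(n : ℝ) - θ| := by
      have := abs_sub_abs_le_abs_sub (n : ℝ) θ
      linarith
    have h2 : (k : ℝ) + 1 / 4 ≤ ((n : ℝ) - θ) ^ 2 := by
      rw [← sq_abs]; nlinarith
    simp only [g]
    rw [Complex.norm_real, Real.norm_eq_abs, abs_of_pos (Real.exp_pos _), hk, pow_succ (1 / 3 : ℝ)]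
    have h3 := theta_exp (Real.pi * σ * k) k (by
      have : 3 ≤ Real.pi * σ := by nlinarith
      nlinarith)
    have h4 : Real.exp (-Real.pi * σ * ((n : ℝ) - θ) ^ 2) ≤ E * Real.exp (-(Real.pi * σ * k)) := by
      rw [hE, ← Real.exp_add]
      apply Real.exp_le_exp.mpr
      have : 0 < Real.pi * σ := by positivity
      nlinarith
    have h5 := mul_le_mul_of_nonneg_left h3 hE0.le
    linarith
  have hB : ‖∑' n, f n - ∑ n ∈ Icc (-(R : ℤ)) R, f n‖ ≤ E * 2 := by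
    apply theta_tail f _ _ hE0.le
    intro n hn
    have hn1 : R < n.natAbs := by
      simp only [mem_Icc, not_and_or, not_le] at hn
      omega
    have hn2 : σ ≤ (n.natAbs : ℝ) := hR.trans (by exact_mod_cast hn1.le)
    have hsqn : (n : ℝ) ^ 2 = (n.natAbs : ℝ) ^ 2 := by
      have : ((n.natAbs : ℤ) : ℝ) = |(n : ℝ)| := by rw [Int.natCast_natAbs, Int.cast_abs]
      rw [← sq_abs, ← this]; norm_cast
    have hnorm : ‖Complex.exp (2 * Real.pi * Complex.I * (n : ℂ) * (θ : ℂ))‖ = 1 := by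
      have : 2 * Real.pi * Complex.I * (n : ℂ) * (θ : ℂ) =
          ((2 * Real.pi * n * θ : ℝ) : ℂ) * Complex.I := by push_cast; ring
      rw [this, Complex.norm_exp_ofReal_mul_I]
    simp only [f]
    rw [norm_mul, hnorm, mul_one, Complex.norm_real, Real.norm_eq_abs,
      abs_of_pos (Real.exp_pos _), hsqn]
    set k : ℝ := (n.natAbs : ℝ) with hk
    have h3 := theta_exp (3 * Real.pi * k / 4) n.natAbs (by rw [← hk]; nlinarith)
    have h4 : Real.exp (-Real.pi * k ^ 2 / σ) ≤ E * Real.exp (-(3 * Real.pi * k / 4)) := by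
      rw [hE, ← Real.exp_add]
      apply Real.exp_le_exp.mpr
      have h6 : k ≤ k ^ 2 / σ := by rw [le_div_iff₀ hσ0]; nlinarith
      have h7 : -Real.pi * k ^ 2 / σ = -Real.pi * (k ^ 2 / σ) := by ring
      rw [h7]; nlinarith
    exact h4.trans (mul_le_mul_of_nonneg_left h3 hE0.le)
  have e2 : th σ R θ - ((Real.sqrt σ * Real.exp (-Real.pi * σ * θ ^ 2) : ℝ) : ℂ) =
      (Real.sqrt σ : ℂ) * (∑' n, g n - ∑ n ∈ ({0} : Finset ℤ), g n) -
        (∑' n, f n - ∑ n ∈ Icc (-(R : ℤ)) R, f n) := by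
    have e3 : th σ R θ = ∑ n ∈ Icc (-(R : ℤ)) R, f n := rfl
    have e4 : g 0 = (Real.exp (-Real.pi * σ * θ ^ 2) : ℂ) := by
      simp only [g]; congr 2; push_cast; ring
    rw [hfg, sum_singleton, e3, e4, Complex.ofReal_mul]
    ring
  rw [e2]
  refine (norm_sub_le _ _).trans ?_
  rw [norm_mul, Complex.norm_real, Real.norm_eq_abs, abs_of_nonneg (Real.sqrt_nonneg _)]
  have := mul_le_mul_of_nonneg_left hA (Real.sqrt_nonneg σ)
  nlinarith

end Pool.Agent.Lib.MP_e29efe_nt.Sy
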