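import Pool.Agent.Lib.MP_e29efe_nt.Sy.Kq
import Pool.Agent.Lib.MP_e29efe_nt.Sy.Suf

/-! Relation lattices that need not be saturated. -/

namespace Pool.Agent.Lib.MP_e29efe_nt.Sy

open Finset Polynomial

/-- the saturation of a lattice -/
def satS {d : ℕ} (L : Submodule ℤ (Fin d → ℤ)) : Submodule ℤ (Fin d → ℤ) where
  carrier := {b | ∃ k : ℤ, k ≠ 0 ∧ k • b ∈ L}
  zero_mem' := ⟨1, one_ne_zero, by simp⟩
  add_mem' := by
    rintro a b ⟨k, hk, ha⟩ ⟨l, hl, hb⟩
    refine ⟨k * l, mul_ne_zero hk hl, ?_⟩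
    rw [smul_add]
    refine L.add_mem ?_ ?_
    · rw [mul_comm, mul_smul]; exact L.smul_mem _ ha
    · rw [mul_smul]; exact L.smul_mem _ hb
  smul_mem' := by
    rintro c b ⟨k, hk, hb⟩
    exact ⟨k, hk, by rw [smul_comm]; exact L.smul_mem _ hb⟩

/-- the quotient of the saturation by the lattice is cyclic -/
def Cyc {d : ℕ} (L : Submodule ℤ (Fin d → ℤ)) : Prop :=
  ∃ g ∈ satS L, ∀ b ∈ satS L, ∃ t : ℤ, b - t • g ∈ L

namespace Torx

variable {d : ℕ}

theorem sat_satS (L : Submodule ℤ (Fin d → ℤ)) : Sat (satS L) := by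
  rintro k b hk ⟨l, hl, hb⟩
  exact ⟨l * k, mul_ne_zero hl hk, by rwa [mul_smul]⟩

theorem le_satS (L : Submodule ℤ (Fin d → ℤ)) : L ≤ satS L := fun b hb =>
  ⟨1, one_ne_zero, by simpa using hb⟩

theorem span_satS (L : Submodule ℤ (Fin d → ℤ)) : spanR (satS L) = spanR L := by
  refine le_antisymm (Submodule.span_le.2 ?_) (Submodule.span_mono (Set.image_mono (le_satS L)))
  rintro _ ⟨b, ⟨k, hk, hb⟩, rfl⟩
  have e : toR b = (k : ℝ)⁻¹ • toR (k • b) := by
    funext i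
    have : (k : ℝ) ≠ 0 := by exact_mod_cast hk
    simp [toR, this]
  rw [e]
  exact Submodule.smul_mem _ _ (Submodule.subset_span ⟨_, hb, rfl⟩)

theorem ell_iff (L : Submodule ℤ (Fin d → ℤ)) : Ell (satS L) ↔ Ell L := by
  unfold Ell; rw [span_satS]

theorem ext (L : Submodule ℤ (Fin d → ℤ)) (h : Cyc L) :
    ∃ (M : ℕ) (t : Fin d → ℤ), 0 < M ∧ ∀ b ∈ satS L, b ∈ L ↔ (M : ℤ) ∣ ∑ i, b i * t i := by
  classical
  obtain ⟨g, ⟨k, hk, hg⟩, hc⟩ := h
  have htf : Module.IsTorsionFree ℤ ((Fin d → ℤ) ⧸ satS L) := by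
    refine Module.IsTorsionFree.of_smul_eq_zero fun k x hx => ?_
    obtain ⟨b, rfl⟩ := (satS L).mkQ_surjective x
    by_cases hk : k = 0
    · exact Or.inl hk
    · right
      rw [← map_smul, Submodule.mkQ_apply, Submodule.Quotient.mk_eq_zero] at hx
      rw [Submodule.mkQ_apply, Submodule.Quotient.mk_eq_zero]
      exact sat_satS L k b hk hx
  have hfr : Module.Free ℤ ((Fin d → ℤ) ⧸ satS L) := Module.free_of_finite_type_torsion_free'
  obtain ⟨s, hs⟩ := Module.projective_lifting_property (satS L).mkQ LinearMap.id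
    (satS L).mkQ_surjective
  let π : (Fin d → ℤ) →ₗ[ℤ] (Fin d → ℤ) := LinearMap.id - s ∘ₗ (satS L).mkQ
  have h1 : ∀ b, π b ∈ satS L := fun b => by
    rw [← Submodule.Quotient.mk_eq_zero, ← Submodule.mkQ_apply]
    have := LinearMap.congr_fun hs ((satS L).mkQ b)
    simp only [LinearMap.comp_apply, LinearMap.id_apply] at this
    simp only [π, LinearMap.sub_apply, LinearMap.id_apply, LinearMap.comp_apply, map_sub, this,
      sub_self]
  have h2 : ∀ b ∈ satS L, π b = b := fun b hb => by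
    have : (satS L).mkQ b = 0 := (Submodule.Quotient.mk_eq_zero _).2 hb
    simp only [π, LinearMap.sub_apply, LinearMap.id_apply, LinearMap.comp_apply, this, map_zero,
      sub_zero]
  choose t ht using fun i : Fin d => hc _ (h1 (Pi.single i 1))
  let I : Ideal ℤ := L.comap (LinearMap.toSpanSingleton ℤ _ g)
  have hI : ∀ x : ℤ, x • g ∈ L ↔ Submodule.IsPrincipal.generator I ∣ x := fun x =>
    Submodule.IsPrincipal.mem_iff_generator_dvd I
  refine ⟨(Submodule.IsPrincipal.generator I).natAbs, t, Int.natAbs_pos.2 fun h0 => ?_,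
    fun b hb => ?_⟩
  · have := (hI k).1 hg
    rw [h0, zero_dvd_iff] at this
    exact hk this
  · rw [Int.natAbs_dvd, ← hI]
    have e : b = ∑ j, b j • (Pi.single j 1 : Fin d → ℤ) := by
      funext k
      simp [Finset.sum_apply, Pi.single_apply]
    have h3 : b - (∑ i, b i * t i) • g ∈ L := by
      have h4 : b - (∑ i, b i * t i) • g = ∑ i, b i • (π (Pi.single i 1) - t i • g) := by
        simp only [smul_sub, sum_sub_distrib, ← map_smul, ← map_sum, ← e, h2 b hb, sum_smul,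
          mul_smul]
      rw [h4]
      exact L.sum_mem fun i _ => L.smul_mem _ (ht i)
    constructor
    · intro h
      simpa using L.sub_mem h h3
    · intro h
      simpa using L.add_mem h3 h

theorem unif (L : Submodule ℤ (Fin d → ℤ)) : ∃ M : ℕ, 0 < M ∧ ∀ b ∈ satS L, (M : ℤ) • b ∈ L := by
  classical
  obtain ⟨F, hF⟩ : (satS L).FG := IsNoetherian.noetherian _
  have h : ∀ b : F, ∃ k : ℤ, k ≠ 0 ∧ k • (b : Fin d → ℤ) ∈ L := fun b =>
    (hF ▸ Submodule.subset_span b.2 : (b : Fin d → ℤ) ∈ satS L)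
  choose k hk hkL using h
  refine ⟨(∏ b, k b).natAbs, Int.natAbs_pos.2 (prod_ne_zero_iff.2 fun b _ => hk b), fun b hb => ?_⟩
  rw [← hF] at hb
  induction hb using Submodule.span_induction with
  | mem x hx =>
    obtain ⟨c, hc⟩ : k ⟨x, hx⟩ ∣ ((∏ b, k b).natAbs : ℤ) :=
      Int.dvd_natAbs.2 (dvd_prod_of_mem _ (mem_univ _))
    rw [hc, mul_comm, mul_smul]
    exact L.smul_mem _ (hkL ⟨x, hx⟩)
  | zero => simp
  | add x y _ _ hx hy => rw [smul_add]; exact L.add_mem hx hy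
  | smul a x _ hx => rw [smul_comm]; exact L.smul_mem _ hx

theorem psi_add (α : Fin d → ℂ) (h : ∀ i, α i ≠ 0) (a b : Fin d → ℤ) :
    ∏ i, α i ^ (a + b) i = (∏ i, α i ^ a i) * ∏ i, α i ^ b i := by
  rw [← prod_mul_distrib]
  exact prod_congr rfl fun i _ => by rw [Pi.add_apply, zpow_add₀ (h i)]

theorem psi_smul (α : Fin d → ℂ) (t : ℤ) (b : Fin d → ℤ) :
    ∏ i, α i ^ (t • b) i = (∏ i, α i ^ b i) ^ t := by
  rw [← prod_zpow]
  exact prod_congr rfl fun i _ => by rw [Pi.smul_apply, smul_eq_mul, mul_comm, zpow_mul]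

end Torx

open Torx in
theorem nec_all (hN : NecSt) (d : ℕ) (L : Submodule ℤ (Fin (d + 1) → ℤ)) (h : Conj L) :
    Cyc L ∧ NoB (satS L) ∧ Ell L := by
  obtain ⟨α, h0, halg, hroot, hnr, hL⟩ := h
  obtain ⟨M, hM, hML⟩ := unif L
  have hα : ∀ i, α i ≠ 0 := fun i hi => by
    have := hroot i
    rw [hi, ← coeff_zero_eq_aeval_zero', map_eq_zero] at this
    exact minpoly.coeff_zero_ne_zero halg.isIntegral h0 this
  have hM' : (M : ℤ) ≠ 0 := by exact_mod_cast hM.ne'
  have hS : ∀ b, b ∈ satS L ↔ (∏ i, α i ^ b i) ^ M = 1 := fun b => by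
    rw [← zpow_natCast, ← psi_smul, ← hL]
    exact ⟨hML b, fun h => ⟨M, hM', h⟩⟩
  have hc : Conj (satS L) := by
    refine ⟨fun i => α i ^ M, pow_ne_zero _ h0, halg.pow M, fun i => ?_, fun n hn => ?_, fun b => ?_⟩
    · obtain ⟨c, hc⟩ := minpoly.dvd ℚ (α 0) (p := expand ℚ M (minpoly ℚ (α 0 ^ M)))
        (by rw [expand_aeval, minpoly.aeval])
      rw [← expand_aeval, hc, map_mul, hroot, zero_mul]
    · rw [← pow_mul]; exact hnr _ (Nat.mul_pos hM hn)
    · rw [hS, ← prod_pow]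
      refine Eq.congr_left (prod_congr rfl fun i _ => ?_)
      show _ = (α i ^ M) ^ b i
      rw [← zpow_natCast, ← zpow_natCast, ← zpow_mul, ← zpow_mul, mul_comm]
  obtain ⟨h1, h2⟩ := hN d _ (sat_satS L) hc
  refine ⟨?_, h1, (ell_iff L).1 h2⟩
  have : NeZero M := ⟨hM.ne'⟩
  have hζ := Complex.isPrimitiveRoot_exp M hM.ne'
  generalize Complex.exp (2 * Real.pi * Complex.I / M) = ζ at hζ
  have hζ0 : ζ ≠ 0 := hζ.ne_zero hM.ne'
  let T : AddSubgroup ℤ :=
    { carrier := {t | ∃ b ∈ satS L, ∏ i, α i ^ b i = ζ ^ t}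
      zero_mem' := ⟨0, (satS L).zero_mem, by simp⟩
      add_mem' := by
        rintro s t ⟨a, ha, ha'⟩ ⟨b, hb, hb'⟩
        exact ⟨a + b, (satS L).add_mem ha hb, by rw [psi_add α hα, ha', hb', zpow_add₀ hζ0]⟩
      neg_mem' := by
        rintro t ⟨b, hb, hb'⟩
        exact ⟨(-1 : ℤ) • b, (satS L).smul_mem _ hb, by rw [psi_smul, hb', ← zpow_mul]; simp⟩ }
  obtain ⟨t0, ht0⟩ := Int.subgroup_cyclic T
  obtain ⟨g, hg, hg'⟩ : t0 ∈ T := by rw [ht0]; exact AddSubgroup.mem_closure_singleton_self t0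
  refine ⟨g, hg, fun b hb => ?_⟩
  obtain ⟨i, -, hi⟩ := hζ.eq_pow_of_pow_eq_one ((hS b).1 hb)
  have hT : (i : ℤ) ∈ T := ⟨b, hb, by rw [zpow_natCast, hi]⟩
  rw [ht0, AddSubgroup.mem_closure_singleton] at hT
  obtain ⟨u, hu⟩ := hT
  refine ⟨u, (hL _).2 ?_⟩
  rw [sub_eq_add_neg, ← neg_smul, psi_add α hα, psi_smul, hg', ← hi, ← zpow_natCast, ← hu,
    ← zpow_mul, ← zpow_add₀ hζ0]
  simp [mul_comm]

open Torx in
theorem suf_all (hD : DecompSt) (hC : CoreSt) (d : ℕ) (L : Submodule ℤ (Fin (d + 1) → ℤ))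
    (h0 : Cyc L) (h2 : NoB (satS L)) (h3 : Ell L) : Conj L := by
  classical
  obtain ⟨M, t, hM, ht⟩ := ext L h0
  obtain ⟨m, a, s, hdat, hL⟩ := hD (d + 1) _ (sat_satS L) h2 ((ell_iff L).2 h3)
  obtain ⟨n, x, hx, hperm⟩ := hC (d + 1) m a s hdat
  obtain ⟨N, θ, hN, hθ0, hind, hgal⟩ := symK n M hM
  have hζ := Complex.isPrimitiveRoot_exp M hM.ne'
  generalize Complex.exp (2 * Real.pi * Complex.I / M) = ζ at hζ
  have hζ0 : ζ ≠ 0 := hζ.ne_zero hM.ne'
  have hω : ∀ u : ℤ, (ζ ^ u) ^ M = 1 := fun u => by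
    rw [← zpow_natCast, ← zpow_mul, mul_comm, zpow_mul, zpow_natCast, hζ.pow_eq_one, one_zpow]
  let f : Fin n ↪ Fin N := Fin.castLEEmb hN
  let c : Fin (d + 1) → Fin N → ℤ := fun i =>
    Function.extend f (fun k => ∑ v, a i v * x k v) (fun _ => 0)
  have hc1 : ∀ i k, c i (f k) = ∑ v, a i v * x k v := fun i k => f.injective.extend_apply _ _ k
  have hc2 : ∀ i k, (¬ ∃ j, f j = k) → c i k = 0 := fun i k hk => Function.extend_apply' _ _ k hk
  have hsingle : ∀ i v k, x k = Pi.single v 1 → c i (f k) = a i v := by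
    intro i v k hk
    rw [hc1, hk]
    simp [Pi.single_apply]
  obtain ⟨v0, hv0⟩ := hdat.2.2 0
  obtain ⟨k0, hk0⟩ := hx v0
  have hone : c 0 (f k0) = 1 := by rw [hsingle 0 v0 k0 hk0, hv0]
  refine ⟨fun i => ζ ^ t i * ∏ k, θ k ^ c i k, ?_, (hgal _ _ hone _ (hω _)).1, fun i => ?_,
    fun r hr h => ?_, fun b => ?_⟩
  · exact mul_ne_zero (zpow_ne_zero _ hζ0) (prod_ne_zero_iff.mpr fun k _ => zpow_ne_zero _ (hθ0 k))
  · obtain ⟨τ, hτ⟩ := hperm 0 i
    have := (hgal _ _ hone _ (hω (t 0))).2 (τ.viaFintypeEmbedding f) _ (hω (t i))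
    have e : ∏ k, θ (τ.viaFintypeEmbedding f k) ^ c 0 k = ∏ k, θ k ^ c i k := by
      rw [← Equiv.prod_comp (τ.viaFintypeEmbedding f) (fun k => θ k ^ c i k)]
      refine prod_congr rfl (fun k _ => ?_)
      congr 1
      by_cases hk : ∃ j, f j = k
      · obtain ⟨j, rfl⟩ := hk
        rw [Equiv.Perm.viaFintypeEmbedding_apply_image, hc1, hc1, hτ]
      · rw [Equiv.Perm.viaFintypeEmbedding_apply_notMem_range _ _ hk, hc2 _ _ hk, hc2 _ _ hk]
    rw [e] at this
    exact this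
  · have h4 : (∏ k, θ k ^ ((r : ℤ) • c 0) k) ^ M = 1 := by
      have h5 := congrArg (· ^ M) h
      simp only [one_pow] at h5
      rw [← pow_mul, mul_comm r, pow_mul, mul_pow, hω, one_mul, ← pow_mul, mul_comm M, pow_mul] at h5
      rw [psi_smul, zpow_natCast, h5]
    have h5 := congrFun (hind _ h4) (f k0)
    simp only [Pi.smul_apply, hone, smul_eq_mul, mul_one, Pi.zero_apply] at h5
    omega
  · have e : ∏ i, (ζ ^ t i * ∏ k, θ k ^ c i k) ^ b i =
        ζ ^ (∑ i, b i * t i) * ∏ k, θ k ^ (∑ i, b i * c i k) := by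
      simp only [mul_zpow, prod_mul_distrib, ← prod_zpow, ← zpow_mul]
      rw [prod_comm, Sufx.zpow_sum' _ _ hζ0]
      congr 1
      · exact prod_congr rfl (fun i _ => by rw [mul_comm])
      refine prod_congr rfl (fun k _ => ?_)
      rw [Sufx.zpow_sum' _ _ (hθ0 k)]
      exact prod_congr rfl (fun i _ => by rw [mul_comm])
    have e1 : b ∈ satS L → ∏ k, θ k ^ (∑ i, b i * c i k) = 1 := by
      intro hb
      rw [hL] at hb
      refine prod_eq_one (fun k _ => ?_)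
      have : ∑ i, b i * c i k = 0 := by
        by_cases hk : ∃ j, f j = k
        · obtain ⟨j, rfl⟩ := hk
          simp only [hc1, mul_sum]
          rw [sum_comm]
          refine sum_eq_zero (fun v _ => ?_)
          simp only [← mul_assoc]
          rw [← sum_mul, hb v, zero_mul]
        · simp [hc2 _ _ hk]
      rw [this, zpow_zero]
    rw [e]
    constructor
    · intro hb
      have hb' := le_satS L hb
      rw [e1 hb', mul_one, hζ.zpow_eq_one_iff_dvd]
      exact (ht b hb').1 hb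
    · intro hb
      have h5 := congrArg (· ^ M) hb
      simp only [one_pow] at h5
      rw [mul_pow, hω, one_mul] at h5
      have hb' : b ∈ satS L := (hL b).2 fun v => by
        obtain ⟨k, hk⟩ := hx v
        have h6 := congrFun (hind _ h5) (f k)
        simpa only [fun i => hsingle i v k hk, Pi.zero_apply] using h6
      rw [e1 hb', mul_one, hζ.zpow_eq_one_iff_dvd] at hb
      exact (ht b hb').2 hb

end Pool.Agent.Lib.MP_e29efe_nt.Sy
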